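import Mathlib

/-!
# The algebra of the exact relations in characteristic two
-/

set_option autoImplicit false

namespace Pool.Agent.TC3

section alg

variable {A : Type*} [CommRing A] [CharP A 2]

lemma c2_eq {a b : A} (h : a + b = 0) : b = a := by
  have h1 := CharTwo.add_self_eq_zero a
  linear_combination h - h1

lemma frob {q e : ℕ} (hq : q = 2 ^ e) (a : A) : (1 + a) ^ q = 1 + a ^ q := by
  rw [hq, add_pow_char_pow, one_pow]

/-- the relation obtained from three consecutive relations -/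
lemma alg_G {q e : ℕ} (hq : q = 2 ^ e) (lam X Z T : A) (h0 : 1 + X + Z = 0)
    (h1 : 1 + lam * X + Z ^ q * T ^ q = 0)
    (h2 : 1 + lam ^ 2 * X + Z ^ q ^ 2 * T ^ (2 * q ^ 2) = 0) :
    lam ^ 2 * X + X ^ q ^ 2 + lam ^ 2 * X ^ (1 + q ^ 2) + lam ^ (2 * q) * X ^ (2 * q) = 0 := by
  have hq2 : q ^ 2 = 2 ^ (e * 2) := by rw [hq, ← pow_mul]
  have hq1 : 2 * q = 2 ^ (e + 1) := by rw [hq, pow_succ' 2 e]
  have e1 := c2_eq h1
  have e2 := c2_eq h2
  have e0 := c2_eq h0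
  have l1 : (Z ^ q * T ^ q) ^ (2 * q) = 1 + lam ^ (2 * q) * X ^ (2 * q) := by
    rw [e1, frob hq1, mul_pow]
  have l2 : (Z ^ q * T ^ q) ^ (2 * q) = (1 + X ^ q ^ 2) * (1 + lam ^ 2 * X) := by
    have l3 : Z ^ q ^ 2 = 1 + X ^ q ^ 2 := by
      rw [e0, frob hq2]
    rw [← l3, ← e2, mul_pow]
    have x1 : q * (2 * q) = q ^ 2 + q ^ 2 := by ring
    have x2 : q ^ 2 + q ^ 2 = 2 * q ^ 2 := by ring
    calc (Z ^ q) ^ (2 * q) * (T ^ q) ^ (2 * q) = Z ^ (q * (2 * q)) * T ^ (q * (2 * q)) := by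
          rw [pow_mul Z q (2 * q), pow_mul T q (2 * q)]
      _ = Z ^ q ^ 2 * (Z ^ q ^ 2 * T ^ (2 * q ^ 2)) := by
          rw [x1, pow_add Z, x2, mul_assoc]
  have l3 := l1.symm.trans l2
  have c1 := CharTwo.add_self_eq_zero (lam ^ (2 * q) * X ^ (2 * q))
  rw [pow_add X 1, pow_one]
  linear_combination (-1 : A) * l3 + c1

/-- a power of `lam` is one -/
theorem alg_lam {q e : ℕ} (hq : q = 2 ^ e) (lam X Z T : A) (hlam : ∀ x : A, lam * x = 0 → x = 0)
    (hX : ∀ x : A, X * x = 0 → x = 0)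
    (hE : ∀ j ≤ 5, 1 + lam ^ j * X + Z ^ q ^ j * T ^ (j * q ^ j) = 0) :
    lam ^ (4 * ((q ^ 2 - 1) * q ^ 2 * (2 * q - 1))) = 1 := by
  have hq1 : 1 ≤ q := by
    rw [hq]
    exact Nat.one_le_two_pow
  have hG : ∀ j ≤ 3, lam ^ 2 * (lam ^ j * X) + (lam ^ j * X) ^ q ^ 2 +
      lam ^ 2 * (lam ^ j * X) ^ (1 + q ^ 2) + lam ^ (2 * q) * (lam ^ j * X) ^ (2 * q) = 0 := by
    intro j hj
    refine alg_G hq lam (lam ^ j * X) (Z ^ q ^ j * T ^ (j * q ^ j)) (T ^ q ^ j) ?_ ?_ ?_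
    · exact hE j (by omega)
    · have h := hE (j + 1) (by omega)
      have x1 : lam * (lam ^ j * X) = lam ^ (j + 1) * X := by ring
      have x2 : (Z ^ q ^ j * T ^ (j * q ^ j)) ^ q * (T ^ q ^ j) ^ q =
          Z ^ q ^ (j + 1) * T ^ ((j + 1) * q ^ (j + 1)) := by
        rw [mul_pow, ← pow_mul, ← pow_mul, ← pow_mul, mul_assoc, ← pow_add]
        congr 2
        ring
      rw [x1, x2]
      exact h
    · have h := hE (j + 2) (by omega)
      have x1 : lam ^ 2 * (lam ^ j * X) = lam ^ (j + 2) * X := by ring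
      have x2 : (Z ^ q ^ j * T ^ (j * q ^ j)) ^ q ^ 2 * (T ^ q ^ j) ^ (2 * q ^ 2) =
          Z ^ q ^ (j + 2) * T ^ ((j + 2) * q ^ (j + 2)) := by
        rw [mul_pow, ← pow_mul, ← pow_mul, ← pow_mul, mul_assoc, ← pow_add]
        congr 2
        ring
      rw [x1, x2]
      exact h
  have g0 := hG 0 (by omega)
  have g1 := hG 1 (by omega)
  have g2 := hG 2 (by omega)
  have g3 := hG 3 (by omega)
  -- elimination
  have hel : lam ^ 2 * X * ((lam - lam ^ q ^ 2) * (lam - lam ^ (1 + q ^ 2)) *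
      (lam - lam ^ (2 * q))) = 0 := by
    simp only [mul_pow, pow_add, pow_one, pow_zero, one_mul, ← pow_mul] at g0 g1 g2 g3 ⊢
    have p1 : lam ^ (2 * q ^ 2) = (lam ^ q ^ 2) ^ 2 := by rw [← pow_mul, mul_comm]
    have p2 : lam ^ (3 * q ^ 2) = (lam ^ q ^ 2) ^ 3 := by rw [← pow_mul, mul_comm]
    have p3 : lam ^ (2 * (2 * q)) = (lam ^ (2 * q)) ^ 2 := by rw [← pow_mul, mul_comm]
    have p4 : lam ^ (3 * (2 * q)) = (lam ^ (2 * q)) ^ 3 := by rw [← pow_mul, mul_comm]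
    rw [p1, p3] at g2
    rw [p2, p4] at g3
    generalize lam ^ q ^ 2 = r at *
    generalize lam ^ (2 * q) = s at *
    generalize X ^ q ^ 2 = u at *
    generalize X ^ (2 * q) = v at *
    linear_combination g3 - (r + lam * r + s) * g2 + (r * (lam * r) + r * s + lam * r * s) * g1 -
      r * (lam * r) * s * g0
  have hel2 : (1 - lam ^ (q ^ 2 - 1)) * (1 - lam ^ q ^ 2) * (1 - lam ^ (2 * q - 1)) = 0 := by
    apply hlam
    apply hlam
    apply hlam
    apply hlam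
    apply hlam
    apply hX
    have y1 : lam ^ q ^ 2 = lam * lam ^ (q ^ 2 - 1) := by
      rw [← pow_succ']
      congr 1
      have : 1 ≤ q ^ 2 := Nat.one_le_pow _ _ hq1
      omega
    have y2 : lam ^ (2 * q) = lam * lam ^ (2 * q - 1) := by
      rw [← pow_succ']
      congr 1
      omega
    have y3 : lam ^ (1 + q ^ 2) = lam * lam ^ q ^ 2 := by rw [pow_add, pow_one]
    rw [y2, y3] at hel
    have hel' : lam ^ 2 * X * ((lam - lam * lam ^ (q ^ 2 - 1)) * (lam - lam * lam ^ q ^ 2) *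
      (lam - lam * lam ^ (2 * q - 1))) = 0 := by
      rw [← y1]
      exact hel
    linear_combination hel'
  obtain ⟨P0, hP0⟩ : ∃ P0, P0 = (q ^ 2 - 1) * q ^ 2 * (2 * q - 1) := ⟨_, rfl⟩
  have d1 : (1 - lam ^ (q ^ 2 - 1)) ∣ 1 - lam ^ P0 := by
    have := one_sub_dvd_one_sub_pow (lam ^ (q ^ 2 - 1)) (q ^ 2 * (2 * q - 1))
    rw [← pow_mul] at this
    rwa [hP0, mul_assoc]
  have d2 : (1 - lam ^ (q ^ 2)) ∣ 1 - lam ^ P0 := by
    have := one_sub_dvd_one_sub_pow (lam ^ (q ^ 2)) ((q ^ 2 - 1) * (2 * q - 1))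
    rw [← pow_mul] at this
    have e : P0 = q ^ 2 * ((q ^ 2 - 1) * (2 * q - 1)) := by
      rw [hP0]
      ring
    rwa [e]
  have d3 : (1 - lam ^ (2 * q - 1)) ∣ 1 - lam ^ P0 := by
    have := one_sub_dvd_one_sub_pow (lam ^ (2 * q - 1)) ((q ^ 2 - 1) * q ^ 2)
    rw [← pow_mul] at this
    have e : P0 = (2 * q - 1) * ((q ^ 2 - 1) * q ^ 2) := by
      rw [hP0]
      ring
    rwa [e]
  have d4 := mul_dvd_mul (mul_dvd_mul d1 d2) d3
  rw [hel2, zero_dvd_iff] at d4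
  have d5 : (1 - lam ^ P0) ^ 4 = 0 := by
    have : (1 - lam ^ P0) ^ 4 = ((1 - lam ^ P0) * (1 - lam ^ P0) * (1 - lam ^ P0)) *
      (1 - lam ^ P0) := by ring
    rw [this, d4, zero_mul]
  have d6 : (1 - lam ^ P0) ^ 2 ^ 2 = 1 ^ 2 ^ 2 - (lam ^ P0) ^ 2 ^ 2 := sub_pow_char_pow _ _ _
  have d7 : (2 : ℕ) ^ 2 = 4 := by norm_num
  rw [d7, d5, one_pow, ← pow_mul] at d6
  rw [← hP0, mul_comm 4]
  linear_combination d6

/-- the end of the algebra -/
theorem alg_end {q e : ℕ} (hq : q = 2 ^ e) (he : 1 ≤ e) (lam X Z T : A)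
    (hlam : ∀ x : A, lam * x = 0 → x = 0)
    (hX : ∀ x : A, X * x = 0 → x = 0)
    (hT : lam ^ (4 * ((q ^ 2 - 1) * q ^ 2 * (2 * q - 1))) = 1 → T = 1)
    (hE : ∀ j ≤ 5, 1 + lam ^ j * X + Z ^ q ^ j * T ^ (j * q ^ j) = 0) :
    lam ^ (q - 1) = 1 ∧ X ^ (q ^ (q - 1) - 1) = 1 := by
  have hT1 : T = 1 := hT (alg_lam hq lam X Z T hlam hX hE)
  have hXj : ∀ j ≤ 5, X ^ q ^ j = lam ^ j * X := by
    intro j hj
    have h1 := hE j hj
    rw [hT1, one_pow, mul_one] at h1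
    have h0 := hE 0 (by omega)
    rw [pow_zero, pow_zero, pow_one, zero_mul, pow_zero, one_mul, mul_one] at h0
    have h2 := c2_eq h0
    have h3 : Z ^ q ^ j = 1 + X ^ q ^ j := by
      rw [h2, frob (e := e * j) (by rw [hq, ← pow_mul])]
    rw [h3] at h1
    have c1 := CharTwo.add_self_eq_zero (1 : A)
    have c2 := CharTwo.add_self_eq_zero (lam ^ j * X)
    linear_combination h1 - c1 - c2
  have hq2 : 2 ≤ q := by
    rw [hq]
    calc 2 = 2 ^ 1 := (pow_one 2).symm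
      _ ≤ _ := Nat.pow_le_pow_right (by norm_num) he
  have h1 := hXj 1 (by omega)
  have h2 := hXj 2 (by omega)
  rw [pow_one, pow_one] at h1
  have h3 : X ^ q ^ 2 = lam ^ q * (lam * X) := by
    rw [sq, pow_mul, h1, mul_pow, h1]
  have hl : lam ^ (q - 1) = 1 := by
    have h4 := h2.symm.trans h3
    have h5 : lam ^ q = lam * lam ^ (q - 1) := by
      rw [← pow_succ']
      congr 1
      omega
    rw [h5] at h4
    have h6 : lam ^ (q - 1) - 1 = 0 := by
      apply hlam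
      apply hlam
      apply hX
      linear_combination (-1 : A) * h4
    linear_combination h6
  refine ⟨hl, ?_⟩
  have hlq : lam ^ q = lam := by
    have h5 : q = (q - 1) + 1 := by omega
    rw [h5, pow_succ, hl, one_mul]
  have hall : ∀ j, X ^ q ^ j = lam ^ j * X := by
    intro j
    induction j with
    | zero => simp
    | succ j ih =>
      rw [pow_succ q, pow_mul, ih, mul_pow, h1, ← pow_mul, mul_comm j q, pow_mul, hlq, ← mul_assoc,
        ← pow_succ]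
  have h7 := hall (q - 1)
  rw [hl, one_mul] at h7
  have h8 : X ^ q ^ (q - 1) = X * X ^ (q ^ (q - 1) - 1) := by
    rw [← pow_succ']
    congr 1
    have : 1 ≤ q ^ (q - 1) := Nat.one_le_pow _ _ (by omega)
    omega
  rw [h8] at h7
  have h9 : X ^ (q ^ (q - 1) - 1) - 1 = 0 := by
    apply hX
    linear_combination h7
  linear_combination h9

end alg

end Pool.Agent.TC3
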