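import Pool.Agent.TC3.Defs
import Pool.Agent.Helper60.Two

/-!
# Three colours: the combinatorial part (row COMB)
-/

set_option autoImplicit false

namespace Pool.Agent.TC3

open Pool.Agent.PPR
open MeasureTheory ProbabilityTheory Filter Topology

/-- the powers with exponent at least `k` -/
def PW (k : ℕ) : Set ℕ := {a | ∃ n j, k ≤ j ∧ a = n ^ j}

/-- the powers with exponent at least `k` form a multiplicatively thick set -/
lemma thickPW (k N : ℕ) : ∃ m E : ℕ, 0 < m ∧ 0 < E ∧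
    ∀ j, 0 < j → j ≤ N → ∃ n e, k ≤ e ∧ e ∣ E ∧ m * j = n ^ e := by
  induction N with
  | zero => exact ⟨1, 1, one_pos, one_pos, fun j h1 h2 => by omega⟩
  | succ N ih =>
    obtain ⟨m, E, hm, hE, h⟩ := ih
    have hb : 0 < (N + 1) * m := Nat.mul_pos (Nat.succ_pos N) hm
    refine ⟨m * ((N + 1) * m) ^ (k * E), E * (k * E + 1), Nat.mul_pos hm (Nat.pow_pos hb),
      Nat.mul_pos hE (Nat.succ_pos _), ?_⟩
    intro j hj hjN
    rcases Nat.lt_or_ge N j with h1 | h1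
    · have hj' : j = N + 1 := by omega
      subst hj'
      refine ⟨(N + 1) * m, k * E + 1, ?_, Dvd.intro_left _ rfl, ?_⟩
      · have : k * 1 ≤ k * E := Nat.mul_le_mul_left k hE
        omega
      · rw [pow_succ]
        ring
    · obtain ⟨n, e, he, ⟨w, hw⟩, hn⟩ := h j hj h1
      refine ⟨n * ((N + 1) * m) ^ (k * w), e, he, ⟨w * (k * E + 1), by rw [hw]; ring⟩, ?_⟩
      rw [mul_pow n, ← hn, ← pow_mul, show k * w * e = k * E by rw [hw]; ring]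
      ring

lemma good_PW (k : ℕ) : H60.Good (PW k) := by
  intro n χ
  obtain ⟨x, b, hx, hb, hB, h1, h2⟩ := H60.triple_mul χ (PW k) (fun N => by
    obtain ⟨m, E, hm, -, h⟩ := thickPW k N
    refine ⟨m, hm, fun j hj hjN => ?_⟩
    obtain ⟨n, e, he, -, hn⟩ := h j hj hjN
    exact ⟨n, e, he, hn⟩)
  exact ⟨x, b, hx, hb, hB, h1, h2⟩

/-- some colour class of a good set is good -/
lemma good_colour {A : Set ℕ} (h : H60.Good A) {r : ℕ} (c : ℕ → Fin r) :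
    ∃ g, H60.Good (A ∩ {n | c n = g}) := by
  by_contra hcon
  push Not at hcon
  unfold H60.Good at hcon
  push Not at hcon
  choose n χ hχ using hcon
  obtain ⟨x, b, hx, hb, hA, h1, h2⟩ := h.finite (fun t => fun g : Fin r => χ g t)
  exact hχ (c b) x b hx hb ⟨hA, rfl⟩ (congrFun h1 (c b)) (congrFun h2 (c b))

/-- limits along an ultrafilter -/
lemma ultra_lim {ι : Type*} (V : Ultrafilter ι) (F : Finset ℕ) (f : ι → ℕ)
    (hf : ∀ᶠ i in (V : Filter ι), f i ∈ F) : ∃ a ∈ F, ∀ᶠ i in (V : Filter ι), f i = a := by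
  have h1 : (⋃ a ∈ (F : Set ℕ), {i | f i = a}) ∈ V := by
    refine Filter.mem_of_superset hf (fun i hi => ?_)
    simp only [Set.mem_iUnion]
    exact ⟨f i, hi, rfl⟩
  rw [Ultrafilter.finite_biUnion_mem_iff F.finite_toSet] at h1
  obtain ⟨a, ha, h2⟩ := h1
  exact ⟨a, ha, h2⟩

section

variable {k r : ℕ} {c : ℕ → Fin r}

/-- no pattern -/
def NoPat (k : ℕ) {r : ℕ} (c : ℕ → Fin r) : Prop :=
  ¬ ∃ a b : ℕ, 1 < a ∧ 1 < b ∧ (∃ n j, k ≤ j ∧ a = n ^ j) ∧ (∃ n j, k ≤ j ∧ b = n ^ j) ∧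
      c b = c a ∧ c (a ^ b) = c a ∧ c (a ^ (b ^ b)) = c a

/-- the form in which the pattern is used: `a = m ^ (k * t * f)` -/
lemma NoPat.elim (hno : NoPat k c) (hk : 0 < k) {m t f b : ℕ} (hm : 1 < m) (ht : 0 < t)
    (hf : 0 < f) (hb : 1 < b) (hbP : b ∈ PW k) {g : Fin r} (h0 : c b = g)
    (h1 : c (m ^ (k * t * f)) = g) (h2 : c (m ^ (k * t * (f * b))) = g)
    (h3 : c (m ^ (k * t * (f * b ^ b))) = g) : False := by
  apply hno
  have hpos : 0 < k * t * f := Nat.mul_pos (Nat.mul_pos hk ht) hf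
  refine ⟨m ^ (k * t * f), b, Nat.one_lt_pow hpos.ne' hm, hb, ⟨m, k * t * f, ?_, rfl⟩, hbP,
    ?_, ?_, ?_⟩
  · calc k = k * 1 * 1 := by ring
      _ ≤ k * t * f := Nat.mul_le_mul (Nat.mul_le_mul le_rfl ht) hf
  · rw [h0, h1]
  · rw [← pow_mul, show k * t * f * b = k * t * (f * b) by ring, h1, h2]
  · rw [← pow_mul, show k * t * f * b ^ b = k * t * (f * b ^ b) by ring, h1, h3]

/-- (0.1) -/
lemma unif (hno : NoPat k c) (hk : 0 < k) {g : Fin r} (hg : H60.Good (PW k ∩ {n | c n = g}))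
    (F : Finset ℕ) (hF : ∀ f ∈ F, 0 < f) :
    ∃ Y, ∀ m, 1 < m → ∃ t, 0 < t ∧ t ≤ Y ∧ ∀ f ∈ F, c (m ^ (k * t * f)) ≠ g := by
  classical
  by_contra hcon
  push Not at hcon
  choose m hm hcon using hcon
  choose! f hfF hf using hcon
  let V : Ultrafilter ℕ := Filter.hyperfilter ℕ
  have hV : ∀ N : ℕ, ∀ᶠ Y in (V : Filter ℕ), N ≤ Y := fun N =>
    Nat.hyperfilter_le_atTop (eventually_ge_atTop N)
  have hlim : ∀ t, 0 < t → ∃ a ∈ F, ∀ᶠ Y in (V : Filter ℕ), f Y t = a := by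
    intro t ht
    apply ultra_lim
    filter_upwards [hV t] with Y hY
    exact hfF Y t ht hY
  choose! φ hφF hφ using hlim
  obtain ⟨x, b, hx, hb, ⟨hbP, hbg⟩, h1, h2⟩ := hg.finite (κ := Option F) (fun t =>
    if h : φ t ∈ F then some ⟨φ t, h⟩ else none)
  have hb0 : 0 < b := by omega
  have hxb : 0 < x * b := Nat.mul_pos hx hb0
  have hxbb : 0 < x * b ^ b := Nat.mul_pos hx (Nat.pow_pos hb0)
  rw [dif_pos (hφF x hx), dif_pos (hφF _ hxb), Option.some_inj, Subtype.mk.injEq] at h1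
  rw [dif_pos (hφF x hx), dif_pos (hφF _ hxbb), Option.some_inj, Subtype.mk.injEq] at h2
  have h3 := hφ x hx
  have h4 := hφ _ hxb
  have h5 := hφ _ hxbb
  obtain ⟨Y, hY1, hY2, hY3, hY4, hY5, hY6⟩ := (h3.and (h4.and (h5.and ((hV x).and
    ((hV (x * b)).and (hV (x * b ^ b))))))).exists
  have e1 := hf Y x hx hY4
  have e2 := hf Y _ hxb hY5
  have e3 := hf Y _ hxbb hY6
  rw [hY1] at e1
  rw [hY2, h1] at e2
  rw [hY3, h2] at e3
  have hφ0 : 0 < φ x := hF _ (hφF x hx)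
  refine hno.elim hk (m := m Y) (t := φ x) (f := x) (g := g) (hm Y) hφ0 hx (by omega) hbP hbg
    ?_ ?_ ?_
  · rw [← e1]
    congr 2
    ring
  · rw [← e2]
    congr 2
    ring
  · rw [← e3]
    congr 2
    ring

end

/-- ROW COMB -/
theorem comb (k r : ℕ) (hk : 0 < k) (c : ℕ → Fin r) (T : Finset (Fin r)) (hT : T.card ≤ 3)
    (hc : ∀ n j, 1 < n → k ≤ j → c (n ^ j) ∈ T)
    (hno : ¬ ∃ a b : ℕ, 1 < a ∧ 1 < b ∧ (∃ n j, k ≤ j ∧ a = n ^ j) ∧ (∃ n j, k ≤ j ∧ b = n ^ j) ∧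
      c b = c a ∧ c (a ^ b) = c a ∧ c (a ^ (b ^ b)) = c a) :
    ∃ (A : Set ℕ) (Y : ℕ), (∀ m, 1 < m → ∃ y, 0 < y ∧ y ≤ Y ∧ Av A y m) ∧
      ∀ m, 1 < m → ∃ y, 0 < y ∧ y ≤ Y ∧ Av Aᶜ y m := by
  classical
  have hno' : NoPat k c := hno
  obtain ⟨g, hg⟩ := good_colour (good_PW k) c
  -- the used colours
  let W : Finset (Fin r) := T.filter (fun τ => ∃ b ∈ PW k, 1 < b ∧ c b = τ)
  have hW : ∀ n j, 1 < n → 0 < j → k ≤ j → c (n ^ j) ∈ W := by
    intro n j hn hj hkj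
    exact Finset.mem_filter.2 ⟨hc n j hn hkj, n ^ j, ⟨n, j, hkj, rfl⟩,
      Nat.one_lt_pow hj.ne' hn, rfl⟩
  have hgW : g ∈ W := by
    obtain ⟨x, b, hx, hb, ⟨hbP, hbg⟩, -, -⟩ := hg 1 (fun _ => 0)
    obtain ⟨n, j, hkj, hnj⟩ := hbP
    have hn : 1 < n := by
      by_contra hcon
      rcases Nat.lt_or_ge n 1 with h | h
      · have h0 : n = 0 := by omega
        rw [h0, zero_pow (by omega)] at hnj
        omega
      · have h0 : n = 1 := by omega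
        rw [h0, one_pow] at hnj
        omega
    have := hW n j hn (by omega) hkj
    rw [← hnj] at this
    have hbg' : c b = g := hbg
    rwa [hbg'] at this
  have hcard : (W.erase g).card ≤ 2 := by
    rw [Finset.card_erase_of_mem hgW]
    have := Finset.card_filter_le T (fun τ => ∃ b ∈ PW k, 1 < b ∧ c b = τ)
    have h2 : W.card ≤ T.card := this
    omega
  have hne : ∀ m t f, 1 < m → 0 < t → 0 < f → c (m ^ (k * t * f)) ≠ g →
      c (m ^ (k * t * f)) ∈ W.erase g := by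
    intro m t f hm ht hf h
    refine Finset.mem_erase.2 ⟨h, hW m _ hm (Nat.mul_pos (Nat.mul_pos hk ht) hf) ?_⟩
    calc k = k * 1 * 1 := by ring
      _ ≤ k * t * f := Nat.mul_le_mul (Nat.mul_le_mul le_rfl ht) hf
  obtain ⟨al, be, hal, hbe, hab⟩ : ∃ al be, al ∈ W ∧ be ∈ W ∧
      ∀ τ ∈ W.erase g, τ = al ∨ τ = be := by
    rcases Nat.lt_or_ge (W.erase g).card 1 with h0 | h0
    · exfalso
      obtain ⟨Y, hY⟩ := unif hno' hk hg {1} (by simp)
      obtain ⟨t, ht, -, htf⟩ := hY 2 (by norm_num)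
      have h1 := hne 2 t 1 (by norm_num) ht one_pos (htf 1 (by simp))
      have h2 := Finset.card_pos.2 ⟨_, h1⟩
      omega
    · rcases Nat.lt_or_ge (W.erase g).card 2 with h1 | h1
      · obtain ⟨al, hal⟩ := Finset.card_eq_one.1 (show (W.erase g).card = 1 by omega)
        have h2 : al ∈ W.erase g := by rw [hal]; exact Finset.mem_singleton_self al
        have h3 : al ∈ W := (Finset.mem_erase.1 h2).2
        refine ⟨al, al, h3, h3, fun τ hτ => ?_⟩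
        rw [hal, Finset.mem_singleton] at hτ
        exact Or.inl hτ
      · obtain ⟨al, be, -, hab⟩ := Finset.card_eq_two.1 (show (W.erase g).card = 2 by omega)
        have h2 : al ∈ W.erase g := by rw [hab]; simp
        have h3 : be ∈ W.erase g := by rw [hab]; simp
        refine ⟨al, be, (Finset.mem_erase.1 h2).2, (Finset.mem_erase.1 h3).2, fun τ hτ => ?_⟩
        rw [hab, Finset.mem_insert, Finset.mem_singleton] at hτ
        exact hτ
  obtain ⟨-, ba, hbaP, hba1, hba⟩ := Finset.mem_filter.1 hal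
  obtain ⟨-, bb, hbbP, hbb1, hbb⟩ := Finset.mem_filter.1 hbe
  have hor : ∀ m t f, 1 < m → 0 < t → 0 < f → c (m ^ (k * t * f)) ≠ g →
      c (m ^ (k * t * f)) = al ∨ c (m ^ (k * t * f)) = be :=
    fun m t f hm ht hf h => hab _ (hne m t f hm ht hf h)
  -- (0.2)
  obtain ⟨Y, hY⟩ := unif hno' hk hg {1, ba, ba ^ ba, bb, bb ^ bb} (by
    intro f hf
    simp only [Finset.mem_insert, Finset.mem_singleton] at hf
    rcases hf with rfl | rfl | rfl | rfl | rfl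
    · exact one_pos
    · omega
    · exact Nat.pow_pos (by omega)
    · omega
    · exact Nat.pow_pos (by omega))
  -- (0.3)
  have hN : ∀ N : ℕ, ∃ t, 0 < t ∧ ∀ f, 0 < f → f ≤ N → c (2 ^ (k * t * f)) ≠ g := by
    intro N
    obtain ⟨Y', hY'⟩ := unif hno' hk hg (Finset.Icc 1 N) (fun f hf => (Finset.mem_Icc.1 hf).1)
    obtain ⟨t, ht, -, htf⟩ := hY' 2 (by norm_num)
    exact ⟨t, ht, fun f h1 h2 => htf f (Finset.mem_Icc.2 ⟨h1, h2⟩)⟩
  choose t ht htf using hN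
  let V : Ultrafilter ℕ := Filter.hyperfilter ℕ
  have hV : ∀ N : ℕ, ∀ᶠ Y in (V : Filter ℕ), N ≤ Y := fun N =>
    Nat.hyperfilter_le_atTop (eventually_ge_atTop N)
  let A : Set ℕ := {f | ∀ᶠ N in (V : Filter ℕ), c (2 ^ (k * t N * f)) = al}
  have hAc : ∀ f, 0 < f → f ∉ A → ∀ᶠ N in (V : Filter ℕ), c (2 ^ (k * t N * f)) = be := by
    intro f hf hfA
    have h1 : ∀ᶠ N in (V : Filter ℕ), ¬ c (2 ^ (k * t N * f)) = al :=
      Ultrafilter.eventually_not.2 hfA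
    filter_upwards [h1, hV f] with N h2 h3
    exact (hor 2 (t N) f (by norm_num) (ht N) hf (htf N f hf h3)).resolve_left h2
  have hi : ∀ b, 1 < b → b ∈ PW k → c b = al → ∀ f, 0 < f →
      ¬ (f ∈ A ∧ f * b ∈ A ∧ f * b ^ b ∈ A) := by
    rintro b hb1 hbP hb f hf ⟨h1, h2, h3⟩
    obtain ⟨N, e1, e2, e3⟩ := (h1.and (h2.and h3)).exists
    exact hno'.elim hk (by norm_num) (ht N) hf hb1 hbP hb e1 e2 e3
  have hii : ∀ b, 1 < b → b ∈ PW k → c b = be → ∀ f, 0 < f →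
      ¬ (f ∈ Aᶜ ∧ f * b ∈ Aᶜ ∧ f * b ^ b ∈ Aᶜ) := by
    rintro b hb1 hbP hb f hf ⟨h1, h2, h3⟩
    have hb0 : 0 < b := by omega
    obtain ⟨N, e1, e2, e3⟩ := ((hAc f hf h1).and ((hAc _ (Nat.mul_pos hf hb0) h2).and
      (hAc _ (Nat.mul_pos hf (Nat.pow_pos hb0)) h3))).exists
    exact hno'.elim hk (by norm_num) (ht N) hf hb1 hbP hb e1 e2 e3
  have hAv : ∀ (B : Set ℕ) (τ : Fin r) (m y : ℕ), 1 < m → 0 < y → k ≤ y → c (m ^ y) = τ →
      (∀ b, 1 < b → b ∈ PW k → c b = τ → ∀ f, 0 < f →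
      ¬ (f ∈ B ∧ f * b ∈ B ∧ f * b ^ b ∈ B)) → Av B y m := by
    intro B τ m y hm hy hky hcy h f hf hcon
    refine h (m ^ y) (Nat.one_lt_pow hy.ne' hm) ⟨m, y, hky, rfl⟩ hcy f hf ?_
    rw [← pow_mul]
    exact hcon
  -- the bound
  let Z : ℕ := k * Y * (1 + ba + ba ^ ba + bb + bb ^ bb)
  have hbound : ∀ t' f, 0 < t' → t' ≤ Y → 0 < f → f ≤ 1 + ba + ba ^ ba + bb + bb ^ bb →
      0 < k * t' * f ∧ k ≤ k * t' * f ∧ k * t' * f ≤ Z := by
    intro t' f h1 h2 h3 h4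
    refine ⟨Nat.mul_pos (Nat.mul_pos hk h1) h3, ?_,
      Nat.mul_le_mul (Nat.mul_le_mul le_rfl h2) h4⟩
    calc k = k * 1 * 1 := by ring
      _ ≤ k * t' * f := Nat.mul_le_mul (Nat.mul_le_mul le_rfl h1) h3
  have key : ∀ (b : ℕ) (τ τ' : Fin r), 1 < b → b ∈ PW k → c b = τ' →
      (∀ σ, σ = al ∨ σ = be → σ = τ ∨ σ = τ') →
      b ≤ 1 + ba + ba ^ ba + bb + bb ^ bb → b ^ b ≤ 1 + ba + ba ^ ba + bb + bb ^ bb →
      b ∈ ({1, ba, ba ^ ba, bb, bb ^ bb} : Finset ℕ) →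
      b ^ b ∈ ({1, ba, ba ^ ba, bb, bb ^ bb} : Finset ℕ) →
      ∀ m, 1 < m → ∃ y, 0 < y ∧ k ≤ y ∧ y ≤ Z ∧ c (m ^ y) = τ := by
    intro b τ τ' hb1 hbP hb hσ hle1 hle2 hmem1 hmem2 m hm
    obtain ⟨t', ht', ht'Y, ht'f⟩ := hY m hm
    have hb0 : 0 < b := by omega
    have hbb0 : 0 < b ^ b := Nat.pow_pos hb0
    by_contra hcon
    push Not at hcon
    have h1 : ∀ f, 0 < f → f ≤ 1 + ba + ba ^ ba + bb + bb ^ bb →
        f ∈ ({1, ba, ba ^ ba, bb, bb ^ bb} : Finset ℕ) → c (m ^ (k * t' * f)) = τ' := by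
      intro f hf0 hfle hfF
      obtain ⟨e1, e2, e3⟩ := hbound t' f ht' ht'Y hf0 hfle
      have h2 := hcon _ e1 e2 e3
      exact (hσ _ (hor m t' f hm ht' hf0 (ht'f f hfF))).resolve_left h2
    refine hno'.elim hk hm ht' one_pos hb1 hbP hb (h1 1 one_pos (by omega) (by simp)) ?_ ?_
    · rw [one_mul]
      exact h1 b hb0 hle1 hmem1
    · rw [one_mul]
      exact h1 (b ^ b) hbb0 hle2 hmem2
  refine ⟨A, Z, ?_, ?_⟩
  · intro m hm
    obtain ⟨y, hy, hky, hyZ, hcy⟩ := key bb al be hbb1 hbbP hbb (fun σ h => h)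
      (by omega) (by omega) (by simp) (by simp) m hm
    exact ⟨y, hy, hyZ, hAv A al m y hm hy hky hcy hi⟩
  · intro m hm
    obtain ⟨y, hy, hky, hyZ, hcy⟩ := key ba be al hba1 hbaP hba (fun σ h => h.symm)
      (by omega) (by omega) (by simp) (by simp) m hm
    exact ⟨y, hy, hyZ, hAv Aᶜ be m y hm hy hky hcy hii⟩

end Pool.Agent.TC3
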