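import Pool.Agent.TC3.Comb

/-!
# The combinatorial part for arbitrarily many colours
-/

set_option autoImplicit false

namespace Pool.Agent.TC3

open Pool.Agent.PPR
open MeasureTheory ProbabilityTheory Filter Topology

/-- (0.1) for several good colours -/
lemma unifS {k r : ℕ} {c : ℕ → Fin r} (hno : NoPat k c) (hk : 0 < k) (S : Finset (Fin r))
    (hS : ∀ g ∈ S, H60.Good (PW k ∩ {n | c n = g})) :
    ∀ (F : Finset ℕ), (∀ f ∈ F, 0 < f) →
    ∃ Y, ∀ m, 1 < m → ∃ t, 0 < t ∧ t ≤ Y ∧ ∀ f ∈ F, c (m ^ (k * t * f)) ∉ S := by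
  classical
  induction S using Finset.induction_on with
  | empty =>
    intro F hF
    exact ⟨1, fun m _ => ⟨1, one_pos, le_rfl, fun f _ => Finset.notMem_empty _⟩⟩
  | insert g S hgS ih =>
    have ih' := ih (fun g' hg' => hS g' (Finset.mem_insert_of_mem hg'))
    have hg : H60.Good (PW k ∩ {n | c n = g}) := hS g (Finset.mem_insert_self g S)
    intro F hF
    by_contra hcon
    push Not at hcon
    choose m hm hcon using hcon
    -- windows without the colours of `S`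
    have hwin : ∀ L : ℕ, ∃ M, 1 < M ∧ ∀ l, 0 < l → l ≤ L → ∃ f ∈ F, c (M ^ (k * l * f)) = g := by
      intro L
      obtain ⟨Y, hY⟩ := ih' (F.biUnion fun f => (Finset.Icc 1 L).image fun l => l * f) (by
        intro f' hf'
        obtain ⟨f, hf, hf''⟩ := Finset.mem_biUnion.1 hf'
        obtain ⟨l, hl, rfl⟩ := Finset.mem_image.1 hf''
        exact Nat.mul_pos (Finset.mem_Icc.1 hl).1 (hF f hf))
      obtain ⟨u, hu, huY, huf⟩ := hY (m (Y * L)) (hm _)
      refine ⟨m (Y * L) ^ u, Nat.one_lt_pow hu.ne' (hm _), fun l hl hlL => ?_⟩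
      obtain ⟨f, hf, hcf⟩ := hcon (Y * L) (u * l) (Nat.mul_pos hu hl)
        (Nat.mul_le_mul huY hlL)
      refine ⟨f, hf, ?_⟩
      have e1 : k * (u * l) * f = k * u * (l * f) := by ring
      have e2 : (m (Y * L) ^ u) ^ (k * l * f) = m (Y * L) ^ (k * (u * l) * f) := by
        rw [← pow_mul]
        congr 1
        ring
      rw [e2]
      have h1 : c (m (Y * L) ^ (k * (u * l) * f)) ∉ S := by
        rw [e1]
        exact huf (l * f) (Finset.mem_biUnion.2 ⟨f, hf, Finset.mem_image.2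
          ⟨l, Finset.mem_Icc.2 ⟨hl, hlL⟩, rfl⟩⟩)
      rcases Finset.mem_insert.1 hcf with h2 | h2
      · exact h2
      · exact absurd h2 h1
    choose M hM hwin using hwin
    choose! f hfF hf using hwin
    let V : Ultrafilter ℕ := Filter.hyperfilter ℕ
    have hV : ∀ N : ℕ, ∀ᶠ Y in (V : Filter ℕ), N ≤ Y := fun N =>
      Nat.hyperfilter_le_atTop (eventually_ge_atTop N)
    have hlim : ∀ t, 0 < t → ∃ a ∈ F, ∀ᶠ Y in (V : Filter ℕ), f Y t = a := by
      intro t ht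
      apply ultra_lim
      filter_upwards [hV t] with Y hY
      exact hfF Y t ht hY
    choose! φ hφF hφ using hlim
    obtain ⟨x, b, hx, hb, ⟨hbP, hbg⟩, h1, h2⟩ := hg.finite (κ := Option F) (fun t =>
      if h : φ t ∈ F then some ⟨φ t, h⟩ else none)
    have hb0 : 0 < b := by omega
    have hxb : 0 < x * b := Nat.mul_pos hx hb0
    have hxbb : 0 < x * b ^ b := Nat.mul_pos hx (Nat.pow_pos hb0)
    rw [dif_pos (hφF x hx), dif_pos (hφF _ hxb), Option.some_inj, Subtype.mk.injEq] at h1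
    rw [dif_pos (hφF x hx), dif_pos (hφF _ hxbb), Option.some_inj, Subtype.mk.injEq] at h2
    have h3 := hφ x hx
    have h4 := hφ _ hxb
    have h5 := hφ _ hxbb
    obtain ⟨Y, hY1, hY2, hY3, hY4, hY5, hY6⟩ := (h3.and (h4.and (h5.and ((hV x).and
      ((hV (x * b)).and (hV (x * b ^ b))))))).exists
    have e1 := hf Y x hx hY4
    have e2 := hf Y _ hxb hY5
    have e3 := hf Y _ hxbb hY6
    rw [hY1] at e1
    rw [hY2, h1] at e2
    rw [hY3, h2] at e3
    have hφ0 : 0 < φ x := hF _ (hφF x hx)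
    refine hno.elim hk (m := M Y) (t := φ x) (f := x) (g := g) (hM Y) hφ0 hx (by omega) hbP hbg
      ?_ ?_ ?_
    · rw [← e1]
      congr 2
      ring
    · rw [← e2]
      congr 2
      ring
    · rw [← e3]
      congr 2
      ring

/-- the combinatorial part: all colours but two are good -/
theorem comb_gen (k r : ℕ) (hk : 0 < k) (c : ℕ → Fin r) (E : Finset (Fin r)) (hE : E.card ≤ 2)
    (hc : ∀ n j, 1 < n → k ≤ j → c (n ^ j) ∉ E → H60.Good (PW k ∩ {m | c m = c (n ^ j)}))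
    (hno : ¬ ∃ a b : ℕ, 1 < a ∧ 1 < b ∧ (∃ n j, k ≤ j ∧ a = n ^ j) ∧ (∃ n j, k ≤ j ∧ b = n ^ j) ∧
      c b = c a ∧ c (a ^ b) = c a ∧ c (a ^ (b ^ b)) = c a) :
    ∃ (A : Set ℕ) (Y : ℕ), (∀ m, 1 < m → ∃ y, 0 < y ∧ y ≤ Y ∧ Av A y m) ∧
      ∀ m, 1 < m → ∃ y, 0 < y ∧ y ≤ Y ∧ Av Aᶜ y m := by
  classical
  have hno' : NoPat k c := hno
  -- the good colours
  let S : Finset (Fin r) := Finset.univ.filter (fun τ => H60.Good (PW k ∩ {m | c m = τ}))
  have hg : ∀ g ∈ S, H60.Good (PW k ∩ {n | c n = g}) := fun g h => (Finset.mem_filter.1 h).2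
  -- the used colours
  let W : Finset (Fin r) := Finset.univ.filter (fun τ => ∃ b ∈ PW k, 1 < b ∧ c b = τ)
  have hW : ∀ n j, 1 < n → 0 < j → k ≤ j → c (n ^ j) ∈ W := by
    intro n j hn hj hkj
    exact Finset.mem_filter.2 ⟨Finset.mem_univ _, n ^ j, ⟨n, j, hkj, rfl⟩,
      Nat.one_lt_pow hj.ne' hn, rfl⟩
  have hWE : W \ S ⊆ E := by
    intro τ hτ
    obtain ⟨h1, h2⟩ := Finset.mem_sdiff.1 hτ
    obtain ⟨-, b, ⟨n, j, hkj, hnj⟩, hb1, hbτ⟩ := Finset.mem_filter.1 h1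
    by_contra hcon
    apply h2
    have hn : 1 < n := by
      by_contra hcon
      rcases Nat.lt_or_ge n 1 with h | h
      · have h0 : n = 0 := by omega
        rw [h0, zero_pow (by omega)] at hnj
        omega
      · have h0 : n = 1 := by omega
        rw [h0, one_pow] at hnj
        omega
    rw [← hbτ, hnj] at hcon
    have h3 := hc n j hn hkj hcon
    rw [← hnj, hbτ] at h3
    exact Finset.mem_filter.2 ⟨Finset.mem_univ _, h3⟩
  have hcard : (W \ S).card ≤ 2 := (Finset.card_le_card hWE).trans hE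
  have hne : ∀ m t f, 1 < m → 0 < t → 0 < f → c (m ^ (k * t * f)) ∉ S →
      c (m ^ (k * t * f)) ∈ W \ S := by
    intro m t f hm ht hf h
    refine Finset.mem_sdiff.2 ⟨hW m _ hm (Nat.mul_pos (Nat.mul_pos hk ht) hf) ?_, h⟩
    calc k = k * 1 * 1 := by ring
      _ ≤ k * t * f := Nat.mul_le_mul (Nat.mul_le_mul le_rfl ht) hf
  obtain ⟨al, be, hal, hbe, hab⟩ : ∃ al be, al ∈ W ∧ be ∈ W ∧
      ∀ τ ∈ W \ S, τ = al ∨ τ = be := by
    rcases Nat.lt_or_ge (W \ S).card 1 with h0 | h0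
    · exfalso
      obtain ⟨Y, hY⟩ := unifS hno' hk S hg {1} (by simp)
      obtain ⟨t, ht, -, htf⟩ := hY 2 (by norm_num)
      have h1 := hne 2 t 1 (by norm_num) ht one_pos (htf 1 (by simp))
      have h2 := Finset.card_pos.2 ⟨_, h1⟩
      omega
    · rcases Nat.lt_or_ge (W \ S).card 2 with h1 | h1
      · obtain ⟨al, hal⟩ := Finset.card_eq_one.1 (show (W \ S).card = 1 by omega)
        have h2 : al ∈ W \ S := by rw [hal]; exact Finset.mem_singleton_self al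
        have h3 : al ∈ W := (Finset.mem_sdiff.1 h2).1
        refine ⟨al, al, h3, h3, fun τ hτ => ?_⟩
        rw [hal, Finset.mem_singleton] at hτ
        exact Or.inl hτ
      · obtain ⟨al, be, -, hab⟩ := Finset.card_eq_two.1 (show (W \ S).card = 2 by omega)
        have h2 : al ∈ W \ S := by rw [hab]; simp
        have h3 : be ∈ W \ S := by rw [hab]; simp
        refine ⟨al, be, (Finset.mem_sdiff.1 h2).1, (Finset.mem_sdiff.1 h3).1, fun τ hτ => ?_⟩
        rw [hab, Finset.mem_insert, Finset.mem_singleton] at hτ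
        exact hτ
  obtain ⟨-, ba, hbaP, hba1, hba⟩ := Finset.mem_filter.1 hal
  obtain ⟨-, bb, hbbP, hbb1, hbb⟩ := Finset.mem_filter.1 hbe
  have hor : ∀ m t f, 1 < m → 0 < t → 0 < f → c (m ^ (k * t * f)) ∉ S →
      c (m ^ (k * t * f)) = al ∨ c (m ^ (k * t * f)) = be :=
    fun m t f hm ht hf h => hab _ (hne m t f hm ht hf h)
  -- (0.2)
  obtain ⟨Y, hY⟩ := unifS hno' hk S hg {1, ba, ba ^ ba, bb, bb ^ bb} (by
    intro f hf
    simp only [Finset.mem_insert, Finset.mem_singleton] at hf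
    rcases hf with rfl | rfl | rfl | rfl | rfl
    · exact one_pos
    · omega
    · exact Nat.pow_pos (by omega)
    · omega
    · exact Nat.pow_pos (by omega))
  -- (0.3)
  have hN : ∀ N : ℕ, ∃ t, 0 < t ∧ ∀ f, 0 < f → f ≤ N → c (2 ^ (k * t * f)) ∉ S := by
    intro N
    obtain ⟨Y', hY'⟩ := unifS hno' hk S hg (Finset.Icc 1 N) (fun f hf => (Finset.mem_Icc.1 hf).1)
    obtain ⟨t, ht, -, htf⟩ := hY' 2 (by norm_num)
    exact ⟨t, ht, fun f h1 h2 => htf f (Finset.mem_Icc.2 ⟨h1, h2⟩)⟩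
  choose t ht htf using hN
  let V : Ultrafilter ℕ := Filter.hyperfilter ℕ
  have hV : ∀ N : ℕ, ∀ᶠ Y in (V : Filter ℕ), N ≤ Y := fun N =>
    Nat.hyperfilter_le_atTop (eventually_ge_atTop N)
  let A : Set ℕ := {f | ∀ᶠ N in (V : Filter ℕ), c (2 ^ (k * t N * f)) = al}
  have hAc : ∀ f, 0 < f → f ∉ A → ∀ᶠ N in (V : Filter ℕ), c (2 ^ (k * t N * f)) = be := by
    intro f hf hfA
    have h1 : ∀ᶠ N in (V : Filter ℕ), ¬ c (2 ^ (k * t N * f)) = al :=
      Ultrafilter.eventually_not.2 hfA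
    filter_upwards [h1, hV f] with N h2 h3
    exact (hor 2 (t N) f (by norm_num) (ht N) hf (htf N f hf h3)).resolve_left h2
  have hi : ∀ b, 1 < b → b ∈ PW k → c b = al → ∀ f, 0 < f →
      ¬ (f ∈ A ∧ f * b ∈ A ∧ f * b ^ b ∈ A) := by
    rintro b hb1 hbP hb f hf ⟨h1, h2, h3⟩
    obtain ⟨N, e1, e2, e3⟩ := (h1.and (h2.and h3)).exists
    exact hno'.elim hk (by norm_num) (ht N) hf hb1 hbP hb e1 e2 e3
  have hii : ∀ b, 1 < b → b ∈ PW k → c b = be → ∀ f, 0 < f →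
      ¬ (f ∈ Aᶜ ∧ f * b ∈ Aᶜ ∧ f * b ^ b ∈ Aᶜ) := by
    rintro b hb1 hbP hb f hf ⟨h1, h2, h3⟩
    have hb0 : 0 < b := by omega
    obtain ⟨N, e1, e2, e3⟩ := ((hAc f hf h1).and ((hAc _ (Nat.mul_pos hf hb0) h2).and
      (hAc _ (Nat.mul_pos hf (Nat.pow_pos hb0)) h3))).exists
    exact hno'.elim hk (by norm_num) (ht N) hf hb1 hbP hb e1 e2 e3
  have hAv : ∀ (B : Set ℕ) (τ : Fin r) (m y : ℕ), 1 < m → 0 < y → k ≤ y → c (m ^ y) = τ →
      (∀ b, 1 < b → b ∈ PW k → c b = τ → ∀ f, 0 < f →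
      ¬ (f ∈ B ∧ f * b ∈ B ∧ f * b ^ b ∈ B)) → Av B y m := by
    intro B τ m y hm hy hky hcy h f hf hcon
    refine h (m ^ y) (Nat.one_lt_pow hy.ne' hm) ⟨m, y, hky, rfl⟩ hcy f hf ?_
    rw [← pow_mul]
    exact hcon
  -- the bound
  let Z : ℕ := k * Y * (1 + ba + ba ^ ba + bb + bb ^ bb)
  have hbound : ∀ t' f, 0 < t' → t' ≤ Y → 0 < f → f ≤ 1 + ba + ba ^ ba + bb + bb ^ bb →
      0 < k * t' * f ∧ k ≤ k * t' * f ∧ k * t' * f ≤ Z := by
    intro t' f h1 h2 h3 h4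
    refine ⟨Nat.mul_pos (Nat.mul_pos hk h1) h3, ?_,
      Nat.mul_le_mul (Nat.mul_le_mul le_rfl h2) h4⟩
    calc k = k * 1 * 1 := by ring
      _ ≤ k * t' * f := Nat.mul_le_mul (Nat.mul_le_mul le_rfl h1) h3
  have key : ∀ (b : ℕ) (τ τ' : Fin r), 1 < b → b ∈ PW k → c b = τ' →
      (∀ σ, σ = al ∨ σ = be → σ = τ ∨ σ = τ') →
      b ≤ 1 + ba + ba ^ ba + bb + bb ^ bb → b ^ b ≤ 1 + ba + ba ^ ba + bb + bb ^ bb →
      b ∈ ({1, ba, ba ^ ba, bb, bb ^ bb} : Finset ℕ) →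
      b ^ b ∈ ({1, ba, ba ^ ba, bb, bb ^ bb} : Finset ℕ) →
      ∀ m, 1 < m → ∃ y, 0 < y ∧ k ≤ y ∧ y ≤ Z ∧ c (m ^ y) = τ := by
    intro b τ τ' hb1 hbP hb hσ hle1 hle2 hmem1 hmem2 m hm
    obtain ⟨t', ht', ht'Y, ht'f⟩ := hY m hm
    have hb0 : 0 < b := by omega
    have hbb0 : 0 < b ^ b := Nat.pow_pos hb0
    by_contra hcon
    push Not at hcon
    have h1 : ∀ f, 0 < f → f ≤ 1 + ba + ba ^ ba + bb + bb ^ bb →
        f ∈ ({1, ba, ba ^ ba, bb, bb ^ bb} : Finset ℕ) → c (m ^ (k * t' * f)) = τ' := by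
      intro f hf0 hfle hfF
      obtain ⟨e1, e2, e3⟩ := hbound t' f ht' ht'Y hf0 hfle
      have h2 := hcon _ e1 e2 e3
      exact (hσ _ (hor m t' f hm ht' hf0 (ht'f f hfF))).resolve_left h2
    refine hno'.elim hk hm ht' one_pos hb1 hbP hb (h1 1 one_pos (by omega) (by simp)) ?_ ?_
    · rw [one_mul]
      exact h1 b hb0 hle1 hmem1
    · rw [one_mul]
      exact h1 (b ^ b) hbb0 hle2 hmem2
  refine ⟨A, Z, ?_, ?_⟩
  · intro m hm
    obtain ⟨y, hy, hky, hyZ, hcy⟩ := key bb al be hbb1 hbbP hbb (fun σ h => h)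
      (by omega) (by omega) (by simp) (by simp) m hm
    exact ⟨y, hy, hyZ, hAv A al m y hm hy hky hcy hi⟩
  · intro m hm
    obtain ⟨y, hy, hky, hyZ, hcy⟩ := key ba be al hba1 hbaP hba (fun σ h => h.symm)
      (by omega) (by omega) (by simp) (by simp) m hm
    exact ⟨y, hy, hyZ, hAv Aᶜ be m y hm hy hky hcy hii⟩

end Pool.Agent.TC3
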