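import Pool.Agent.PPR.Pos

/-!
# Three colours: definitions
-/

set_option autoImplicit false

namespace Pool.Agent.TC3

open Pool.Agent.PPR
open MeasureTheory ProbabilityTheory Filter Topology

/-- a phase with constants -/
noncomputable def phc {D : ℕ} (L : Fin (D + 1) → ℕ → ℝ) (x : Fin (D + 1) → ℝ) (n : ℕ) : ℝ :=
  phase L n + ∑ d : Fin (D + 1), (n : ℝ) ^ (d : ℕ) * x d

/-- the functions `exp (2 π i phase)` -/
def IsPh (u : ℕ → Circle) : Prop :=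
  ∃ (D : ℕ) (L : Fin (D + 1) → ℕ → ℝ) (x : Fin (D + 1) → ℝ), x 0 = 0 ∧
    ∀ n, 0 < n → u n = ee (phc L x n)

/-- functions of positive type: mixtures of phases -/
def PT (F : ℕ → ℂ) : Prop :=
  ∃ (Ω : Type) (_ : MeasurableSpace Ω) (ν : Measure Ω) (Θ : ℕ → Ω → Circle),
    IsFiniteMeasure ν ∧ (∀ n, Measurable (Θ n)) ∧ (∀ ω, IsPh (fun n => Θ n ω)) ∧
      ∀ n, 0 < n → F n = ∫ ω, ((Θ n ω : Circle) : ℂ) ∂ν

/-- sets of density zero for the averages over the bases -/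
def Negl (B : Set ℕ) : Prop :=
  ∀ δ : ℝ, 0 < δ → ∀ᶠ X in atTop, ∀ᶠ K in atTop, avg X K (B.indicator fun _ => (1 : ℝ)) ≤ δ

/-- `A` does not contain `f, f * b, f * b ^ b`, `b = m ^ y` -/
def Av (A : Set ℕ) (y m : ℕ) : Prop :=
  ∀ f, 0 < f → ¬ (f ∈ A ∧ f * m ^ y ∈ A ∧ f * m ^ (y * m ^ y) ∈ A)

/-- correlations -/
noncomputable def corr (U : Ultrafilter ℕ) (A : Set ℕ) (h h' : ℕ) : ℝ :=
  dens U {x | x * h ∈ A ∧ x * h' ∈ A}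

/-- the set of the `x` for which an odd number of `x, x * b, x * b ^ b` lies in `A` -/
def Odd3 (A : Set ℕ) (y m : ℕ) : Set ℕ :=
  {x | Xor (x ∈ A) (Xor (x * m ^ y ∈ A) (x * m ^ (y * m ^ y) ∈ A))}

/-- the family of the spectral measures -/
structure SpecFam (U : Ultrafilter ℕ) (A : Set ℕ) (σ : ℕ → Measure (ℕ → Circle)) : Prop where
  prob : ∀ y, 0 < y → IsProbabilityMeasure (σ y)
  pri : ∀ y, 0 < y → ∀ᵐ l ∂(σ y), ∀ p : ℕ, ¬ p.Prime → l p = 1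
  atom : ∀ y, 0 < y → dens U A ≤ (σ y).real {1}
  lin : ∀ y m, 0 < y → 0 < m →
    ∫ l, ((ext l m : Circle) : ℂ) ∂(σ y) = ((corr U A 1 (m ^ y) / dens U A : ℝ) : ℂ)
  co : ∀ y m, 0 < y → 0 < m →
    ∫ l, ((ext l m ^ (m ^ y) : Circle) : ℂ) ∂(σ y) =
      ((corr U A 1 (m ^ (y * m ^ y)) / dens U A : ℝ) : ℂ)
  mix : ∀ y m, 0 < y → 0 < m →
    ∫ l, ((ext l m ^ (m ^ y - 1) : Circle) : ℂ) ∂(σ y) =
      ((corr U A (m ^ y) (m ^ (y * m ^ y)) / dens U A : ℝ) : ℂ)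
  pw : ∀ y N, 0 < y → 0 < N → (σ y).map (fun l p => l p ^ N) = σ (y * N)

/-- `P = 4 (q^2 - 1) q^2 (2 q - 1)` -/
def PP (q : ℕ) : ℕ := 4 * (q ^ 2 - 1) * q ^ 2 * (2 * q - 1)

/-- `N' = q ^ (q - 1) - 1` -/
def NN (q : ℕ) : ℕ := q ^ (q - 1) - 1

end Pool.Agent.TC3
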