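import Pool.Agent.TC3.Defs

/-!
# Three colours: facts on densities (row DENS)
-/

set_option autoImplicit false

namespace Pool.Agent.TC3

open Pool.Agent.PPR
open MeasureTheory ProbabilityTheory Filter Topology

theorem dens_dil (U : Ultrafilter ℕ) (hU : (U : Filter ℕ) ≤ atTop) (A : Set ℕ) (h : ℕ)
    (hh : 0 < h) : dens U {x | x * h ∈ A} = dens U A := by
  classical
  obtain ⟨C, hC, h1⟩ := avgX_shift h hh
  have h2 : Tendsto (fun X => avgX X ({x | x * h ∈ A}.indicator (fun _ => (1 : ℝ))) -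
      avgX X (A.indicator (fun _ => (1 : ℝ)))) (U : Filter ℕ)
      (𝓝 (dens U {x | x * h ∈ A} - dens U A)) := (tendsto_dens U _).sub (tendsto_dens U A)
  have h3 : Tendsto (fun X : ℕ => 1 * C / ((X : ℝ) + 1)) (U : Filter ℕ) (𝓝 0) := by
    refine Tendsto.mono_left ?_ hU
    have h4 := (tendsto_one_div_add_atTop_nhds_zero_nat (𝕜 := ℝ)).const_mul (1 * C)
    rw [mul_zero] at h4
    refine h4.congr (fun X => ?_)
    ring
  have h4 : Tendsto (fun X => avgX X ({x | x * h ∈ A}.indicator (fun _ => (1 : ℝ))) -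
      avgX X (A.indicator (fun _ => (1 : ℝ)))) (U : Filter ℕ) (𝓝 0) := by
    refine squeeze_zero_norm (fun X => ?_) h3
    have h5 := h1 ℝ X (A.indicator (fun _ => (1 : ℝ))) 1 (fun n => by
      rw [Real.norm_eq_abs]
      by_cases hn : n ∈ A
      · rw [Set.indicator_of_mem hn, abs_one]
      · rw [Set.indicator_of_notMem hn, abs_zero]
        exact zero_le_one)
    have h6 : (fun n => A.indicator (fun _ => (1 : ℝ)) (h * n)) =
        {x | x * h ∈ A}.indicator (fun _ => (1 : ℝ)) := by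
      funext n
      simp only [Set.indicator_apply, Set.mem_ofPred_eq, mul_comm n h]
    rw [h6] at h5
    exact h5
  exact sub_eq_zero.1 (tendsto_nhds_unique h2 h4)

/-- linear inequalities between densities -/
lemma dens_lin (U : Ultrafilter ℕ) {ι : Type*} (s : Finset ι) (a : ι → ℝ) (S : ι → Set ℕ) (c : ℝ)
    (h : ∀ n, 0 < n → 0 ≤ c + ∑ i ∈ s, a i * (S i).indicator (fun _ => (1 : ℝ)) n) :
    0 ≤ c + ∑ i ∈ s, a i * dens U (S i) := by
  have h1 : Tendsto (fun X => c + ∑ i ∈ s, a i * avgX X ((S i).indicator (fun _ => (1 : ℝ))))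
      (U : Filter ℕ) (𝓝 (c + ∑ i ∈ s, a i * dens U (S i))) :=
    tendsto_const_nhds.add (tendsto_finsetSum _ fun i _ => (tendsto_dens U (S i)).const_mul _)
  refine ge_of_tendsto' h1 fun X => ?_
  have h2 : c + ∑ i ∈ s, a i * avgX X ((S i).indicator (fun _ => (1 : ℝ))) =
      avgX X (fun n => c + ∑ i ∈ s, a i * (S i).indicator (fun _ => (1 : ℝ)) n) := by
    have h3 : ∀ i, a i * avgX X ((S i).indicator (fun _ => (1 : ℝ))) =
        avgX X (fun n => a i * (S i).indicator (fun _ => (1 : ℝ)) n) := by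
      intro i
      simp only [avgX, smul_eq_mul, Finset.mul_sum]
      exact Finset.sum_congr rfl (fun e _ => by ring)
    rw [avgX_add X (fun _ => c), avgX_const, avgX_sum]
    congr 1
    exact Finset.sum_congr rfl (fun i _ => h3 i)
  rw [h2]
  have h3 := avgX_mono X (f := fun _ => (0 : ℝ))
    (g := fun n => c + ∑ i ∈ s, a i * (S i).indicator (fun _ => (1 : ℝ)) n) h
  rwa [avgX_const] at h3

theorem dens_compl (U : Ultrafilter ℕ) (A : Set ℕ) : dens U Aᶜ = 1 - dens U A := by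
  classical
  have h1 := dens_lin U Finset.univ ![-1, -1] ![A, Aᶜ] 1 (fun n _ => by
    simp only [Fin.sum_univ_two, Matrix.cons_val_zero, Matrix.cons_val_one,
      Set.indicator_apply, Set.mem_compl_iff]
    by_cases h : n ∈ A <;> simp [h])
  have h2 := dens_lin U Finset.univ ![1, 1] ![A, Aᶜ] (-1) (fun n _ => by
    simp only [Fin.sum_univ_two, Matrix.cons_val_zero, Matrix.cons_val_one,
      Set.indicator_apply, Set.mem_compl_iff]
    by_cases h : n ∈ A <;> simp [h])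
  simp only [Fin.sum_univ_two, Matrix.cons_val_zero, Matrix.cons_val_one] at h1 h2
  linarith

theorem dens_union_add_inter (U : Ultrafilter ℕ) (A B : Set ℕ) :
    dens U (A ∪ B) + dens U (A ∩ B) = dens U A + dens U B := by
  classical
  have h1 := dens_lin U Finset.univ ![1, 1, -1, -1] ![A ∪ B, A ∩ B, A, B] 0 (fun n _ => by
    simp only [Fin.sum_univ_four, Matrix.cons_val, Set.indicator_apply, Set.mem_union,
      Set.mem_inter_iff]
    by_cases h : n ∈ A <;> by_cases h' : n ∈ B <;> simp [h, h'])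
  have h2 := dens_lin U Finset.univ ![-1, -1, 1, 1] ![A ∪ B, A ∩ B, A, B] 0 (fun n _ => by
    simp only [Fin.sum_univ_four, Matrix.cons_val, Set.indicator_apply, Set.mem_union,
      Set.mem_inter_iff]
    by_cases h : n ∈ A <;> by_cases h' : n ∈ B <;> simp [h, h'])
  simp only [Fin.sum_univ_four, Matrix.cons_val] at h1 h2
  linarith

/-- `c(m^y) = alpha`: the two correlations with the first term are disjoint -/
theorem av_le (U : Ultrafilter ℕ) (hU : (U : Filter ℕ) ≤ atTop) (A : Set ℕ) (y m : ℕ)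
    (hm : 0 < m) (h : Av A y m) :
    corr U A 1 (m ^ y) + corr U A 1 (m ^ (y * m ^ y)) ≤ dens U A := by
  classical
  have h1 := dens_lin U Finset.univ ![-1, -1, 1] ![{x | x * 1 ∈ A ∧ x * m ^ y ∈ A},
    {x | x * 1 ∈ A ∧ x * m ^ (y * m ^ y) ∈ A}, A] 0 (fun n hn => by
    have h2 := h n hn
    simp only [Fin.sum_univ_three, Matrix.cons_val, Set.indicator_apply, Set.mem_ofPred_eq,
      mul_one]
    by_cases e1 : n ∈ A <;> by_cases e2 : n * m ^ y ∈ A <;>
      by_cases e3 : n * m ^ (y * m ^ y) ∈ A <;> simp [e1, e2, e3] at h2 ⊢)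
  simp only [Fin.sum_univ_three, Matrix.cons_val] at h1
  unfold corr
  linarith

/-- `c(m^y) = beta` -/
theorem av_compl_le (U : Ultrafilter ℕ) (hU : (U : Filter ℕ) ≤ atTop) (A : Set ℕ) (y m : ℕ)
    (hm : 0 < m) (h : Av Aᶜ y m) :
    1 - 3 * dens U A + corr U A 1 (m ^ y) + corr U A 1 (m ^ (y * m ^ y)) ≤ 0 := by
  classical
  have h1 := dens_lin U Finset.univ ![-1, -1, 1, 1, 1] ![{x | x * 1 ∈ A ∧ x * m ^ y ∈ A},
    {x | x * 1 ∈ A ∧ x * m ^ (y * m ^ y) ∈ A}, A, {x | x * m ^ y ∈ A},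
    {x | x * m ^ (y * m ^ y) ∈ A}] (-1) (fun n hn => by
    have h2 := h n hn
    simp only [Set.mem_compl_iff] at h2
    simp only [Fin.sum_univ_five, Matrix.cons_val, Set.indicator_apply, Set.mem_ofPred_eq,
      mul_one]
    by_cases e1 : n ∈ A <;> by_cases e2 : n * m ^ y ∈ A <;>
      by_cases e3 : n * m ^ (y * m ^ y) ∈ A <;> simp [e1, e2, e3] at h2 ⊢)
  simp only [Fin.sum_univ_five, Matrix.cons_val] at h1
  rw [dens_dil U hU A _ (Nat.pow_pos hm), dens_dil U hU A _ (Nat.pow_pos hm)] at h1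
  unfold corr
  linarith

/-- exactness -/
theorem exact3 (U : Ultrafilter ℕ) (hU : (U : Filter ℕ) ≤ atTop) (A : Set ℕ) (y m : ℕ)
    (hm : 0 < m) (h : Av A y m) :
    dens U (Odd3 A y m) = 3 * dens U A - 2 * (corr U A 1 (m ^ y) +
      corr U A 1 (m ^ (y * m ^ y)) + corr U A (m ^ y) (m ^ (y * m ^ y))) := by
  classical
  have h1 := dens_lin U Finset.univ ![1, -1, -1, -1, 2, 2, 2] ![Odd3 A y m, A, {x | x * m ^ y ∈ A},
    {x | x * m ^ (y * m ^ y) ∈ A}, {x | x * 1 ∈ A ∧ x * m ^ y ∈ A},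
    {x | x * 1 ∈ A ∧ x * m ^ (y * m ^ y) ∈ A},
    {x | x * m ^ y ∈ A ∧ x * m ^ (y * m ^ y) ∈ A}] 0 (fun n hn => by
    have h2 := h n hn
    simp only [Fin.sum_univ_seven, Matrix.cons_val, Set.indicator_apply, Set.mem_ofPred_eq,
      mul_one, Odd3]
    by_cases e1 : n ∈ A <;> by_cases e2 : n * m ^ y ∈ A <;>
      by_cases e3 : n * m ^ (y * m ^ y) ∈ A <;> simp [e1, e2, e3, Xor] at h2 ⊢ <;> norm_num)
  have h3 := dens_lin U Finset.univ ![-1, 1, 1, 1, -2, -2, -2] ![Odd3 A y m, A,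
    {x | x * m ^ y ∈ A},
    {x | x * m ^ (y * m ^ y) ∈ A}, {x | x * 1 ∈ A ∧ x * m ^ y ∈ A},
    {x | x * 1 ∈ A ∧ x * m ^ (y * m ^ y) ∈ A},
    {x | x * m ^ y ∈ A ∧ x * m ^ (y * m ^ y) ∈ A}] 0 (fun n hn => by
    have h2 := h n hn
    simp only [Fin.sum_univ_seven, Matrix.cons_val, Set.indicator_apply, Set.mem_ofPred_eq,
      mul_one, Odd3]
    by_cases e1 : n ∈ A <;> by_cases e2 : n * m ^ y ∈ A <;>
      by_cases e3 : n * m ^ (y * m ^ y) ∈ A <;> simp [e1, e2, e3, Xor] at h2 ⊢ <;> norm_num)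
  simp only [Fin.sum_univ_seven, Matrix.cons_val] at h1 h3
  rw [dens_dil U hU A _ (Nat.pow_pos hm), dens_dil U hU A _ (Nat.pow_pos hm)] at h1 h3
  unfold corr
  linarith

theorem dens_pos_of_av (U : Ultrafilter ℕ) (hU : (U : Filter ℕ) ≤ atTop) (A : Set ℕ) (y m : ℕ)
    (hm : 0 < m) (h : Av Aᶜ y m) : 0 < dens U A := by
  have h1 := av_compl_le U hU A y m hm h
  have h2 : 0 ≤ corr U A 1 (m ^ y) := dens_nonneg U _
  have h3 : 0 ≤ corr U A 1 (m ^ (y * m ^ y)) := dens_nonneg U _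
  linarith

end Pool.Agent.TC3
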