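import Pool.Agent.TC3.End

/-!
# The density theorem
-/

set_option autoImplicit false

namespace Pool.Agent.TC3

open Pool.Agent.PPR
open MeasureTheory ProbabilityTheory Filter Topology

lemma avgX_ind (X : ℕ) (A : Set ℕ) :
    avgX X (A.indicator fun _ => (1 : ℝ)) = (((X : ℝ) + 1) ^ (X + 1))⁻¹ *
      (Nat.card {e : Fin (X + 1) → Fin (X + 1) //
        (∏ i : Fin (X + 1), Nat.nth Nat.Prime (i : ℕ) ^ (e i : ℕ)) ∈ A} : ℝ) := by
  classical
  unfold avgX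
  rw [smul_eq_mul]
  congr 1
  rw [Nat.card_eq_fintype_card, Fintype.card_subtype, Finset.card_filter]
  push_cast
  refine Finset.sum_congr rfl fun e _ => ?_
  rw [Set.indicator_apply]
  rfl

/-- a set which meets boundedly many powers of every number and has upper density at least one
half on the exponents of one base contains the pattern -/
theorem density (C : Set ℕ) (Y a₀ : ℕ)
    (hC : ∀ m, 1 < m → ∃ y, 0 < y ∧ y ≤ Y ∧ m ^ y ∈ C)
    (hd : ∀ ε : ℝ, 0 < ε → ∃ᶠ X : ℕ in atTop, (1 / 2 - ε) * ((X : ℝ) + 1) ^ (X + 1) ≤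
      (Nat.card {e : Fin (X + 1) → Fin (X + 1) //
        a₀ ^ (∏ i : Fin (X + 1), Nat.nth Nat.Prime (i : ℕ) ^ (e i : ℕ)) ∈ C} : ℝ)) :
    ∃ z b : ℕ, 0 < z ∧ 1 < b ∧ b ∈ C ∧ a₀ ^ z ∈ C ∧ (a₀ ^ z) ^ b ∈ C ∧
      (a₀ ^ z) ^ (b ^ b) ∈ C := by
  classical
  by_contra hno
  push Not at hno
  set A : Set ℕ := {z | a₀ ^ z ∈ C} with hA
  have h1 : ∀ m, 1 < m → ∃ y, 0 < y ∧ y ≤ Y ∧ Av A y m := by
    intro m hm
    obtain ⟨y, hy0, hyY, hy⟩ := hC m hm
    refine ⟨y, hy0, hyY, fun f hf h => ?_⟩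
    obtain ⟨h2, h3, h4⟩ := h
    refine hno f (m ^ y) hf (Nat.one_lt_pow hy0.ne' hm) hy h2 ?_ ?_
    · rw [← pow_mul]; exact h3
    · rw [← pow_mul, ← pow_mul]; exact h4
  -- an ultrafilter along which the density is at least one half
  let S : ℕ → Set ℕ := fun j => {X | (1 / 2 - 1 / ((j : ℝ) + 1)) ≤
    avgX X (A.indicator fun _ => (1 : ℝ))}
  have hS : ∀ j X0, ∃ X, X0 ≤ X ∧ X ∈ S j := by
    intro j X0
    obtain ⟨X, hX, hX'⟩ := (Filter.frequently_atTop.1 (hd (1 / ((j : ℝ) + 1)) (by positivity))) X0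
    refine ⟨X, hX, ?_⟩
    change (1 / 2 - 1 / ((j : ℝ) + 1)) ≤ avgX X (A.indicator fun _ => (1 : ℝ))
    rw [avgX_ind]
    have h2 : (0 : ℝ) < ((X : ℝ) + 1) ^ (X + 1) := by positivity
    rw [inv_mul_eq_div, le_div_iff₀ h2]
    exact hX'
  choose Xs hXs1 hXs2 using fun j : ℕ => hS j j
  have hXt : Tendsto Xs atTop atTop := tendsto_atTop_mono hXs1 tendsto_id
  obtain ⟨V, hV⟩ : ∃ V : Ultrafilter ℕ, (V : Filter ℕ) ≤ atTop := Ultrafilter.exists_le atTop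
  have hU : ((V.map Xs : Ultrafilter ℕ) : Filter ℕ) ≤ atTop := by
    rw [Ultrafilter.coe_map]
    exact hXt.mono_left hV
  have h2 := lt_half (V.map Xs) hU A Y h1
  have h3 := tendsto_dens (V.map Xs) A
  rw [Ultrafilter.coe_map, Filter.tendsto_map'_iff] at h3
  have h4 : Tendsto (fun j : ℕ => (1 : ℝ) / 2 - 1 / ((j : ℝ) + 1)) (V : Filter ℕ)
      (𝓝 (1 / 2 - 0)) :=
    tendsto_const_nhds.sub (tendsto_one_div_add_atTop_nhds_zero_nat.mono_left hV)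
  have h5 := le_of_tendsto_of_tendsto h4 h3 (Eventually.of_forall fun j => hXs2 j)
  linarith

end Pool.Agent.TC3
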