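import Mathlib

/-!
# Three colours, row HJ: finitary van der Waerden (progressions of length six) and the simultaneous
Dirichlet theorem on the circle
-/

set_option autoImplicit false

namespace Pool.Agent.TC3

open Filter Topology

theorem exists_AP (r : ℕ) : ∃ I : ℕ, ∀ C : ℕ → Fin r, ∃ a b : ℕ, 0 < a ∧ b + 5 * a ≤ I ∧
    ∀ j ≤ 5, C (b + j * a) = C b := by
  classical
  obtain ⟨ι, _inst, hι⟩ := Combinatorics.Line.exists_mono_in_high_dimension (Fin 6) (Fin r)
  refine ⟨5 * Fintype.card ι, fun C => ?_⟩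
  obtain ⟨l, c, hl⟩ := hι fun v => C (∑ i, ((v i : Fin 6) : ℕ))
  set s : Finset ι := {i | l.idxFun i = none} with hs
  set b : ℕ := ∑ i ∈ sᶜ, (((l.idxFun i).getD 0 : Fin 6) : ℕ) with hb
  have key : ∀ x : Fin 6, ∑ i, ((l x i : Fin 6) : ℕ) = b + (x : ℕ) * s.card := by
    intro x
    rw [← Finset.sum_add_sum_compl s, add_comm]
    congr 1
    · apply Finset.sum_congr rfl
      intro i hi
      rw [hs, Finset.compl_filter, Finset.mem_filter] at hi
      obtain ⟨y, hy⟩ := Option.ne_none_iff_exists.mp hi.right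
      rw [Combinatorics.Line.apply_def]
      dsimp only
      rw [← hy]
      rfl
    · rw [mul_comm, ← smul_eq_mul, ← Finset.sum_const]
      apply Finset.sum_congr rfl
      intro i hi
      rw [hs, Finset.mem_filter] at hi
      rw [l.apply_none _ _ hi.right]
  have hc : ∀ x : Fin 6, C (b + (x : ℕ) * s.card) = c := by
    intro x
    rw [← key x]
    exact hl x
  refine ⟨s.card, b, ?_, ?_, ?_⟩
  · apply Finset.card_pos.mpr
    refine ⟨l.proper.choose, ?_⟩
    rw [hs, Finset.mem_filter]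
    exact ⟨Finset.mem_univ _, l.proper.choose_spec⟩
  · have h5 := key 5
    have h5' : ((5 : Fin 6) : ℕ) = 5 := rfl
    rw [h5'] at h5
    rw [← h5]
    calc ∑ i, ((l 5 i : Fin 6) : ℕ) ≤ ∑ _i : ι, 5 :=
          Finset.sum_le_sum fun i _ => by omega
      _ = 5 * Fintype.card ι := by simp [mul_comm]
  · intro j hj
    have h1 := hc ⟨j, by omega⟩
    have h0 := hc 0
    have h0' : b + ((0 : Fin 6) : ℕ) * s.card = b := by simp
    rw [h0'] at h0
    rw [h0]
    exact h1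

theorem dirichlet {ι : Type} [Fintype ι] (ζ : ι → Circle) (δ : ℝ) (hδ : 0 < δ) :
    ∃ a : ℕ, 0 < a ∧ ∀ i, ‖((ζ i ^ a : Circle) : ℂ) - 1‖ ≤ δ := by
  obtain ⟨x, φ, hφ, hx⟩ := CompactSpace.tendsto_subseq (fun n : ℕ => fun i => ζ i ^ n)
  have hcau := (Metric.cauchySeq_iff (α := ι → Circle)).1 hx.cauchySeq
  obtain ⟨N, hN⟩ := hcau δ hδ
  have h1 := hN (N + 1) (by omega) N le_rfl
  have hlt : φ N < φ (N + 1) := hφ (Nat.lt_succ_self N)
  refine ⟨φ (N + 1) - φ N, by omega, fun i => ?_⟩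
  have h2 : dist (ζ i ^ φ (N + 1)) (ζ i ^ φ N) < δ := by
    refine lt_of_le_of_lt ?_ h1
    exact dist_le_pi_dist (fun i => ζ i ^ φ (N + 1)) (fun i => ζ i ^ φ N) i
  have h3 : ‖((ζ i ^ φ (N + 1) : Circle) : ℂ) - ((ζ i ^ φ N : Circle) : ℂ)‖ < δ := by
    rw [← dist_eq_norm]; exact h2
  have h4 : ((ζ i ^ φ (N + 1) : Circle) : ℂ) - ((ζ i ^ φ N : Circle) : ℂ) =
      ((ζ i ^ φ N : Circle) : ℂ) * (((ζ i ^ (φ (N + 1) - φ N) : Circle) : ℂ) - 1) := by
    have e1 : φ (N + 1) = φ N + (φ (N + 1) - φ N) := by omega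
    conv_lhs => rw [e1, pow_add, Circle.coe_mul]
    ring
  rw [h4, norm_mul, Circle.norm_coe, one_mul] at h3
  exact h3.le

end Pool.Agent.TC3
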