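import Pool.Agent.TC3.Defs

/-!
# Three colours: the family of the spectral measures
-/

set_option autoImplicit false

namespace Pool.Agent.TC3

open Pool.Agent.PPR
open MeasureTheory ProbabilityTheory Filter Topology

section

open Pool.Agent.PPR.Spec

theorem exists_spec_atom (U : Ultrafilter ℕ) (hU : (U : Filter ℕ) ≤ atTop) (A : Set ℕ)
    (hA : 0 < dens U A) :
    ∃ s : Measure (ℕ → Circle), IsProbabilityMeasure s ∧
      (∀ h h' : ℕ, 0 < h → 0 < h' →
        ∫ l, (((ext l h' : Circle) : ℂ) * (starRingEnd ℂ) ((ext l h : Circle) : ℂ)) ∂s =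
          ((dens U {x | x * h ∈ A ∧ x * h' ∈ A} / dens U A : ℝ) : ℂ)) ∧
      ENNReal.ofReal (dens U A) ≤ s {1} := by
  have hd := tendsto_dens U A
  have hSn : ∀ X : ℕ, avgX X (A.indicator (fun _ => (1 : ℝ))) =
      (Fintype.card (GX X) : ℝ)⁻¹ * ∑ e : GX X, fA A X e := fun X => avgX_eq X _
  have hev : ∀ c < dens U A, ∀ᶠ X in (U : Filter ℕ),
      c < avgX X (A.indicator (fun _ => (1 : ℝ))) := fun c hc =>
    hd.eventually (eventually_gt_nhds hc)
  have hSpos : ∀ᶠ X in (U : Filter ℕ), 0 < ∑ e : GX X, fA A X e := by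
    filter_upwards [hev 0 hA] with X hX
    rw [hSn] at hX
    exact (pos_iff_pos_of_mul_pos hX).1 (inv_pos.2 card_pos')
  choose sX hsX using exists_sX A
  obtain ⟨s, hs⟩ : ∃ s : ProbabilityMeasure (ℕ → Circle), Tendsto sX (U : Filter ℕ) (𝓝 s) :=
    ⟨(U.map sX).lim, Ultrafilter.le_nhds_lim (U.map sX)⟩
  refine ⟨(s : Measure (ℕ → Circle)), inferInstance, ?_, ?_⟩
  · intro h h' hh hh'
    have h1 := (ProbabilityMeasure.tendsto_iff_forall_integral_rclike_tendsto ℂ).1 hs
      (BoundedContinuousFunction.mkOfCompact ⟨Ph h h', continuous_Ph h h'⟩)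
    have h2 : Tendsto (fun X => ((((Fintype.card (GX X) : ℝ)⁻¹ *
        (∑ e : GX X, fA A X (e + ev X h) * fA A X (e + ev X h'))) /
          avgX X (A.indicator (fun _ => (1 : ℝ))) : ℝ) : ℂ)) (U : Filter ℕ)
        (𝓝 ((dens U {x | x * h ∈ A ∧ x * h' ∈ A} / dens U A : ℝ) : ℂ)) :=
      (Complex.continuous_ofReal.tendsto _).comp ((tendsto_corr U hU A hh hh').div hd hA.ne')
    have h3 : Tendsto (fun X => ((((Fintype.card (GX X) : ℝ)⁻¹ *
        (∑ e : GX X, fA A X (e + ev X h) * fA A X (e + ev X h'))) /
          avgX X (A.indicator (fun _ => (1 : ℝ))) : ℝ) : ℂ)) (U : Filter ℕ)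
        (𝓝 (∫ l, Ph h h' l ∂(s : Measure (ℕ → Circle)))) := by
      refine Tendsto.congr' ?_ h1
      have h4 : ∀ᶠ X in (U : Filter ℕ), max h h' ≤ X := hU (eventually_ge_atTop _)
      filter_upwards [hSpos, h4] with X hS hX
      have h5 : ∫ l, (BoundedContinuousFunction.mkOfCompact
          (⟨Ph h h', continuous_Ph h h'⟩ : C((ℕ → Circle), ℂ))) l
            ∂((sX X : ProbabilityMeasure (ℕ → Circle)) : Measure (ℕ → Circle)) =
          ∫ l, Ph h h' l ∂(sm (fA A X)) := by
        rw [hsX X hS]; rfl
      rw [h5, corr_sm _ hS ((le_max_left _ _).trans hX) ((le_max_right _ _).trans hX) hh hh', hSn]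
      congr 1
      have hn := (card_pos' (X := X)).ne'
      field_simp
    exact tendsto_nhds_unique h3 h2
  · have hset : {l : ℕ → Circle | ∀ p, l p = 1} = {1} := by
      ext l
      simp only [Set.mem_ofPred_eq, Set.mem_singleton_iff]
      exact ⟨fun h => funext h, fun h p => by rw [h]; rfl⟩
    have h1 := ProbabilityMeasure.limsup_measure_closed_le_of_tendsto hs
      (isClosed_singleton (x := (1 : ℕ → Circle)))
    refine le_trans ?_ h1
    have h2 : ∀ c < dens U A, ENNReal.ofReal c ≤ limsup (fun X =>
        ((sX X : ProbabilityMeasure (ℕ → Circle)) : Measure (ℕ → Circle)) {1})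
          (U : Filter ℕ) := by
      intro c hc
      refine le_limsup_of_frequently_le ?_ ?_
      · refine Eventually.frequently ?_
        filter_upwards [hev c hc, hSpos] with X hX hS
        rw [hsX X hS, ← hset]
        refine le_trans ?_ (sm_one _ hS)
        refine ENNReal.ofReal_le_ofReal ?_
        rw [hSn] at hX
        rw [div_eq_inv_mul (∑ e : GX X, fA A X e)]
        exact hX.le
      · isBoundedDefault
    refine le_of_forall_lt fun b hb => ?_
    obtain ⟨c, hc0, hc1⟩ := exists_between hb
    have hcne : c ≠ ⊤ := (lt_of_lt_of_le hc1 le_top).ne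
    have h3 : c.toReal < dens U A := by
      rw [← ENNReal.ofReal_toReal hcne] at hc1
      exact (ENNReal.ofReal_lt_ofReal_iff hA).1 hc1
    have h4 := h2 _ h3
    rw [ENNReal.ofReal_toReal hcne] at h4
    exact lt_of_lt_of_le hc0 h4

end

/-- the projection to the prime coordinates -/
noncomputable def prj (l : ℕ → Circle) : ℕ → Circle := by
  classical
  exact fun p => if p.Prime then l p else 1

/-- the powers -/
noncomputable def pwl (y : ℕ) (l : ℕ → Circle) : ℕ → Circle := fun p => l p ^ y

theorem measurable_prj : Measurable prj := by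
  classical
  refine measurable_pi_iff.2 fun p => ?_
  by_cases hp : p.Prime
  · have h : (fun l : ℕ → Circle => prj l p) = fun l => l p := by
      funext l
      simp only [prj, if_pos hp]
    rw [h]
    exact measurable_pi_apply p
  · have h : (fun l : ℕ → Circle => prj l p) = fun _ => 1 := by
      funext l
      simp only [prj, if_neg hp]
    rw [h]
    exact measurable_const

theorem continuous_pwl (y : ℕ) : Continuous (pwl y) :=
  continuous_pi fun p => (continuous_apply p).pow y

theorem measurable_pwl (y : ℕ) : Measurable (pwl y) := by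
  refine measurable_pi_iff.2 fun p => ?_
  have h : Continuous fun z : Circle => z ^ y := continuous_pow y
  exact h.measurable.comp (measurable_pi_apply p)

theorem ext_prj (l : ℕ → Circle) (n : ℕ) : ext (prj l) n = ext l n := by
  classical
  unfold ext Finsupp.prod
  refine Finset.prod_congr rfl fun p hp => ?_
  rw [Nat.support_factorization] at hp
  simp only [prj, if_pos (Nat.prime_of_mem_primeFactors hp)]

theorem ext_pwl' (l : ℕ → Circle) (y n : ℕ) : ext (pwl y l) n = ext l n ^ y := by
  unfold ext Finsupp.prod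
  rw [← Finset.prod_pow]
  refine Finset.prod_congr rfl fun p _ => ?_
  simp only [pwl]
  rw [← pow_mul, ← pow_mul, mul_comm]

theorem ext_pow' (l : ℕ → Circle) (n y : ℕ) : ext l (n ^ y) = ext l n ^ y := by
  unfold ext
  rw [Nat.factorization_pow]
  by_cases hy : y = 0
  · subst hy
    simp
  · have h1 : (y • n.factorization).support = n.factorization.support := by
      ext p
      simp [hy]
    rw [Finsupp.prod, Finsupp.prod, h1, ← Finset.prod_pow]
    refine Finset.prod_congr rfl fun p _ => ?_
    rw [Finsupp.smul_apply, smul_eq_mul, ← pow_mul, mul_comm]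

theorem ext_one' (l : ℕ → Circle) : ext l 1 = 1 := by
  unfold ext
  simp

theorem measurable_ext' (n : ℕ) : Measurable (fun l : ℕ → Circle => ((ext l n : Circle) : ℂ)) := by
  have h1 : Continuous (fun l : ℕ → Circle => ext l n) := by
    unfold ext Finsupp.prod
    exact continuous_finsetProd _ fun p _ => (continuous_apply p).pow _
  exact (continuous_coeC.comp h1).measurable

/-- the family of the spectral measures -/
theorem exists_specFam (U : Ultrafilter ℕ) (hU : (U : Filter ℕ) ≤ atTop) (A : Set ℕ)
    (hA : 0 < dens U A) : ∃ σ : ℕ → Measure (ℕ → Circle), SpecFam U A σ := by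
  classical
  obtain ⟨s, hs, hcorr, hatom⟩ := exists_spec_atom U hU A hA
  have hme : ∀ y, Measurable (fun l : ℕ → Circle => pwl y (prj l)) := fun y =>
    (measurable_pwl y).comp measurable_prj
  have hint : ∀ (y : ℕ) (g : (ℕ → Circle) → ℂ), Measurable g →
      ∫ l, g l ∂(s.map fun l => pwl y (prj l)) = ∫ l, g (pwl y (prj l)) ∂s := fun y g hg =>
    integral_map (hme y).aemeasurable hg.aestronglyMeasurable
  have hE : ∀ y m : ℕ, ∀ l : ℕ → Circle, ext (pwl y (prj l)) m = ext l (m ^ y) := by
    intro y m l
    rw [ext_pwl', ext_prj, ext_pow']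
  refine ⟨fun y => s.map fun l => pwl y (prj l), ?_, ?_, ?_, ?_, ?_, ?_, ?_⟩
  · intro y _
    exact Measure.isProbabilityMeasure_map (hme y).aemeasurable
  · intro y _
    rw [ae_all_iff]
    intro p
    rw [ae_iff]
    rw [Measure.map_apply (hme y)]
    · have h1 : (fun l : ℕ → Circle => pwl y (prj l)) ⁻¹' {l | ¬ (¬ p.Prime → l p = 1)} = ∅ := by
        ext l
        simp only [Set.mem_preimage, Set.mem_ofPred_eq, Set.mem_empty_iff_false, iff_false,
          not_not]
        intro hp
        simp only [pwl, prj, if_neg hp, one_pow]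
      rw [h1, measure_empty]
    · by_cases hp : p.Prime
      · have h1 : {l : ℕ → Circle | ¬ (¬ p.Prime → l p = 1)} = ∅ := by
          ext l
          simp [hp]
        rw [h1]
        exact MeasurableSet.empty
      · have h1 : {l : ℕ → Circle | ¬ (¬ p.Prime → l p = 1)} = {l | l p = 1}ᶜ := by
          ext l
          simp [hp]
        rw [h1]
        exact ((isClosed_singleton (x := (1 : Circle))).measurableSet.preimage
          (measurable_pi_apply p)).compl
  · intro y _
    have h1 : s {1} ≤ (s.map fun l => pwl y (prj l)) {1} := by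
      rw [Measure.map_apply (hme y) (isClosed_singleton (x := (1 : ℕ → Circle))).measurableSet]
      refine measure_mono ?_
      intro l hl
      rw [Set.mem_singleton_iff] at hl
      rw [Set.mem_preimage, Set.mem_singleton_iff, hl]
      funext p
      by_cases hp : p.Prime
      · simp [pwl, prj, hp]
      · simp [pwl, prj, hp]
    have hp1 : IsProbabilityMeasure (s.map fun l => pwl y (prj l)) :=
      Measure.isProbabilityMeasure_map (hme y).aemeasurable
    have h2 := hatom.trans h1
    rw [Measure.real]
    rw [← ENNReal.ofReal_le_iff_le_toReal (measure_ne_top _ _)]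
    exact h2
  · intro y m _ hm
    rw [hint y _ (measurable_ext' m)]
    have h1 := hcorr 1 (m ^ y) one_pos (pow_pos hm y)
    rw [corr, ← h1]
    refine integral_congr_ae (Eventually.of_forall fun l => ?_)
    simp only [hE, ext_one', Circle.coe_one, map_one, mul_one]
  · intro y m _ hm
    rw [hint y _]
    · have h1 := hcorr 1 (m ^ (y * m ^ y)) one_pos (pow_pos hm _)
      rw [corr, ← h1]
      refine integral_congr_ae (Eventually.of_forall fun l => ?_)
      simp only [hE, ext_one', Circle.coe_one, map_one, mul_one]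
      rw [← ext_pow', ← pow_mul]
    · simp only [Circle.coe_pow]
      exact (measurable_ext' m).pow_const _
  · intro y m _ hm
    rw [hint y _]
    · have h1 := hcorr (m ^ y) (m ^ (y * m ^ y)) (pow_pos hm y) (pow_pos hm _)
      rw [corr, ← h1]
      refine integral_congr_ae (Eventually.of_forall fun l => ?_)
      simp only [hE]
      have h2 : ext l (m ^ (y * m ^ y)) = ext l (m ^ y) ^ (m ^ y - 1) * ext l (m ^ y) := by
        rw [pow_mul, ext_pow', ← pow_succ, Nat.sub_add_cancel (pow_pos hm y)]
      rw [h2]
      have h3 : (starRingEnd ℂ) ((ext l (m ^ y) : Circle) : ℂ) =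
          (((ext l (m ^ y))⁻¹ : Circle) : ℂ) := (Circle.coe_inv_eq_conj _).symm
      rw [h3, ← Circle.coe_mul, mul_assoc, mul_inv_cancel, mul_one]
    · simp only [Circle.coe_pow]
      exact (measurable_ext' m).pow_const _
  · intro y N _ _
    have h1 : (fun (l : ℕ → Circle) (p : ℕ) => l p ^ N) = pwl N := rfl
    rw [h1, Measure.map_map (measurable_pwl N) (hme y)]
    congr 1
    funext l p
    simp only [Function.comp, pwl, ← pow_mul]

end Pool.Agent.TC3
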