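import Pool.Agent.TC3.Gen
import Pool.Agent.TC3.SpecA
import Pool.Agent.TC3.Dens

/-!
# Three colours: the density is at most one half
-/

set_option autoImplicit false

namespace Pool.Agent.TC3

open Pool.Agent.PPR
open MeasureTheory ProbabilityTheory Filter Topology

theorem half_le (U : Ultrafilter ℕ) (hU : (U : Filter ℕ) ≤ atTop) (A : Set ℕ) (Y : ℕ)
    (h1 : ∀ m, 1 < m → ∃ y, 0 < y ∧ y ≤ Y ∧ Av A y m) (hA : 0 < dens U A) :
    dens U A ≤ 1 / 2 := by
  obtain ⟨σ, hσ⟩ := exists_specFam U hU A hA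
  have key : ∀ ε : ℝ, 0 < ε → 2 * dens U A ≤ 1 + 2 * ε := by
    intro ε hε
    obtain ⟨n, hn, -, -, hlin, hco⟩ := gen U A σ hσ Y 0 1 one_pos {1} (by simp)
      (ι := Empty) (fun i => i.elim) (fun i => i.elim) ε hε
    have hco' := (hco 1 (by simp)).1
    simp only [one_mul] at hco'
    obtain ⟨y, hy0, hyY, hy⟩ := h1 n hn
    have e1 := hlin y hy0 hyY
    have e2 := (hco' y hy0 hyY).1
    have e3 := hσ.atom y hy0
    have e4 := av_le U hU A y n (by omega) hy
    have e5 : corr U A 1 (n ^ y) / dens U A + corr U A 1 (n ^ (y * n ^ y)) / dens U A ≤ 1 := by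
      rw [← add_div, div_le_one hA]
      exact e4
    linarith
  by_contra hc
  push Not at hc
  have := key ((2 * dens U A - 1) / 4) (by linarith)
  linarith

end Pool.Agent.TC3
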