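import Pool.Agent.TC3.Alg
import Pool.Agent.TC3.Dens

/-!
# The functions of the index and of the exponent modulo null functions
-/

set_option autoImplicit false

namespace Pool.Agent.TC3

open Pool.Agent.PPR
open MeasureTheory ProbabilityTheory Filter Topology

/-- functions of the index and the exponent -/
abbrev Fn2 := ℕ → ℕ → ZMod 2

/-- the monoid of the shifts -/
abbrev SG := ℕ → ℕ+

/-- the shift -/
def sh (h : SG) : Fn2 →ₗ[ZMod 2] Fn2 where
  toFun w i x := w i (x * (h i : ℕ))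
  map_add' _ _ := rfl
  map_smul' _ _ := rfl

lemma sh_apply (h : SG) (w : Fn2) (i x : ℕ) : sh h w i x = w i (x * (h i : ℕ)) := rfl

/-- the action of the monoid of the shifts -/
def shHom : SG →* Module.End (ZMod 2) Fn2 where
  toFun := sh
  map_one' := by
    refine LinearMap.ext fun w => ?_
    funext i x
    show w i (x * ((1 : ℕ+) : ℕ)) = w i x
    rw [PNat.one_coe, mul_one]
  map_mul' h h' := by
    refine LinearMap.ext fun w => ?_
    funext i x
    show w i (x * ((h i * h' i : ℕ+) : ℕ)) = w i (x * (h i : ℕ) * (h' i : ℕ))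
    rw [PNat.mul_coe, mul_assoc]

/-- the action of the monoid algebra -/
noncomputable def act : MonoidAlgebra (ZMod 2) SG →ₐ[ZMod 2] Module.End (ZMod 2) Fn2 :=
  MonoidAlgebra.lift (ZMod 2) (Module.End (ZMod 2) Fn2) SG shHom

lemma act_of (h : SG) : act (MonoidAlgebra.of (ZMod 2) SG h) = sh h := by
  rw [act, MonoidAlgebra.lift_of]
  rfl

section null

variable (U : Ultrafilter ℕ) (hU : (U : Filter ℕ) ≤ atTop) (V : Ultrafilter ℕ)

/-- the null functions -/
def NL : Submodule (ZMod 2) Fn2 where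
  carrier := {w | Tendsto (fun i => dens U {x | w i x ≠ 0}) (V : Filter ℕ) (𝓝 0)}
  add_mem' := by
    intro w w' hw hw'
    have h := Tendsto.add hw hw'
    rw [add_zero] at h
    refine tendsto_of_tendsto_of_tendsto_of_le_of_le tendsto_const_nhds h
      (fun i => dens_nonneg U _) (fun i => ?_)
    have h1 : {x | (w + w') i x ≠ 0} ⊆ {x | w i x ≠ 0} ∪ {x | w' i x ≠ 0} := by
      intro x hx
      by_contra hcon
      simp only [Set.mem_union, Set.mem_ofPred_eq, not_or, not_not] at hcon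
      apply hx
      show w i x + w' i x = 0
      rw [hcon.1, hcon.2, add_zero]
    have h2 := dens_union_add_inter U {x | w i x ≠ 0} {x | w' i x ≠ 0}
    have h3 := dens_nonneg U ({x | w i x ≠ 0} ∩ {x | w' i x ≠ 0})
    have h4 := dens_mono U (A := {x | (w + w') i x ≠ 0})
      (B := {x | w i x ≠ 0} ∪ {x | w' i x ≠ 0}) (fun n _ hn => h1 hn)
    show dens U {x | (w + w') i x ≠ 0} ≤ dens U {x | w i x ≠ 0} + dens U {x | w' i x ≠ 0}
    linarith
  zero_mem' := by
    have h : ∀ i, dens U {x | (0 : Fn2) i x ≠ 0} = 0 := by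
      intro i
      have h1 : {x | (0 : Fn2) i x ≠ 0} = (Set.univ : Set ℕ)ᶜ := by
        ext x
        simp
      rw [h1, dens_compl, dens_univ, sub_self]
    show Tendsto (fun i => dens U {x | (0 : Fn2) i x ≠ 0}) (V : Filter ℕ) (𝓝 0)
    simp only [h]
    exact tendsto_const_nhds
  smul_mem' := by
    intro c w hw
    refine tendsto_of_tendsto_of_tendsto_of_le_of_le tendsto_const_nhds hw
      (fun i => dens_nonneg U _) (fun i => ?_)
    refine dens_mono U fun x _ hx h0 => hx ?_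
    show c • w i x = 0
    rw [h0, smul_zero]

lemma mem_NL {w : Fn2} :
    w ∈ NL U V ↔ Tendsto (fun i => dens U {x | w i x ≠ 0}) (V : Filter ℕ) (𝓝 0) := Iff.rfl

include hU

lemma sh_mem_iff (h : SG) (w : Fn2) : sh h w ∈ NL U V ↔ w ∈ NL U V := by
  rw [mem_NL, mem_NL]
  have h1 : (fun i => dens U {x | sh h w i x ≠ 0}) = fun i => dens U {x | w i x ≠ 0} := by
    funext i
    exact dens_dil U hU {x | w i x ≠ 0} (h i) (h i).pos
  rw [h1]

lemma act_mem (r : MonoidAlgebra (ZMod 2) SG) {w : Fn2} (hw : w ∈ NL U V) :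
    act r w ∈ NL U V := by
  induction r using MonoidAlgebra.induction_on with
  | of h =>
    rw [act_of]
    exact (sh_mem_iff U hU V h w).2 hw
  | add f g hf hg =>
    rw [map_add, LinearMap.add_apply]
    exact Submodule.add_mem _ hf hg
  | smul c f hf =>
    rw [map_smul, LinearMap.smul_apply]
    exact Submodule.smul_mem _ c hf

/-- the annihilator of a function modulo the null functions -/
noncomputable def Annih (w : Fn2) : Ideal (MonoidAlgebra (ZMod 2) SG) where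
  carrier := {r | act r w ∈ NL U V}
  add_mem' := by
    intro a b ha hb
    show act (a + b) w ∈ NL U V
    rw [map_add, LinearMap.add_apply]
    exact Submodule.add_mem _ ha hb
  zero_mem' := by
    show act 0 w ∈ NL U V
    rw [map_zero, LinearMap.zero_apply]
    exact Submodule.zero_mem _
  smul_mem' := by
    intro c r hr
    show act (c * r) w ∈ NL U V
    rw [map_mul]
    exact act_mem U hU V c hr

lemma mem_Annih {w : Fn2} {r : MonoidAlgebra (ZMod 2) SG} :
    r ∈ Annih U hU V w ↔ act r w ∈ NL U V := Iff.rfl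

lemma cancel (w : Fn2) (h : SG) (x : MonoidAlgebra (ZMod 2) SG ⧸ Annih U hU V w)
    (hx : Ideal.Quotient.mk (Annih U hU V w) (MonoidAlgebra.of (ZMod 2) SG h) * x = 0) : x = 0 := by
  obtain ⟨r, rfl⟩ := Ideal.Quotient.mk_surjective x
  rw [← map_mul, Ideal.Quotient.eq_zero_iff_mem, mem_Annih, map_mul, act_of] at hx
  rw [Ideal.Quotient.eq_zero_iff_mem, mem_Annih]
  exact (sh_mem_iff U hU V h _).1 hx

/-- the class of a shift -/
noncomputable def cl (w : Fn2) : SG →* MonoidAlgebra (ZMod 2) SG ⧸ Annih U hU V w :=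
  (Ideal.Quotient.mk (Annih U hU V w) : _ →* _).comp (MonoidAlgebra.of (ZMod 2) SG)

lemma cl_apply (w : Fn2) (h : SG) :
    cl U hU V w h = Ideal.Quotient.mk (Annih U hU V w) (MonoidAlgebra.of (ZMod 2) SG h) := rfl

lemma rel2 (w : Fn2) (h : SG) :
    1 + cl U hU V w h = 0 ↔ w + sh h w ∈ NL U V := by
  rw [cl_apply, ← map_one (Ideal.Quotient.mk (Annih U hU V w)), ← map_add,
    Ideal.Quotient.eq_zero_iff_mem, mem_Annih, map_add, LinearMap.add_apply, act_of, map_one]
  rfl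

lemma rel3 (w : Fn2) (h h' : SG) :
    1 + cl U hU V w h + cl U hU V w h' = 0 ↔ w + sh h w + sh h' w ∈ NL U V := by
  rw [cl_apply, cl_apply, ← map_one (Ideal.Quotient.mk (Annih U hU V w)), ← map_add, ← map_add,
    Ideal.Quotient.eq_zero_iff_mem, mem_Annih, map_add, map_add, LinearMap.add_apply,
    LinearMap.add_apply, act_of, act_of, map_one]
  rfl

end null

/-- the indicator function of `A` with values in `ZMod 2` -/
noncomputable def ind (A : Set ℕ) : Fn2 := by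
  classical
  exact fun _ x => if x ∈ A then 1 else 0

lemma ind_of_mem {A : Set ℕ} {x : ℕ} (h : x ∈ A) (i : ℕ) : ind A i x = 1 := by
  classical
  simp only [ind]
  exact if_pos h

lemma ind_of_notMem {A : Set ℕ} {x : ℕ} (h : x ∉ A) (i : ℕ) : ind A i x = 0 := by
  classical
  simp only [ind]
  exact if_neg h

lemma ind2 (A : Set ℕ) (i x x' : ℕ) : ind A i x + ind A i x' ≠ 0 ↔ ¬ (x ∈ A ↔ x' ∈ A) := by
  by_cases h : x ∈ A
  · by_cases h' : x' ∈ A
    · rw [ind_of_mem h, ind_of_mem h']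
      simp only [h, h', not_true_eq_false, iff_false, not_not]
      decide
    · rw [ind_of_mem h, ind_of_notMem h']
      simp only [h, h']
      decide
  · by_cases h' : x' ∈ A
    · rw [ind_of_notMem h, ind_of_mem h']
      simp only [h, h']
      decide
    · rw [ind_of_notMem h, ind_of_notMem h']
      simp only [h, h']
      decide

lemma ind3 (A : Set ℕ) (i x x' x'' : ℕ) : ind A i x + ind A i x' + ind A i x'' ≠ 0 ↔
    Xor (x ∈ A) (Xor (x' ∈ A) (x'' ∈ A)) := by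
  have h01 : (1 : ZMod 2) ≠ 0 := by decide
  by_cases h : x ∈ A <;> by_cases h' : x' ∈ A <;> by_cases h'' : x'' ∈ A <;>
    simp only [h, h', h'', ind_of_mem, ind_of_notMem, Xor, not_true_eq_false, not_false_eq_true,
      and_true, and_false, or_false, false_or, or_self, and_self,
      ne_eq] <;> decide

/-- the sets of invariance: if `A` is invariant under `q ^ P` up to a null set, then it is
invariant under `q ^ (P * k)` -/
lemma inv_pow (U : Ultrafilter ℕ) (hU : (U : Filter ℕ) ≤ atTop) (A : Set ℕ) (a : ℕ) (ha : 0 < a)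
    (h : dens U {x | ¬ (x ∈ A ↔ x * a ∈ A)} = 0) (k : ℕ) :
    dens U {x | ¬ (x ∈ A ↔ x * a ^ k ∈ A)} = 0 := by
  induction k with
  | zero =>
    have h1 : {x | ¬ (x ∈ A ↔ x * a ^ 0 ∈ A)} = (Set.univ : Set ℕ)ᶜ := by
      ext x
      simp
    rw [h1, dens_compl, dens_univ, sub_self]
  | succ k ih =>
    have h1 : {x | ¬ (x ∈ A ↔ x * a ^ (k + 1) ∈ A)} ⊆ {x | ¬ (x ∈ A ↔ x * a ^ k ∈ A)} ∪
        {x | x * a ^ k ∈ {x | ¬ (x ∈ A ↔ x * a ∈ A)}} := by
      intro x hx
      by_contra hcon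
      simp only [Set.mem_union, Set.mem_ofPred_eq, not_or, not_not] at hcon
      apply hx
      rw [hcon.1, hcon.2, pow_succ, mul_assoc]
    have h2 := dens_union_add_inter U {x | ¬ (x ∈ A ↔ x * a ^ k ∈ A)}
      {x | x * a ^ k ∈ {x | ¬ (x ∈ A ↔ x * a ∈ A)}}
    have h3 := dens_nonneg U ({x | ¬ (x ∈ A ↔ x * a ^ k ∈ A)} ∩
      {x | x * a ^ k ∈ {x | ¬ (x ∈ A ↔ x * a ∈ A)}})
    have h4 := dens_mono U (A := {x | ¬ (x ∈ A ↔ x * a ^ (k + 1) ∈ A)})
      (B := {x | ¬ (x ∈ A ↔ x * a ^ k ∈ A)} ∪ {x | x * a ^ k ∈ {x | ¬ (x ∈ A ↔ x * a ∈ A)}})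
      (fun n _ hn => h1 hn)
    have h5 := dens_dil U hU {x | ¬ (x ∈ A ↔ x * a ∈ A)} (a ^ k) (pow_pos ha k)
    have h6 := dens_nonneg U {x | ¬ (x ∈ A ↔ x * a ^ (k + 1) ∈ A)}
    rw [h] at h5
    linarith

theorem mod_main (U : Ultrafilter ℕ) (hU : (U : Filter ℕ) ≤ atTop) (V : Ultrafilter ℕ)
    (A : Set ℕ) (n : ℕ → ℕ) (hn : ∀ i, 0 < n i) (y g q e : ℕ) (hy : 0 < y) (he : 0 < e)
    (hq : q = 2 ^ e) (hg : g ^ y = q) (hdvd : ∀ i, PP q ∣ (n i) ^ y)
    (hE : ∀ j ≤ 5, Tendsto (fun i => dens U (Odd3 A y (n i * g ^ j))) (V : Filter ℕ) (𝓝 0)) :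
    Tendsto (fun i => dens U {x | ¬ (x ∈ A ↔ x * (n i) ^ (y * NN q) ∈ A)}) (V : Filter ℕ)
      (𝓝 0) := by
  have hq0 : 0 < q := by
    rw [hq]
    positivity
  obtain ⟨n', hn'⟩ : ∃ n' : SG, ∀ i, (n' i : ℕ) = n i := ⟨fun i => ⟨n i, hn i⟩, fun i => rfl⟩
  obtain ⟨q', hq'⟩ : ∃ q' : ℕ+, (q' : ℕ) = q := ⟨⟨q, hq0⟩, rfl⟩
  obtain ⟨w, hw⟩ : ∃ w, w = ind A := ⟨_, rfl⟩
  obtain ⟨X, hX⟩ : ∃ X : SG, ∀ i, (X i : ℕ) = n i ^ y := ⟨fun i => n' i ^ y, fun i => by
    rw [PNat.pow_coe, hn']⟩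
  obtain ⟨lam, hlam⟩ : ∃ lam : SG, ∀ i, (lam i : ℕ) = q := ⟨fun _ => q', fun i => hq'⟩
  obtain ⟨Z, hZ⟩ : ∃ Z : SG, ∀ i, (Z i : ℕ) = n i ^ (y * n i ^ y) :=
    ⟨fun i => n' i ^ (y * n i ^ y), fun i => by rw [PNat.pow_coe, hn']⟩
  obtain ⟨T, hT⟩ : ∃ T : SG, ∀ i, (T i : ℕ) = q ^ (n i ^ y) :=
    ⟨fun i => q' ^ (n i ^ y), fun i => by rw [PNat.pow_coe, hq']⟩
  have hPP : PP q = 4 * ((q ^ 2 - 1) * q ^ 2 * (2 * q - 1)) := by
    rw [PP]
    ring
  -- the conclusion from a relation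
  have hconc : ∀ (h : SG), 1 + cl U hU V w h = 0 ↔ Tendsto (fun i => dens U
      {x | ¬ (x ∈ A ↔ x * (h i : ℕ) ∈ A)}) (V : Filter ℕ) (𝓝 0) := by
    intro h
    rw [rel2, mem_NL]
    have h1 : (fun i => dens U {x | (w + sh h w) i x ≠ 0}) = fun i => dens U
        {x | ¬ (x ∈ A ↔ x * (h i : ℕ) ∈ A)} := by
      funext i
      congr 1
      ext x
      rw [hw]
      exact ind2 A i x (x * (h i : ℕ))
    rw [h1]
  have hE' : ∀ j ≤ 5, 1 + cl U hU V w lam ^ j * cl U hU V w X +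
      cl U hU V w Z ^ q ^ j * cl U hU V w T ^ (j * q ^ j) = 0 := by
    intro j hj
    rw [← map_pow, ← map_mul, ← map_pow, ← map_pow, ← map_mul, rel3, mem_NL]
    have h1 : (fun i => dens U {x | (w + sh (lam ^ j * X) w +
        sh (Z ^ q ^ j * T ^ (j * q ^ j)) w) i x ≠ 0}) = fun i => dens U
        (Odd3 A y (n i * g ^ j)) := by
      funext i
      congr 1
      ext x
      rw [hw]
      have a1 : ((lam ^ j * X) i : ℕ) = (n i * g ^ j) ^ y := by
        rw [Pi.mul_apply, Pi.pow_apply, PNat.mul_coe, PNat.pow_coe, hlam, hX, mul_pow, ← pow_mul,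
          mul_comm j y, pow_mul, hg, mul_comm]
      have a2 : ((Z ^ q ^ j * T ^ (j * q ^ j)) i : ℕ) =
          (n i * g ^ j) ^ (y * (n i * g ^ j) ^ y) := by
        rw [Pi.mul_apply, Pi.pow_apply, Pi.pow_apply, PNat.mul_coe, PNat.pow_coe, PNat.pow_coe,
          hZ, hT]
        have b1 : (n i * g ^ j) ^ y = n i ^ y * q ^ j := by
          rw [mul_pow, ← pow_mul, mul_comm j y, pow_mul, hg]
        rw [pow_mul (n i * g ^ j) y, b1, mul_pow, ← pow_mul, ← pow_mul, ← pow_mul, ← pow_mul]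
        congr 1
        · congr 1
          ring
        · congr 1
          ring
      show ind A i x + ind A i (x * ((lam ^ j * X) i : ℕ)) +
        ind A i (x * ((Z ^ q ^ j * T ^ (j * q ^ j)) i : ℕ)) ≠ 0 ↔ _
      rw [a1, a2]
      exact ind3 A i x _ _
    rw [h1]
    exact hE j hj
  -- the case of a trivial ring
  by_cases htriv : Annih U hU V w = ⊤
  · have h1 : 1 + cl U hU V w (X ^ NN q) = 0 := by
      have h2 : Subsingleton (MonoidAlgebra (ZMod 2) SG ⧸ Annih U hU V w) :=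
        Ideal.Quotient.subsingleton_iff.2 htriv
      exact Subsingleton.elim _ _
    have h2 := (hconc _).1 h1
    refine h2.congr fun i => ?_
    rw [Pi.pow_apply, PNat.pow_coe, hX, ← pow_mul]
  have hnt : Nontrivial (MonoidAlgebra (ZMod 2) SG ⧸ Annih U hU V w) :=
    Ideal.Quotient.nontrivial_iff.2 htriv
  have hchar : CharP (MonoidAlgebra (ZMod 2) SG ⧸ Annih U hU V w) 2 :=
    charP_of_injective_algebraMap
      (algebraMap (ZMod 2) (MonoidAlgebra (ZMod 2) SG ⧸ Annih U hU V w)).injective 2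
  have hTone : cl U hU V w lam ^ (4 * ((q ^ 2 - 1) * q ^ 2 * (2 * q - 1))) = 1 →
      cl U hU V w T = 1 := by
    intro h1
    rw [← hPP, ← map_pow] at h1
    have h2 : 1 + cl U hU V w (lam ^ PP q) = 0 := by
      rw [h1]
      exact CharTwo.add_self_eq_zero _
    have h3 := (hconc _).1 h2
    have h4 : (fun i => dens U {x | ¬ (x ∈ A ↔ x * (((lam ^ PP q) i : ℕ+) : ℕ) ∈ A)}) =
        fun _ => dens U {x | ¬ (x ∈ A ↔ x * q ^ PP q ∈ A)} := by
      funext i
      rw [Pi.pow_apply, PNat.pow_coe, hlam]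
    rw [h4] at h3
    have h5 : dens U {x | ¬ (x ∈ A ↔ x * q ^ PP q ∈ A)} = 0 :=
      tendsto_nhds_unique tendsto_const_nhds h3
    have h6 : 1 + cl U hU V w T = 0 := by
      rw [hconc]
      have h7 : (fun i => dens U {x | ¬ (x ∈ A ↔ x * (T i : ℕ) ∈ A)}) = fun _ => 0 := by
        funext i
        obtain ⟨k, hk⟩ := hdvd i
        rw [hT, hk, pow_mul]
        exact inv_pow U hU A (q ^ PP q) (pow_pos hq0 _) h5 k
      rw [h7]
      exact tendsto_const_nhds
    exact c2_eq h6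
  have hmain := (alg_end hq he (cl U hU V w lam) (cl U hU V w X) (cl U hU V w Z)
    (cl U hU V w T) (fun x hx => cancel U hU V w lam x hx)
    (fun x hx => cancel U hU V w X x hx) hTone hE').2
  have h1 : 1 + cl U hU V w (X ^ NN q) = 0 := by
    rw [map_pow, NN, hmain]
    exact CharTwo.add_self_eq_zero _
  have h2 := (hconc _).1 h1
  refine h2.congr fun i => ?_
  rw [Pi.pow_apply, PNat.pow_coe, hX, ← pow_mul]

end Pool.Agent.TC3
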