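import Pool.Agent.TC3.Defs

/-!
# Three colours: phases from characters, atoms
-/

set_option autoImplicit false

namespace Pool.Agent.TC3

open Pool.Agent.PPR
open MeasureTheory ProbabilityTheory Filter Topology

/-- an angle of `z` -/
noncomputable def ang (z : Circle) : ℝ := Complex.arg z / (2 * Real.pi)

lemma ee_ang (z : Circle) : ee (ang z) = z := by
  unfold ee ang
  rw [mul_div_cancel₀ _ (by positivity)]
  exact Circle.exp_arg z

/-- the completely additive function with values the angles of `l` -/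
noncomputable def Lam (l : ℕ → Circle) (n : ℕ) : ℝ :=
  n.factorization.sum fun p k => (k : ℝ) * ang (l p)

lemma ext_eq (l : ℕ → Circle) (n : ℕ) : ext l n = ee (Lam l n) := by
  unfold ext Lam
  rw [Finsupp.prod, Finsupp.sum, ee_sum]
  refine Finset.prod_congr rfl fun p _ => ?_
  rw [ee_nsmul, ee_ang]

lemma Lam_mul (l : ℕ → Circle) {m n : ℕ} (hm : 0 < m) (hn : 0 < n) :
    Lam l (m * n) = Lam l m + Lam l n := by
  unfold Lam
  rw [Nat.factorization_mul hm.ne' hn.ne', Finsupp.sum_add_index']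
  · intro p; simp
  · intro p a b; push_cast; ring

theorem isPh_ext (l : ℕ → Circle) : IsPh (fun n => ext l n) := by
  refine ⟨0, fun _ p => ang (l p), fun _ => 0, rfl, fun n _ => ?_⟩
  simp only [phc, phase]
  rw [ext_eq]
  simp [Lam]

theorem scal (l : ℕ → Circle) (s y N : ℕ) (hs : 0 < s) (hy : 0 < y) (hN : 0 < N) :
    ∃ u : ℕ → Circle, IsPh u ∧ ∀ n, 0 < n → N ∣ (s * n) ^ y →
      u n = ext l (s * n) ^ ((s * n) ^ y / N) := by
  have hN' : (N : ℝ) ≠ 0 := by positivity
  set L : Fin (y + 1) → ℕ → ℝ := fun d p =>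
    if d = Fin.last y then ((s : ℝ) ^ y / N) * ang (l p) else 0 with hL
  set x : Fin (y + 1) → ℝ := fun d =>
    if d = Fin.last y then ((s : ℝ) ^ y / N) * Lam l s else 0 with hx
  refine ⟨fun n => ee (phc L x n), ⟨y, L, x, ?_, fun n _ => rfl⟩, fun n hn hd => ?_⟩
  · rw [hx]
    simp only
    rw [if_neg]
    intro h
    have := congrArg Fin.val h
    simp at this
    omega
  · have h1 : phase L n = (n : ℝ) ^ y * (((s : ℝ) ^ y / N) * Lam l n) := by
      unfold phase
      rw [Finset.sum_eq_single (Fin.last y)]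
      · simp only [hL, if_true, Fin.val_last, Lam]
        congr 1
        rw [Finsupp.sum, Finsupp.sum, Finset.mul_sum]
        refine Finset.sum_congr rfl fun p _ => ?_
        ring
      · intro d _ hd
        simp only [hL, if_neg hd]
        simp
      · intro h
        exact absurd (Finset.mem_univ _) h
    have h2 : (∑ d : Fin (y + 1), (n : ℝ) ^ (d : ℕ) * x d) =
        (n : ℝ) ^ y * (((s : ℝ) ^ y / N) * Lam l s) := by
      rw [Finset.sum_eq_single (Fin.last y)]
      · simp only [hx, if_true, Fin.val_last]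
      · intro d _ hd
        simp only [hx, if_neg hd]
        simp
      · intro h
        exact absurd (Finset.mem_univ _) h
    have h3 : phc L x n = (((s * n) ^ y / N : ℕ) : ℝ) * Lam l (s * n) := by
      unfold phc
      rw [h1, h2, Lam_mul l hs hn, Nat.cast_div hd (by exact_mod_cast hN')]
      push_cast
      field_simp
      ring
    simp only [h3]
    rw [ee_nsmul, ext_eq]

theorem ext_mul (l : ℕ → Circle) (m n : ℕ) (hm : 0 < m) (hn : 0 < n) :
    ext l (m * n) = ext l m * ext l n := by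
  rw [ext_eq, ext_eq, ext_eq, Lam_mul l hm hn, ee_add]

theorem ext_pwl (l : ℕ → Circle) (N n : ℕ) : ext (fun p => l p ^ N) n = ext l n ^ N := by
  unfold ext
  rw [Finsupp.prod, Finsupp.prod, ← Finset.prod_pow]
  refine Finset.prod_congr rfl fun p _ => ?_
  rw [← pow_mul, ← pow_mul, mul_comm]

lemma countable_atoms (σ : Measure (ℕ → Circle)) [IsFiniteMeasure σ] :
    {l : ℕ → Circle | σ {l} ≠ 0}.Countable := by
  have h := Measure.countable_meas_pos_of_disjoint_iUnion (μ := σ)
    (As := fun l : ℕ → Circle => ({l} : Set (ℕ → Circle)))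
    (fun l => measurableSet_singleton l) (by
      intro a b hab
      simpa [Function.onFun] using hab)
  refine h.mono fun l hl => ?_
  exact pos_iff_ne_zero.2 hl

lemma measurableSet_atoms (σ : Measure (ℕ → Circle)) [IsFiniteMeasure σ] :
    MeasurableSet {l : ℕ → Circle | σ {l} ≠ 0} := (countable_atoms σ).measurableSet

lemma nonatoms_eq (σ : Measure (ℕ → Circle)) :
    {l : ℕ → Circle | σ {l} = 0} = {l : ℕ → Circle | σ {l} ≠ 0}ᶜ := by
  ext l
  simp

lemma measurableSet_nonatoms (σ : Measure (ℕ → Circle)) [IsFiniteMeasure σ] :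
    MeasurableSet {l : ℕ → Circle | σ {l} = 0} := by
  rw [nonatoms_eq]
  exact (measurableSet_atoms σ).compl

lemma exists_finset_atoms (σ : Measure (ℕ → Circle)) [IsFiniteMeasure σ]
    (T : Set (ℕ → Circle)) (hT : T.Countable) (δ : ℝ) (hδ : 0 < δ) :
    ∃ F : Finset (ℕ → Circle), ((F : Set (ℕ → Circle)) ⊆ T) ∧ σ.real (T \ F) ≤ δ := by
  classical
  rcases T.eq_empty_or_nonempty with h | h
  · refine ⟨∅, by simp, ?_⟩
    simp [h, hδ.le]
  · obtain ⟨f, hf⟩ := hT.exists_eq_range h
    have hanti : Antitone fun n : ℕ =>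
        T \ (((Finset.range n).image f : Finset (ℕ → Circle)) : Set (ℕ → Circle)) := by
      intro a b hab
      refine Set.sdiff_subset_sdiff_right ?_
      intro z hz
      simp only [Finset.coe_image, Finset.coe_range, Set.mem_image, Set.mem_Iio] at hz ⊢
      obtain ⟨i, hi, rfl⟩ := hz
      exact ⟨i, by omega, rfl⟩
    have hlim := tendsto_measure_iInter_atTop (μ := σ) (s := fun n : ℕ =>
        T \ (((Finset.range n).image f : Finset (ℕ → Circle)) : Set (ℕ → Circle)))
      (fun n => (hT.measurableSet.diff (Finset.measurableSet _)).nullMeasurableSet) hanti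
      ⟨0, measure_ne_top _ _⟩
    have hemp : (⋂ n : ℕ, T \ (((Finset.range n).image f : Finset (ℕ → Circle)) :
        Set (ℕ → Circle))) = ∅ := by
      rw [Set.eq_empty_iff_forall_notMem]
      intro z hz
      rw [Set.mem_iInter] at hz
      have hzT := (hz 0).1
      rw [hf] at hzT
      obtain ⟨i, rfl⟩ := hzT
      refine (hz (i + 1)).2 ?_
      simp only [Finset.coe_image, Finset.coe_range, Set.mem_image, Set.mem_Iio]
      exact ⟨i, by omega, rfl⟩
    rw [hemp, measure_empty] at hlim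
    have hev := (tendsto_order.1 hlim).2 (ENNReal.ofReal δ) (by simpa using hδ)
    obtain ⟨n, hn⟩ := hev.exists
    refine ⟨(Finset.range n).image f, ?_, ?_⟩
    · intro z hz
      simp only [Finset.coe_image, Finset.coe_range, Set.mem_image, Set.mem_Iio] at hz
      obtain ⟨i, -, rfl⟩ := hz
      rw [hf]
      exact ⟨i, rfl⟩
    · rw [Measure.real]
      exact ENNReal.toReal_le_of_le_ofReal hδ.le (le_of_lt hn)

lemma integrable_bdd (σ : Measure (ℕ → Circle)) [IsFiniteMeasure σ] (g : (ℕ → Circle) → ℂ)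
    (hg : Measurable g) (hg1 : ∀ l, ‖g l‖ ≤ 1) : Integrable g σ :=
  Integrable.of_bound hg.aestronglyMeasurable 1 (Eventually.of_forall hg1)

theorem atoms (σ : Measure (ℕ → Circle)) [IsProbabilityMeasure σ] (δ : ℝ) (hδ : 0 < δ) :
    ∃ F : Finset (ℕ → Circle), ∀ g : (ℕ → Circle) → ℂ, Measurable g → (∀ l, ‖g l‖ ≤ 1) →
      ‖∫ l, g l ∂σ - ∑ l ∈ F, ((σ.real {l} : ℝ) : ℂ) * g l - ∫ l in {l | σ {l} = 0}, g l ∂σ‖ ≤ δ := by
  obtain ⟨F, hF, hF2⟩ := exists_finset_atoms σ _ (countable_atoms σ) δ hδ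
  refine ⟨F, fun g hg hg1 => ?_⟩
  have hi := integrable_bdd σ g hg hg1
  have h1 : ∫ l, g l ∂σ = ∫ l in {l | σ {l} ≠ 0}, g l ∂σ + ∫ l in {l | σ {l} = 0}, g l ∂σ := by
    rw [nonatoms_eq]
    exact (integral_add_compl (measurableSet_atoms σ) hi).symm
  have h2 : ∫ l in {l | σ {l} ≠ 0}, g l ∂σ =
      ∫ l in ({l | σ {l} ≠ 0} \ (F : Set (ℕ → Circle))), g l ∂σ +
        ∑ l ∈ F, ((σ.real {l} : ℝ) : ℂ) * g l := by
    have h3 : {l : ℕ → Circle | σ {l} ≠ 0} =
        ({l | σ {l} ≠ 0} \ (F : Set (ℕ → Circle))) ∪ (F : Set (ℕ → Circle)) := by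
      rw [Set.sdiff_union_of_subset hF]
    conv_lhs => rw [h3]
    rw [setIntegral_union Set.disjoint_sdiff_left (Finset.measurableSet _) hi.integrableOn
      hi.integrableOn, setIntegral_finset _ hi.integrableOn]
    congr 1
  rw [h1, h2]
  have h4 : ∀ a b c : ℂ, a + b + c - b - c = a := fun a b c => by ring
  rw [h4]
  calc ‖∫ l in ({l | σ {l} ≠ 0} \ (F : Set (ℕ → Circle))), g l ∂σ‖
      ≤ 1 * σ.real ({l | σ {l} ≠ 0} \ (F : Set (ℕ → Circle))) :=
        norm_setIntegral_le_of_norm_le_const (measure_lt_top _ _) (fun l _ => hg1 l)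
    _ ≤ δ := by rw [one_mul]; exact hF2

theorem one_atom (σ : Measure (ℕ → Circle)) [IsProbabilityMeasure σ]
    (h : σ.real {l | σ {l} ≠ 0} ≤ σ.real {1}) (g : (ℕ → Circle) → ℂ) (hg : Measurable g)
    (hg1 : ∀ l, ‖g l‖ ≤ 1) :
    ∫ l, g l ∂σ = ((σ.real {1} : ℝ) : ℂ) * g 1 + ∫ l in {l | σ {l} = 0}, g l ∂σ := by
  have hi := integrable_bdd σ g hg hg1
  have h1 : ∫ l, g l ∂σ = ∫ l in {l | σ {l} ≠ 0}, g l ∂σ + ∫ l in {l | σ {l} = 0}, g l ∂σ := by
    rw [nonatoms_eq]
    exact (integral_add_compl (measurableSet_atoms σ) hi).symm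
  rw [h1]
  congr 1
  have h2 : ∫ l in ({1} : Set (ℕ → Circle)), g l ∂σ = ((σ.real {1} : ℝ) : ℂ) * g 1 := by
    have h3 := setIntegral_finset (μ := σ) (f := g) ({1} : Finset (ℕ → Circle)) hi.integrableOn
    simpa using h3
  rw [← h2]
  by_cases h0 : σ {1} = 0
  · have h5 : σ.real {1} = 0 := by simp [Measure.real, h0]
    have h6 : σ {l | σ {l} ≠ 0} = 0 := by
      rw [h5] at h
      have h7 : σ.real {l | σ {l} ≠ 0} = 0 := le_antisymm h measureReal_nonneg
      rwa [measureReal_eq_zero_iff] at h7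
    rw [setIntegral_measure_zero _ h6, setIntegral_measure_zero _ h0]
  · have hsub : ({1} : Set (ℕ → Circle)) ⊆ {l | σ {l} ≠ 0} := by
      intro l hl
      rw [Set.mem_singleton_iff] at hl
      rw [hl]
      exact h0
    have h8 : σ.real ({l | σ {l} ≠ 0} \ {1}) = 0 := by
      have h9 := measureReal_sdiff (μ := σ) hsub (measurableSet_singleton _)
      have h10 : 0 ≤ σ.real ({l | σ {l} ≠ 0} \ {1}) := measureReal_nonneg
      linarith
    rw [measureReal_eq_zero_iff] at h8
    have h11 : ({l | σ {l} ≠ 0} : Set (ℕ → Circle)) =ᵐ[σ] ({1} : Set (ℕ → Circle)) := by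
      refine (ae_eq_set.2 ⟨h8, ?_⟩)
      rw [Set.sdiff_eq_empty.2 hsub, measure_empty]
    exact setIntegral_congr_set h11

end Pool.Agent.TC3
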