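import Pool.Agent.TC3.Gen
import Pool.Agent.TC3.Dens
import Pool.Agent.TC3.Comb2
import Pool.Agent.TC3.HJ
import Pool.Agent.TC3.Mod
import Pool.Agent.TC3.Half
import Pool.Agent.TC3.Scal
import Pool.Agent.TC3.SpecA

/-!
# Three colours: the end of the proof
-/

set_option autoImplicit false

namespace Pool.Agent.TC3

open Pool.Agent.PPR
open MeasureTheory ProbabilityTheory Filter Topology

namespace En

lemma norm_sub_one_le {z : Circle} {ε : ℝ} (h : 1 - ε ≤ ((z : Circle) : ℂ).re) :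
    ‖((z : Circle) : ℂ) - 1‖ ^ 2 ≤ 2 * ε := by
  have h1 : ‖((z : Circle) : ℂ) - 1‖ ^ 2 = 2 - 2 * ((z : Circle) : ℂ).re := by
    have h2 : ‖((z : Circle) : ℂ)‖ ^ 2 = 1 := by rw [Circle.norm_coe]; norm_num
    rw [← Complex.normSq_eq_norm_sq] at h2 ⊢
    rw [Complex.normSq_apply] at h2 ⊢
    simp only [Complex.sub_re, Complex.sub_im, Complex.one_re, Complex.one_im]
    nlinarith
  rw [h1]; linarith

lemma norm_pow_sub_one_le (z : Circle) (j : ℕ) :
    ‖((z ^ j : Circle) : ℂ) - 1‖ ≤ j * ‖((z : Circle) : ℂ) - 1‖ := by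
  induction j with
  | zero => simp
  | succ j ih =>
    have h1 : ((z ^ (j + 1) : Circle) : ℂ) - 1 =
        ((z ^ j : Circle) : ℂ) * (((z : Circle) : ℂ) - 1) + (((z ^ j : Circle) : ℂ) - 1) := by
      rw [pow_succ]; push_cast; ring
    rw [h1]
    refine (norm_add_le _ _).trans ?_
    rw [norm_mul, Circle.norm_coe, one_mul, Nat.cast_succ]
    linarith

lemma ext_one_arg (n : ℕ) : ext (1 : ℕ → Circle) n = 1 := by
  unfold ext Finsupp.prod
  exact Finset.prod_eq_one fun p _ => one_pow _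

lemma measurable_extC (n : ℕ) : Measurable fun l : ℕ → Circle => ((ext l n : Circle) : ℂ) :=
  (by fun_prop : Continuous fun z : Circle => (z : ℂ)).measurable.comp (measurable_ext n)

lemma measurable_extC_pow (n k : ℕ) :
    Measurable fun l : ℕ → Circle => ((ext l n ^ k : Circle) : ℂ) :=
  (by fun_prop : Continuous fun z : Circle => ((z ^ k : Circle) : ℂ)).measurable.comp
    (measurable_ext n)

lemma ext_pow_arg (l : ℕ → Circle) (n j : ℕ) : ext l (n ^ j) = ext l n ^ j := ext_pow l n j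

/-- a positive gap -/
lemma exists_gap (Y : ℕ) (κ : ℕ → ℝ) :
    ∃ η : ℝ, 0 < η ∧ ∀ y, 0 < y → y ≤ Y → 1 / 2 < κ y → 1 / 2 + η ≤ κ y := by
  induction Y with
  | zero => exact ⟨1, one_pos, fun y h1 h2 => by omega⟩
  | succ Y ih =>
    obtain ⟨η, hη, h⟩ := ih
    by_cases hY : 1 / 2 < κ (Y + 1)
    · refine ⟨min η (κ (Y + 1) - 1 / 2), lt_min hη (by linarith), fun y h1 h2 h3 => ?_⟩
      rcases Nat.lt_or_ge y (Y + 1) with h4 | h4
      · have := h y h1 (by omega) h3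
        have := min_le_left η (κ (Y + 1) - 1 / 2)
        linarith
      · obtain rfl : y = Y + 1 := le_antisymm h2 h4
        have := min_le_right η (κ (Y + 1) - 1 / 2)
        linarith
    · refine ⟨η, hη, fun y h1 h2 h3 => ?_⟩
      rcases Nat.lt_or_ge y (Y + 1) with h4 | h4
      · exact h y h1 (by omega) h3
      · obtain rfl : y = Y + 1 := le_antisymm h2 h4
        exact absurd h3 hY

/-- the mass of the atoms -/
noncomputable def kap (σ : Measure (ℕ → Circle)) : ℝ := σ.real {l | σ {l} ≠ 0}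

lemma exists_ultra_const {α : Type*} [Finite α] (V : Ultrafilter ℕ) (f : ℕ → α) :
    ∃ a, ∀ᶠ i in (V : Filter ℕ), f i = a := by
  have h1 : (⋃ a ∈ (Set.univ : Set α), {n | f n = a}) ∈ V := by
    have : (⋃ a ∈ (Set.univ : Set α), {n | f n = a}) = Set.univ := by
      ext n; simp
    rw [this]; exact univ_mem
  rw [Ultrafilter.finite_biUnion_mem_iff Set.finite_univ] at h1
  obtain ⟨i, _, hi⟩ := h1
  exact ⟨i, hi⟩

/-- the approximation property of `F` -/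
def Appr (σ : Measure (ℕ → Circle)) (δ : ℝ) (F : Finset (ℕ → Circle)) : Prop :=
  ∀ g : (ℕ → Circle) → ℂ, Measurable g → (∀ l, ‖g l‖ ≤ 1) →
      ‖∫ l, g l ∂σ - ∑ l ∈ F, ((σ.real {l} : ℝ) : ℂ) * g l - ∫ l in {l | σ {l} = 0}, g l ∂σ‖ ≤ δ

lemma measurableSet_D (σ : Measure (ℕ → Circle)) [IsFiniteMeasure σ] :
    MeasurableSet {l : ℕ → Circle | σ {l} = 0} := by
  have h1 : {l : ℕ → Circle | σ {l} = 0}ᶜ.Countable := by
    have h2 : {l : ℕ → Circle | σ {l} = 0}ᶜ = {l | 0 < σ {l}} := by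
      ext l
      simp only [Set.mem_compl_iff, Set.mem_ofPred_eq]
      exact pos_iff_ne_zero.symm
    rw [h2]
    exact Measure.countable_meas_pos_of_disjoint_iUnion (fun l => measurableSet_singleton l)
      (fun a b hab => by simpa using hab)
  exact h1.measurableSet.of_compl

lemma kap_eq (σ : Measure (ℕ → Circle)) [IsProbabilityMeasure σ] :
    kap σ = 1 - σ.real {l | σ {l} = 0} := by
  have h1 : {l : ℕ → Circle | σ {l} ≠ 0} = {l | σ {l} = 0}ᶜ := by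
    ext l; simp
  unfold kap
  rw [h1, probReal_compl_eq_one_sub (measurableSet_D σ)]

lemma sum_le_one (σ : Measure (ℕ → Circle)) [IsProbabilityMeasure σ] (F : Finset (ℕ → Circle)) :
    ∑ l ∈ F, σ.real {l} ≤ 1 := by
  rw [sum_measureReal_singleton]
  exact measureReal_le_one

lemma kap_le_sum (σ : Measure (ℕ → Circle)) [IsProbabilityMeasure σ] {δ : ℝ}
    {F : Finset (ℕ → Circle)} (hF : Appr σ δ F) : kap σ - δ ≤ ∑ l ∈ F, σ.real {l} := by
  have h1 := hF (fun _ => 1) measurable_const (fun _ => by simp)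
  simp only [integral_const, mul_one, probReal_univ, one_smul,
    MeasurableSet.univ, measureReal_restrict_apply, Set.univ_inter] at h1
  have h2 := Complex.abs_re_le_norm ((1 : ℂ) - ∑ l ∈ F, ((σ.real {l} : ℝ) : ℂ) -
    (σ.real {l | σ {l} = 0}) • (1 : ℂ))
  have h3 : ((1 : ℂ) - ∑ l ∈ F, ((σ.real {l} : ℝ) : ℂ) -
    (σ.real {l | σ {l} = 0}) • (1 : ℂ)).re = 1 - ∑ l ∈ F, σ.real {l} - σ.real {l | σ {l} = 0} := by
    simp
  rw [h3] at h2
  have h4 := (abs_le.1 (h2.trans h1)).2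
  rw [kap_eq]
  linarith

/-- lower bound of an integral -/
lemma lower (σ : Measure (ℕ → Circle)) [IsProbabilityMeasure σ] {δ θ ε : ℝ}
    {F : Finset (ℕ → Circle)} (hF : Appr σ δ F) (g : (ℕ → Circle) → ℂ) (hg : Measurable g)
    (hg1 : ∀ l, ‖g l‖ ≤ 1) (hθ : ∀ l ∈ F, ‖g l - 1‖ ≤ θ) (hθ0 : 0 ≤ θ)
    (hε : ‖∫ l in {l | σ {l} = 0}, g l ∂σ‖ ≤ ε) :
    kap σ - 2 * δ - θ - ε ≤ (∫ l, g l ∂σ).re := by
  have h1 := hF g hg hg1
  have h2 := kap_le_sum σ hF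
  have h3 : ‖∑ l ∈ F, ((σ.real {l} : ℝ) : ℂ) * g l - ((∑ l ∈ F, σ.real {l} : ℝ) : ℂ)‖ ≤ θ := by
    push_cast
    rw [← Finset.sum_sub_distrib]
    refine (norm_sum_le _ _).trans ?_
    calc ∑ l ∈ F, ‖((σ.real {l} : ℝ) : ℂ) * g l - ((σ.real {l} : ℝ) : ℂ)‖
        ≤ ∑ l ∈ F, σ.real {l} * θ := by
          refine Finset.sum_le_sum fun l hl => ?_
          have h4 : ((σ.real {l} : ℝ) : ℂ) * g l - ((σ.real {l} : ℝ) : ℂ) =
              ((σ.real {l} : ℝ) : ℂ) * (g l - 1) := by ring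
          rw [h4, norm_mul, Complex.norm_real, Real.norm_of_nonneg measureReal_nonneg]
          exact mul_le_mul_of_nonneg_left (hθ l hl) measureReal_nonneg
      _ = (∑ l ∈ F, σ.real {l}) * θ := by rw [Finset.sum_mul]
      _ ≤ 1 * θ := mul_le_mul_of_nonneg_right (sum_le_one σ F) hθ0
      _ = θ := one_mul θ
  have h5 := (abs_le.1 ((Complex.abs_re_le_norm _).trans h1)).1
  have h6 := (abs_le.1 ((Complex.abs_re_le_norm _).trans h3)).1
  have h7 := (abs_le.1 ((Complex.abs_re_le_norm _).trans hε)).1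
  simp only [Complex.sub_re, Complex.ofReal_re] at h5 h6
  linarith

lemma one_le_atom {U : Ultrafilter ℕ} {A : Set ℕ} {σ : ℕ → Measure (ℕ → Circle)}
    (hσ : SpecFam U A σ) (hμ : dens U A = 1 / 2) (y : ℕ) (hy : 0 < y) :
    1 / 2 ≤ (σ y).real {1} := by
  have := hσ.atom y hy
  linarith

/-- the contents of good colours have only one atom -/
lemma kap_le {U : Ultrafilter ℕ} (hU : (U : Filter ℕ) ≤ atTop) {A : Set ℕ}
    {σ : ℕ → Measure (ℕ → Circle)} (hσ : SpecFam U A σ) (hμ : dens U A = 1 / 2) {y m : ℕ}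
    (hy : 0 < y) (hm : 0 < m) (hav : Av A y m) {δ θ ε : ℝ} {F : Finset (ℕ → Circle)}
    (hF : Appr (σ y) δ F) (hθ : ∀ l ∈ F, ‖((ext l m : Circle) : ℂ) - 1‖ ≤ θ) (hθ0 : 0 ≤ θ)
    (hε : ‖∫ l in {l | σ y {l} = 0}, ((ext l m : Circle) : ℂ) ∂(σ y)‖ ≤ ε)
    (hco : (σ y).real {1} - ε ≤ corr U A 1 (m ^ (y * m ^ y)) / dens U A) :
    kap (σ y) ≤ 1 / 2 + 2 * δ + θ + 2 * ε := by
  have := hσ.prob y hy
  have h1 := lower (σ y) hF (fun l => ((ext l m : Circle) : ℂ)) (measurable_extC m)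
    (fun l => by rw [Circle.norm_coe]) hθ hθ0 hε
  rw [hσ.lin y m hy hm, Complex.ofReal_re] at h1
  have h2 := av_le U hU A y m hm hav
  have h3 := one_le_atom hσ hμ y hy
  rw [hμ] at h1 h2 hco
  rw [div_eq_mul_inv] at h1 hco
  norm_num at h1 hco
  linarith

lemma half_lower {U : Ultrafilter ℕ} {A : Set ℕ}
    {σ : ℕ → Measure (ℕ → Circle)} (hσ : SpecFam U A σ) (hμ : dens U A = 1 / 2) {y : ℕ}
    (hy : 0 < y) (hk : kap (σ y) ≤ 1 / 2) (g : (ℕ → Circle) → ℂ) (hg : Measurable g)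
    (hg1 : ∀ l, ‖g l‖ ≤ 1) (h1 : g 1 = 1) {ε : ℝ}
    (hε : ‖∫ l in {l | σ y {l} = 0}, g l ∂(σ y)‖ ≤ ε) : 1 / 2 - ε ≤ (∫ l, g l ∂(σ y)).re := by
  have := hσ.prob y hy
  have h3 := one_le_atom hσ hμ y hy
  rw [one_atom (σ y) (hk.trans h3) g hg hg1, h1, mul_one, Complex.add_re, Complex.ofReal_re]
  have h7 := (abs_le.1 ((Complex.abs_re_le_norm _).trans hε)).1
  linarith

lemma odd_le {U : Ultrafilter ℕ} (hU : (U : Filter ℕ) ≤ atTop) {A : Set ℕ}
    {σ : ℕ → Measure (ℕ → Circle)} (hσ : SpecFam U A σ) (hμ : dens U A = 1 / 2) {y m : ℕ}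
    (hy : 0 < y) (hm : 0 < m) (hav : Av A y m) (hk : kap (σ y) ≤ 1 / 2) {ε : ℝ}
    (h1 : ‖∫ l in {l | σ y {l} = 0}, ((ext l m : Circle) : ℂ) ∂(σ y)‖ ≤ ε)
    (h2 : ‖∫ l in {l | σ y {l} = 0}, ((ext l m ^ (m ^ y - 1) : Circle) : ℂ) ∂(σ y)‖ ≤ ε)
    (hco : (σ y).real {1} - ε ≤ corr U A 1 (m ^ (y * m ^ y)) / dens U A) :
    dens U (Odd3 A y m) ≤ 3 * ε := by
  have h3 := half_lower hσ hμ hy hk _ (measurable_extC m) (fun l => by rw [Circle.norm_coe])
    (by rw [ext_one_arg, Circle.coe_one]) h1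
  have h4 := half_lower hσ hμ hy hk _ (measurable_extC_pow m (m ^ y - 1))
    (fun l => by rw [Circle.norm_coe]) (by rw [ext_one_arg, one_pow, Circle.coe_one]) h2
  rw [hσ.lin y m hy hm, Complex.ofReal_re] at h3
  rw [hσ.mix y m hy hm, Complex.ofReal_re] at h4
  have h5 := one_le_atom hσ hμ y hy
  rw [exact3 U hU A y m hm hav]
  rw [hμ] at h3 h4 hco ⊢
  rw [div_eq_mul_inv] at h3 h4 hco
  norm_num at h3 h4 hco
  linarith

lemma lin_lower {U : Ultrafilter ℕ} {A : Set ℕ}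
    {σ : ℕ → Measure (ℕ → Circle)} (hσ : SpecFam U A σ) (hμ : dens U A = 1 / 2) {y m : ℕ}
    (hy : 0 < y) (hm : 0 < m) (hk : kap (σ y) ≤ 1 / 2) {ε : ℝ}
    (h1 : ‖∫ l in {l | σ y {l} = 0}, ((ext l m : Circle) : ℂ) ∂(σ y)‖ ≤ ε) :
    1 / 4 - ε / 2 ≤ corr U A 1 (m ^ y) := by
  have h3 := half_lower hσ hμ hy hk _ (measurable_extC m) (fun l => by rw [Circle.norm_coe])
    (by rw [ext_one_arg, Circle.coe_one]) h1
  rw [hσ.lin y m hy hm, Complex.ofReal_re, hμ] at h3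
  rw [div_eq_mul_inv] at h3
  norm_num at h3
  linarith

/-- the mass of the atoms from the size of the correlation -/
lemma corr_le_kap {U : Ultrafilter ℕ} {A : Set ℕ}
    {σ : ℕ → Measure (ℕ → Circle)} (hσ : SpecFam U A σ) (hμ : dens U A = 1 / 2) {y m : ℕ}
    (hy : 0 < y) (hm : 0 < m) {ε : ℝ}
    (h1 : ‖∫ l in {l | σ y {l} = 0}, ((ext l m : Circle) : ℂ) ∂(σ y)‖ ≤ ε) :
    2 * corr U A 1 (m ^ y) ≤ kap (σ y) + ε := by
  have := hσ.prob y hy
  have h2 := hσ.lin y m hy hm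
  have h3 : ∫ l, ((ext l m : Circle) : ℂ) ∂(σ y) =
      ∫ l in {l | σ y {l} = 0}ᶜ, ((ext l m : Circle) : ℂ) ∂(σ y) +
        ∫ l in {l | σ y {l} = 0}, ((ext l m : Circle) : ℂ) ∂(σ y) := by
    rw [add_comm]
    refine (integral_add_compl (measurableSet_D (σ y)) ?_).symm
    exact Integrable.of_bound (measurable_extC m).aestronglyMeasurable 1
      (Eventually.of_forall fun l => by rw [Circle.norm_coe])
  have h4 : ‖∫ l in {l | σ y {l} = 0}ᶜ, ((ext l m : Circle) : ℂ) ∂(σ y)‖ ≤ kap (σ y) := by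
    have h5 := norm_setIntegral_le_of_norm_le_const (μ := σ y) (s := {l | σ y {l} = 0}ᶜ) (C := 1)
      (f := fun l : ℕ → Circle => ((ext l m : Circle) : ℂ)) (measure_lt_top _ _)
      (fun l _ => by rw [Circle.norm_coe])
    rw [one_mul] at h5
    have h6 : {l : ℕ → Circle | σ y {l} = 0}ᶜ = {l | σ y {l} ≠ 0} := by ext l; simp
    rw [h6] at h5 ⊢
    exact h5
  have h5 : ‖((corr U A 1 (m ^ y) / dens U A : ℝ) : ℂ)‖ ≤ kap (σ y) + ε := by
    rw [← h2, h3]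
    exact (norm_add_le _ _).trans (add_le_add h4 h1)
  rw [Complex.norm_real, Real.norm_eq_abs] at h5
  have h6 := (le_abs_self _).trans h5
  rw [hμ, div_eq_mul_inv] at h6
  norm_num at h6
  linarith

/-- the coarse correlation at the end -/
lemma co_lower {U : Ultrafilter ℕ} {A : Set ℕ}
    {σ : ℕ → Measure (ℕ → Circle)} (hσ : SpecFam U A σ) (hμ : dens U A = 1 / 2) {y m N : ℕ}
    (hy : 0 < y) (hm : 0 < m) (hN : 0 < N) (hd : N ∣ m ^ y) {F : Finset (ℕ → Circle)}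
    (hF : Appr (σ (y * N)) (1 / 16) F) (hk : 1 ≤ kap (σ (y * N)))
    (hθ : ∀ l ∈ F, ‖((ext l m ^ (m ^ y / N) : Circle) : ℂ) - 1‖ ≤ 1 / 16) :
    13 / 32 ≤ corr U A 1 (m ^ (y * m ^ y)) := by
  have hyN : 0 < y * N := Nat.mul_pos hy hN
  have := hσ.prob y hy
  have := hσ.prob (y * N) hyN
  have hD : (σ (y * N)) {l | σ (y * N) {l} = 0} = 0 := by
    rw [kap_eq] at hk
    have h1 : (σ (y * N)).real {l | σ (y * N) {l} = 0} = 0 :=
      le_antisymm (by linarith) measureReal_nonneg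
    exact (measureReal_eq_zero_iff).1 h1
  have h1 := lower (σ (y * N)) hF (fun l => ((ext l m ^ (m ^ y / N) : Circle) : ℂ))
    (measurable_extC_pow m _) (fun l => by rw [Circle.norm_coe]) hθ (by norm_num)
    (ε := 0) (by rw [setIntegral_measure_zero _ hD, norm_zero])
  have h2 : ∫ l, ((ext l m ^ (m ^ y / N) : Circle) : ℂ) ∂(σ (y * N)) =
      ((corr U A 1 (m ^ (y * m ^ y)) / dens U A : ℝ) : ℂ) := by
    rw [← hσ.co y m hy hm, ← hσ.pw y N hy hN, integral_map]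
    · refine integral_congr_ae (Eventually.of_forall fun l => ?_)
      change ((ext (fun p => l p ^ N) m ^ (m ^ y / N) : Circle) : ℂ) = _
      rw [ext_pwl, ← pow_mul, Nat.mul_div_cancel' hd]
    · exact (measurable_pi_lambda _ fun p => (measurable_pi_apply p).pow_const N).aemeasurable
    · exact (measurable_extC_pow m _).aestronglyMeasurable
  rw [h2, Complex.ofReal_re, hμ, div_eq_mul_inv] at h1
  norm_num at h1
  linarith

lemma PP_pos {q : ℕ} (hq : 2 ≤ q) : 0 < PP q := by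
  unfold PP
  have h1 : 1 < q ^ 2 := Nat.one_lt_pow (by norm_num) (by omega)
  have h2 : 0 < q ^ 2 - 1 := by omega
  have h3 : 0 < 2 * q - 1 := by omega
  positivity

lemma NN_pos {q : ℕ} (hq : 2 ≤ q) : 0 < NN q := by
  unfold NN
  have h1 : 1 < q ^ (q - 1) := Nat.one_lt_pow (by omega) (by omega)
  omega

lemma corr_of_neq (U : Ultrafilter ℕ) (A : Set ℕ) (h : ℕ) :
    dens U A - dens U {x | ¬ (x ∈ A ↔ x * h ∈ A)} ≤ corr U A 1 h := by
  have h1 : dens U A ≤ dens U ({x | x * 1 ∈ A ∧ x * h ∈ A} ∪ {x | ¬ (x ∈ A ↔ x * h ∈ A)}) := by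
    refine dens_mono U fun x _ hx => ?_
    by_cases h2 : x * h ∈ A
    · exact Or.inl ⟨by rwa [mul_one], h2⟩
    · exact Or.inr fun h3 => h2 (h3.1 hx)
  have h2 := dens_union_add_inter U {x | x * 1 ∈ A ∧ x * h ∈ A} {x | ¬ (x ∈ A ↔ x * h ∈ A)}
  have h3 := dens_nonneg U ({x | x * 1 ∈ A ∧ x * h ∈ A} ∩ {x | ¬ (x ∈ A ↔ x * h ∈ A)})
  unfold corr
  linarith

end En

open En in
/-- the sets without the pattern have density less than one half -/
theorem lt_half (U : Ultrafilter ℕ) (hU : (U : Filter ℕ) ≤ atTop) (A : Set ℕ) (Y : ℕ)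
    (h1 : ∀ m, 1 < m → ∃ y, 0 < y ∧ y ≤ Y ∧ Av A y m) : dens U A < 1 / 2 := by
  classical
  by_contra hcon0
  push Not at hcon0
  have hμ : dens U A = 1 / 2 := le_antisymm (half_le U hU A Y h1 (by linarith)) hcon0
  obtain ⟨σ, hσ⟩ := exists_specFam U hU A (by rw [hμ]; norm_num)
  obtain ⟨η, hη, hgap⟩ := exists_gap Y (fun y => kap (σ y))
  -- the main atoms
  have hFex : ∀ y, ∃ F : Finset (ℕ → Circle), 0 < y → Appr (σ y) (η / 16) F := by
    intro y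
    by_cases hy : 0 < y
    · have := hσ.prob y hy
      obtain ⟨F, hF⟩ := atoms (σ y) (η / 16) (by positivity)
      exact ⟨F, fun _ => hF⟩
    · exact ⟨∅, fun h => absurd h hy⟩
  choose F hF using hFex
  obtain ⟨I, hI⟩ := exists_AP (Y + 1)
  -- a power of two which almost returns
  obtain ⟨a, ha, hdir⟩ := dirichlet
    (fun l : {l // l ∈ (Finset.range (Y + 1)).biUnion F} => ext l.1 2)
    (η / (16 * ((I : ℝ) + 1))) (by positivity)
  set g0 : ℕ := 2 ^ a with hg0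
  have hg2 : 2 ≤ g0 := by
    calc 2 = 2 ^ 1 := by norm_num
      _ ≤ 2 ^ a := Nat.pow_le_pow_right (by norm_num) ha
  have hg0p : 0 < g0 := by omega
  have hnear : ∀ y, y ≤ Y → ∀ l ∈ F y, ∀ j, j ≤ I →
      ‖((ext l (g0 ^ j) : Circle) : ℂ) - 1‖ ≤ η / 16 := by
    intro y hy l hl j hj
    have hl' : l ∈ (Finset.range (Y + 1)).biUnion F :=
      Finset.mem_biUnion.2 ⟨y, Finset.mem_range.2 (by omega), hl⟩
    have h3 := hdir ⟨l, hl'⟩
    rw [hg0, ext_pow, ext_pow]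
    refine (norm_pow_sub_one_le _ j).trans ?_
    have h4 : (j : ℝ) ≤ (I : ℝ) + 1 := by
      have : (j : ℝ) ≤ I := by exact_mod_cast hj
      linarith
    calc (j : ℝ) * ‖((ext l 2 ^ a : Circle) : ℂ) - 1‖
        ≤ ((I : ℝ) + 1) * (η / (16 * ((I : ℝ) + 1))) :=
          mul_le_mul h4 h3 (norm_nonneg _) (by positivity)
      _ = η / 16 := by field_simp
  -- the constants
  let q : ℕ → ℕ → ℕ := fun t y => g0 ^ (t * y)
  have hq2 : ∀ t y, 0 < t → 0 < y → 2 ≤ q t y := by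
    intro t y ht hy
    calc 2 ≤ g0 ^ 1 := by rw [pow_one]; exact hg2
      _ ≤ g0 ^ (t * y) := Nat.pow_le_pow_right hg0p (Nat.mul_pos ht hy)
  set N0 : ℕ := ∏ t ∈ Finset.Icc 1 I, ∏ y ∈ Finset.Icc 1 Y, PP (q t y) * NN (q t y) with hN0d
  have hN0 : 0 < N0 := by
    refine Finset.prod_pos fun t ht => Finset.prod_pos fun y hy => ?_
    rw [Finset.mem_Icc] at ht hy
    have := hq2 t y (by omega) (by omega)
    exact Nat.mul_pos (PP_pos this) (NN_pos this)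
  have hN0dvd : ∀ t y, 0 < t → t ≤ I → 0 < y → y ≤ Y → PP (q t y) * NN (q t y) ∣ N0 := by
    intro t y ht ht' hy hy'
    exact (Finset.dvd_prod_of_mem (fun y => PP (q t y) * NN (q t y))
      (Finset.mem_Icc.2 ⟨hy, hy'⟩)).trans
      (Finset.dvd_prod_of_mem (fun t => ∏ y ∈ Finset.Icc 1 Y, PP (q t y) * NN (q t y))
        (Finset.mem_Icc.2 ⟨ht, ht'⟩))
  set Y2 : ℕ := ∑ t ∈ Finset.Icc 1 I, ∑ y ∈ Finset.Icc 1 Y, y * NN (q t y) with hY2d
  have hY2 : ∀ t y, 0 < t → t ≤ I → 0 < y → y ≤ Y → y * NN (q t y) ≤ Y2 := by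
    intro t y ht ht' hy hy'
    exact (Finset.single_le_sum (f := fun y => y * NN (q t y)) (fun _ _ => Nat.zero_le _)
      (Finset.mem_Icc.2 ⟨hy, hy'⟩)).trans
      (Finset.single_le_sum (f := fun t => ∑ y ∈ Finset.Icc 1 Y, y * NN (q t y))
        (fun _ _ => Nat.zero_le _) (Finset.mem_Icc.2 ⟨ht, ht'⟩))
  -- the atoms of the powers
  have hFex' : ∀ t y, ∃ F' : Finset (ℕ → Circle), 0 < t → 0 < y →
      Appr (σ (y * NN (q t y))) (1 / 16) F' := by
    intro t y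
    by_cases hy : 0 < t ∧ 0 < y
    · have := hσ.prob (y * NN (q t y)) (Nat.mul_pos hy.2 (NN_pos (hq2 t y hy.1 hy.2)))
      obtain ⟨F, hF⟩ := atoms (σ (y * NN (q t y))) (1 / 16) (by norm_num)
      exact ⟨F, fun _ _ => hF⟩
    · exact ⟨∅, fun h h' => absurd ⟨h, h'⟩ hy⟩
  choose F' hF' using hFex'
  -- the scalars
  have hscex : ∀ (l : ℕ → Circle) (s y N : ℕ), ∃ u : ℕ → Circle, 0 < s → 0 < y → 0 < N →
      (IsPh u ∧ ∀ n, 0 < n → N ∣ (s * n) ^ y → u n = ext l (s * n) ^ ((s * n) ^ y / N)) := by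
    intro l s y N
    by_cases h : 0 < s ∧ 0 < y ∧ 0 < N
    · obtain ⟨u, hu⟩ := scal l s y N h.1 h.2.1 h.2.2
      exact ⟨u, fun _ _ _ => hu⟩
    · exact ⟨1, fun h' h'' h''' => absurd ⟨h', h'', h'''⟩ h⟩
  choose sc hsc using hscex
  let W1 : Finset (ℕ → Circle) :=
    (Finset.Icc 1 Y).biUnion fun y => (F y).image fun l n => ext l n
  let W2 : Finset (ℕ → Circle) :=
    (Finset.Icc 1 I).biUnion fun t => (Finset.Icc 1 Y).biUnion fun y =>
      (Finset.range (I + 1)).biUnion fun j => (F' t y).image fun l => sc l (g0 ^ j) y (NN (q t y))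
  have hW : ∀ u ∈ W1 ∪ W2, IsPh u := by
    intro u hu
    rw [Finset.mem_union] at hu
    rcases hu with hu | hu
    · simp only [W1, Finset.mem_biUnion, Finset.mem_image] at hu
      obtain ⟨y, -, l, -, rfl⟩ := hu
      exact isPh_ext l
    · simp only [W2, Finset.mem_biUnion, Finset.mem_image, Finset.mem_Icc] at hu
      obtain ⟨t, ht, y, hy, j, -, l, -, rfl⟩ := hu
      exact (hsc l (g0 ^ j) y (NN (q t y)) (pow_pos hg0p _) (by omega)
        (NN_pos (hq2 t y (by omega) (by omega)))).1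
  let S : Finset ℕ := (Finset.range (I + 1)).image fun j => g0 ^ j
  have hS : ∀ s ∈ S, 0 < s := by
    intro s hs
    simp only [S, Finset.mem_image] at hs
    obtain ⟨j, -, rfl⟩ := hs
    exact pow_pos hg0p _
  have hmS : ∀ j, j ≤ I → g0 ^ j ∈ S := fun j hj =>
    Finset.mem_image.2 ⟨j, Finset.mem_range.2 (by omega), rfl⟩
  -- the sequence of generic bases
  have hgen := fun i : ℕ => gen U A σ hσ Y Y2 N0 hN0 S hS
    (fun u : {u // u ∈ W1 ∪ W2} => u.1) (fun u => hW _ u.2) (1 / ((i : ℝ) + 1)) (by positivity)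
  choose n hn2 hnd hnsc _ hnS using hgen
  have hn0 : ∀ i, 0 < n i := fun i => by have := hn2 i; omega
  have hcell : ∀ i j, ∃ y : Fin (Y + 1), 0 < (y : ℕ) ∧ Av A y (g0 ^ j * n i) := by
    intro i j
    have h3 : 1 < g0 ^ j * n i := by
      have h4 : 0 < g0 ^ j := pow_pos hg0p _
      have h5 := hn2 i
      nlinarith
    obtain ⟨y, hy0, hyY, hy⟩ := h1 _ h3
    exact ⟨⟨y, by omega⟩, hy0, hy⟩
  choose ys hys0 hys using hcell
  have hAP : ∀ i, ∃ x : Fin (I + 1) × Fin (I + 1) × Fin (Y + 1), 0 < (x.1 : ℕ) ∧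
      (x.2.1 : ℕ) + 5 * (x.1 : ℕ) ≤ I ∧ 0 < (x.2.2 : ℕ) ∧
      ∀ j ≤ 5, Av A x.2.2 (g0 ^ ((x.2.1 : ℕ) + j * (x.1 : ℕ)) * n i) := by
    intro i
    obtain ⟨t, b, ht, hb, hC⟩ := hI (ys i)
    refine ⟨(⟨t, by omega⟩, ⟨b, by omega⟩, ys i b), ht, hb, hys0 i b, fun j hj => ?_⟩
    have h3 := hC j hj
    change Av A (ys i b : ℕ) (g0 ^ (b + j * t) * n i)
    rw [← h3]
    exact hys i _
  choose x hx1 hx2 hx3 hx4 using hAP
  obtain ⟨V, hV⟩ : ∃ V : Ultrafilter ℕ, (V : Filter ℕ) ≤ atTop := Ultrafilter.exists_le atTop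
  obtain ⟨x0, hx0⟩ := exists_ultra_const V x
  obtain ⟨i0, hi0⟩ := hx0.exists
  set t : ℕ := (x0.1 : ℕ) with htd
  set b : ℕ := (x0.2.1 : ℕ) with hbd
  set y : ℕ := (x0.2.2 : ℕ) with hyd
  have ht : 0 < t := by have := hx1 i0; rwa [hi0] at this
  have hbt : b + 5 * t ≤ I := by have := hx2 i0; rwa [hi0] at this
  have hy : 0 < y := by have := hx3 i0; rwa [hi0] at this
  have hyY : y ≤ Y := by have := x0.2.2.2; omega
  have htI : t ≤ I := by omega
  have hav : ∀ᶠ i in (V : Filter ℕ), ∀ j ≤ 5, Av A y (g0 ^ (b + j * t) * n i) := by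
    filter_upwards [hx0] with i hi
    have := hx4 i
    rwa [hi] at this
  -- the errors
  have hε0 : Tendsto (fun i : ℕ => 1 / ((i : ℝ) + 1)) (V : Filter ℕ) (𝓝 0) :=
    tendsto_one_div_add_atTop_nhds_zero_nat.mono_left hV
  have hscal : ∀ θ : ℝ, 0 < θ → ∀ᶠ i in (V : Filter ℕ), ∀ u ∈ W1 ∪ W2,
      ‖((u (n i) : Circle) : ℂ) - 1‖ ≤ θ := by
    intro θ hθ
    have h3 : ∀ᶠ i : ℕ in (V : Filter ℕ), 1 / ((i : ℝ) + 1) < θ ^ 2 / 2 :=
      hε0.eventually_lt_const (by positivity)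
    filter_upwards [h3] with i hi u hu
    have h4 := norm_sub_one_le (hnsc i ⟨u, hu⟩)
    have h5 : ‖((u (n i) : Circle) : ℂ) - 1‖ ^ 2 ≤ θ ^ 2 := by linarith
    exact le_of_sq_le_sq h5 hθ.le
  set Q : ℕ := q t y with hQ
  have hQ2 : 2 ≤ Q := hq2 t y ht hy
  set N : ℕ := NN Q with hN
  have hNp : 0 < N := NN_pos hQ2
  -- only one atom
  have hk : kap (σ y) ≤ 1 / 2 := by
    by_contra hcon
    push Not at hcon
    have h3 := hgap y hy hyY hcon
    have h4 : ∀ᶠ i : ℕ in (V : Filter ℕ), 1 / ((i : ℝ) + 1) < η / 16 :=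
      hε0.eventually_lt_const (by positivity)
    obtain ⟨i, ⟨hi1, hi2⟩, hi3⟩ := ((hav.and (hscal (η / 16) (by positivity))).and h4).exists
    have h5 := hnS i (g0 ^ b) (hmS b (by omega))
    have h6 := hi1 0 (by norm_num)
    rw [zero_mul, add_zero] at h6
    have hYY2 : y ≤ Y2 := le_trans (Nat.le_mul_of_pos_right y hNp) (hY2 t y ht htI hy hyY)
    have h7 := kap_le hU hσ hμ hy (Nat.mul_pos (pow_pos hg0p b) (hn0 i)) h6 (hF y hy)
      (θ := η / 16 + η / 16) (ε := 1 / ((i : ℝ) + 1)) (fun l hl => ?_) (by positivity)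
      (h5.2 y hy hYY2) (h5.1 y hy hyY).1
    · linarith
    · rw [ext_mul l _ _ (pow_pos hg0p b) (hn0 i), Circle.coe_mul]
      have h8 := hnear y hyY l hl b (by omega)
      have h9 := hi2 (fun n => ext l n) (Finset.mem_union_left _ (Finset.mem_biUnion.2
        ⟨y, Finset.mem_Icc.2 ⟨hy, hyY⟩, Finset.mem_image.2 ⟨l, hl, rfl⟩⟩))
      have h10 : ((ext l (g0 ^ b) : Circle) : ℂ) * ((ext l (n i) : Circle) : ℂ) - 1 =
          ((ext l (g0 ^ b) : Circle) : ℂ) * (((ext l (n i) : Circle) : ℂ) - 1) +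
            (((ext l (g0 ^ b) : Circle) : ℂ) - 1) := by ring
      rw [h10]
      refine (norm_add_le _ _).trans ?_
      rw [norm_mul, Circle.norm_coe, one_mul]
      exact add_le_add h9 h8
  -- exactness
  have hYY2 : y ≤ Y2 := le_trans (Nat.le_mul_of_pos_right y hNp) (hY2 t y ht htI hy hyY)
  have hE : ∀ j ≤ 5, Tendsto (fun i => dens U (Odd3 A y (g0 ^ b * n i * (g0 ^ t) ^ j)))
      (V : Filter ℕ) (𝓝 0) := by
    intro j hj
    have h3 : Tendsto (fun i : ℕ => 3 * (1 / ((i : ℝ) + 1))) (V : Filter ℕ) (𝓝 0) := by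
      have := hε0.const_mul 3
      rwa [mul_zero] at this
    refine tendsto_of_tendsto_of_tendsto_of_le_of_le' tendsto_const_nhds h3
      (Eventually.of_forall fun i => dens_nonneg U _) ?_
    filter_upwards [hav] with i hi
    have h4 : g0 ^ b * n i * (g0 ^ t) ^ j = g0 ^ (b + j * t) * n i := by
      have e1 : (g0 ^ t) ^ j = g0 ^ (j * t) := by rw [← pow_mul, mul_comm]
      rw [e1, pow_add]
      ring
    have hbj : b + j * t ≤ I := by nlinarith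
    have h5 := hnS i (g0 ^ (b + j * t)) (hmS _ hbj)
    rw [h4]
    exact odd_le hU hσ hμ hy (Nat.mul_pos (pow_pos hg0p _) (hn0 i)) (hi j hj) hk
      (h5.2 y hy hYY2) (h5.1 y hy hyY).2 (h5.1 y hy hyY).1
  have hdN : ∀ i, PP Q * N ∣ g0 ^ b * n i := fun i =>
    ((hN0dvd t y ht htI hy hyY).trans (hnd i)).trans (Dvd.intro_left _ rfl)
  have hdN' : ∀ i, PP Q * N ∣ (g0 ^ b * n i) ^ y := fun i =>
    (hdN i).trans (dvd_pow_self _ hy.ne')
  have hmod := mod_main U hU V A (fun i => g0 ^ b * n i)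
    (fun i => Nat.mul_pos (pow_pos hg0p _) (hn0 i)) y (g0 ^ t) Q (a * (t * y)) hy
    (Nat.mul_pos ha (Nat.mul_pos ht hy)) (by rw [hQ, pow_mul]) (by rw [hQ, ← pow_mul])
    (fun i => (Dvd.intro _ rfl).trans (hdN' i)) hE
  rw [← hN] at hmod
  -- the spectral measure of the power is atomic
  have hyN : 0 < y * N := Nat.mul_pos hy hNp
  have hk' : 1 ≤ kap (σ (y * N)) := by
    have h3 : Tendsto (fun i : ℕ => 2 * (1 / 2 - dens U {x | ¬ (x ∈ A ↔
        x * (g0 ^ b * n i) ^ (y * N) ∈ A)}) - 1 / ((i : ℝ) + 1)) (V : Filter ℕ)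
        (𝓝 (2 * (1 / 2 - 0) - 0)) :=
      ((tendsto_const_nhds.sub hmod).const_mul 2).sub hε0
    norm_num at h3
    refine le_of_tendsto h3 (Eventually.of_forall fun i => ?_)
    have h5 := hnS i (g0 ^ b) (hmS b (by omega))
    have h6 := corr_le_kap hσ hμ hyN (Nat.mul_pos (pow_pos hg0p b) (hn0 i))
      (h5.2 (y * N) hyN (hY2 t y ht htI hy hyY))
    have h7 := corr_of_neq U A ((g0 ^ b * n i) ^ (y * N))
    rw [hμ] at h7
    norm_num at h6 ⊢
    linarith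
  -- the contradiction
  have h4 : ∀ᶠ i : ℕ in (V : Filter ℕ), 1 / ((i : ℝ) + 1) < 1 / 8 :=
    hε0.eventually_lt_const (by norm_num)
  obtain ⟨i, ⟨hi1, hi2⟩, hi3⟩ := ((hav.and (hscal (1 / 16) (by norm_num))).and h4).exists
  have h5 := hnS i (g0 ^ b) (hmS b (by omega))
  have h6 := hi1 0 (by norm_num)
  rw [zero_mul, add_zero] at h6
  have hm : 0 < g0 ^ b * n i := Nat.mul_pos (pow_pos hg0p b) (hn0 i)
  have hdv : N ∣ (g0 ^ b * n i) ^ y := (Dvd.intro_left _ rfl).trans (hdN' i)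
  have h7 := co_lower hσ hμ hy hm hNp hdv (hF' t y ht hy) hk' (fun l hl => by
    have h8 := hi2 (sc l (g0 ^ b) y N) (Finset.mem_union_right _ (Finset.mem_biUnion.2
      ⟨t, Finset.mem_Icc.2 ⟨ht, htI⟩, Finset.mem_biUnion.2 ⟨y, Finset.mem_Icc.2 ⟨hy, hyY⟩,
        Finset.mem_biUnion.2 ⟨b, Finset.mem_range.2 (by omega),
          Finset.mem_image.2 ⟨l, hl, rfl⟩⟩⟩⟩))
    rw [(hsc l (g0 ^ b) y N (pow_pos hg0p b) hy hNp).2 (n i) (hn0 i) hdv] at h8
    exact h8)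
  have h8 := lin_lower hσ hμ hy hm hk (h5.2 y hy hYY2)
  have h9 := av_le U hU A y _ hm h6
  rw [hμ] at h9
  linarith

theorem no_two (A : Set ℕ) (Y : ℕ)
    (h1 : ∀ m, 1 < m → ∃ y, 0 < y ∧ y ≤ Y ∧ Av A y m)
    (h2 : ∀ m, 1 < m → ∃ y, 0 < y ∧ y ≤ Y ∧ Av Aᶜ y m) : False := by
  obtain ⟨U, hU⟩ : ∃ U : Ultrafilter ℕ, (U : Filter ℕ) ≤ atTop := Ultrafilter.exists_le atTop
  have h3 := lt_half U hU A Y h1
  have h4 := lt_half U hU Aᶜ Y h2
  rw [dens_compl] at h4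
  linarith

theorem main (k r : ℕ) (hk : 0 < k) (c : ℕ → Fin r) (T : Finset (Fin r)) (hT : T.card ≤ 3)
    (hc : ∀ n j, 1 < n → k ≤ j → c (n ^ j) ∈ T) :
    ∃ a b : ℕ, 1 < a ∧ 1 < b ∧ (∃ n j, k ≤ j ∧ a = n ^ j) ∧ (∃ n j, k ≤ j ∧ b = n ^ j) ∧
      c b = c a ∧ c (a ^ b) = c a ∧ c (a ^ (b ^ b)) = c a := by
  by_contra hno
  obtain ⟨A, Y, h1, h2⟩ := comb k r hk c T hT hc hno
  exact no_two A Y h1 h2

/-- all colours but two are good -/
theorem main_gen (k r : ℕ) (hk : 0 < k) (c : ℕ → Fin r) (E : Finset (Fin r)) (hE : E.card ≤ 2)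
    (hc : ∀ n j, 1 < n → k ≤ j → c (n ^ j) ∉ E → H60.Good (PW k ∩ {m | c m = c (n ^ j)})) :
    ∃ a b : ℕ, 1 < a ∧ 1 < b ∧ (∃ n j, k ≤ j ∧ a = n ^ j) ∧ (∃ n j, k ≤ j ∧ b = n ^ j) ∧
      c b = c a ∧ c (a ^ b) = c a ∧ c (a ^ (b ^ b)) = c a := by
  by_contra hno
  obtain ⟨A, Y, h1, h2⟩ := comb_gen k r hk c E hE hc hno
  exact no_two A Y h1 h2

end Pool.Agent.TC3
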