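import Pool.Agent.TC3.LimC

/-!
# Three colours: moments of the continuous part of the spectral measures
-/

set_option autoImplicit false

namespace Pool.Agent.TC3

open Pool.Agent.PPR
open MeasureTheory ProbabilityTheory Filter Topology

lemma mom_avg_congr {E : Type*} [AddCommGroup E] [Module ℝ E] (X K : ℕ) {f g : ℕ → E}
    (h : ∀ n, 0 < n → f n = g n) : avg X K f = avg X K g := by
  rw [avg_eq_sum, avg_eq_sum]
  congr 1
  exact Finset.sum_congr rfl fun a _ => h _ (idx_pos X K a)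

lemma mom_avg_smul (X K : ℕ) (c : ℝ) (f : ℕ → ℝ) :
    avg X K (fun n => c * f n) = c * avg X K f := by
  rw [avg_eq_sum, avg_eq_sum, smul_eq_mul, smul_eq_mul, ← Finset.mul_sum]
  ring

lemma mom_avg_re (X K : ℕ) (f : ℕ → ℂ) :
    avg X K (fun n => (f n).re) = (avg X K f).re := by
  rw [avg_eq_sum, avg_eq_sum, Complex.smul_re, Complex.re_sum]

lemma mom_phase {D : ℕ} (c : Fin (D + 1) → ℝ) (t : ℕ → ℝ) (n : ℕ) :
    phase (fun d p => c d * t p) n =
      (∑ d : Fin (D + 1), (n : ℝ) ^ (d : ℕ) * c d) *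
        n.factorization.sum fun p k => (k : ℝ) * t p := by
  unfold phase
  rw [Finset.sum_mul]
  refine Finset.sum_congr rfl fun d _ => ?_
  rw [mul_assoc]
  congr 1
  unfold Finsupp.sum
  rw [Finset.mul_sum]
  refine Finset.sum_congr rfl fun p _ => ?_
  ring

/-- the case of a probability measure -/
theorem mom_prob (ν : Measure (ℕ → Circle)) [IsProbabilityMeasure ν] (hν : ∀ l, ν {l} = 0)
    (θ : ℕ → (ℕ → Circle) → Circle) (hm : ∀ n, Measurable (θ n)) (P : Set (ℕ → Circle))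
    (hP : ∀ᵐ l ∂ν, l ∈ P)
    (hvan : ∀ l ∈ P, ∀ l' ∈ P, l ≠ l' → ∀ ε : ℝ, 0 < ε → ∀ᶠ X in atTop, ∀ᶠ K in atTop,
      ‖avg X K (fun n => ((θ n l : Circle) : ℂ) * (starRingEnd ℂ) ((θ n l' : Circle) : ℂ))‖ ≤ ε)
    (ε : ℝ) (hε : 0 < ε) : Negl {n | ε < ‖∫ l, ((θ n l : Circle) : ℂ) ∂ν‖} := by
  intro δ hδ
  let I : ℕ → ℂ := fun n => ∫ l, ((θ n l : Circle) : ℂ) ∂ν
  let w : ℕ → (ℕ → Circle) × (ℕ → Circle) → ℂ := fun n q =>
    ((θ n q.1 : Circle) : ℂ) * (starRingEnd ℂ) ((θ n q.2 : Circle) : ℂ)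
  let f : ℕ → ℕ → (ℕ → Circle) × (ℕ → Circle) → ℝ := fun X K q =>
    avg X K (fun n => -(w n q).re)
  have hwm : ∀ n, Measurable (w n) := by
    intro n
    have h1 : Measurable fun q : (ℕ → Circle) × (ℕ → Circle) => ((θ n q.1 : Circle) : ℂ) :=
      continuous_coeC.measurable.comp ((hm n).comp measurable_fst)
    have h2 : Measurable fun q : (ℕ → Circle) × (ℕ → Circle) =>
        (starRingEnd ℂ) ((θ n q.2 : Circle) : ℂ) :=
      Complex.continuous_conj.measurable.comp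
        (continuous_coeC.measurable.comp ((hm n).comp measurable_snd))
    exact h1.mul h2
  have hwb : ∀ n q, ‖w n q‖ ≤ 1 := by
    intro n q
    simp only [w]
    rw [norm_mul, RCLike.norm_conj, Circle.norm_coe, Circle.norm_coe, mul_one]
  have hrm : ∀ n, Measurable fun q => -(w n q).re := fun n =>
    (Complex.measurable_re.comp (hwm n)).neg
  have hrb : ∀ n q, |-(w n q).re| ≤ 1 := by
    intro n q
    rw [abs_neg]
    exact (Complex.abs_re_le_norm _).trans (hwb n q)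
  have hfm : ∀ X K, Measurable (f X K) := by
    intro X K
    simp only [f, avg_eq_sum, smul_eq_mul]
    exact measurable_const.mul (Finset.measurable_fun_sum _ fun a _ => hrm _)
  have hfb : ∀ X K q, |f X K q| ≤ 1 := fun X K q => abs_avg_le fun n => hrb n q
  -- the diagonal
  have hdiag : ∀ᵐ q ∂(ν.prod ν), q.1 ≠ q.2 := by
    have hms : MeasurableSet {q : (ℕ → Circle) × (ℕ → Circle) | q.1 = q.2} :=
      measurableSet_eq_fun measurable_fst measurable_snd
    have h0 : (ν.prod ν) {q : (ℕ → Circle) × (ℕ → Circle) | q.1 = q.2} = 0 := by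
      rw [Measure.measure_prod_null hms]
      refine Eventually.of_forall fun l => ?_
      have h1 : Prod.mk l ⁻¹' {q : (ℕ → Circle) × (ℕ → Circle) | q.1 = q.2} = {l} := by
        ext l'
        simp [eq_comm]
      simp only [Pi.zero_apply]
      rw [h1]
      exact hν l
    rw [ae_iff]
    simpa using h0
  have hP1 : ∀ᵐ q ∂(ν.prod ν), q.1 ∈ P := Measure.quasiMeasurePreserving_fst.ae hP
  have hP2 : ∀ᵐ q ∂(ν.prod ν), q.2 ∈ P := Measure.quasiMeasurePreserving_snd.ae hP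
  have hh : ∀ᵐ q ∂(ν.prod ν), ∀ η : ℝ, 0 < η → ∀ᶠ X in atTop, ∀ᶠ K in atTop,
      (0 : ℝ) - η ≤ f X K q := by
    filter_upwards [hdiag, hP1, hP2] with q h1 h2 h3 η hη
    filter_upwards [hvan q.1 h2 q.2 h3 h1 η hη] with X hX
    filter_upwards [hX] with K hK
    have h4 : f X K q = -(avg X K (fun n => w n q)).re := by
      simp only [f]
      have h5 := mom_avg_smul X K (-1) (fun n => (w n q).re)
      simp only [neg_mul, one_mul] at h5
      rw [h5, mom_avg_re]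
    rw [h4]
    have h6 := (Complex.abs_re_le_norm _).trans hK
    have h7 := (abs_le.1 h6).2
    linarith
  have hF := nested_fatou (ν.prod ν) f hfm (fun _ => (0 : ℝ)) measurable_const 1 hfb
    (fun _ => by simp) hh (δ * ε ^ 2) (by positivity)
  -- the integrals
  have hint : ∀ n, Integrable (fun q => -(w n q).re) (ν.prod ν) := fun n =>
    Integrable.of_bound (hrm n).aestronglyMeasurable 1 (Eventually.of_forall fun q => by
      rw [Real.norm_eq_abs]; exact hrb n q)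
  have hwi : ∀ n, ∫ q, -(w n q).re ∂(ν.prod ν) = -‖I n‖ ^ 2 := by
    intro n
    have hi : Integrable (w n) (ν.prod ν) :=
      Integrable.of_bound (hwm n).aestronglyMeasurable 1 (Eventually.of_forall (hwb n))
    rw [integral_neg]
    have h1 : ∫ q, (w n q).re ∂(ν.prod ν) = (∫ q, w n q ∂(ν.prod ν)).re := integral_re hi
    have h2 : ∫ q, w n q ∂(ν.prod ν) = I n * (starRingEnd ℂ) (I n) := by
      simp only [w, I]
      rw [integral_prod_mul (μ := ν) (ν := ν) (fun l => ((θ n l : Circle) : ℂ))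
        (fun l => (starRingEnd ℂ) ((θ n l : Circle) : ℂ)), integral_conj]
    rw [h1, h2, Complex.mul_conj, Complex.ofReal_re, Complex.normSq_eq_norm_sq]
  have hfw : ∀ X K, ∫ q, f X K q ∂(ν.prod ν) = -avg X K (fun n => ‖I n‖ ^ 2) := by
    intro X K
    have h1 : ∫ q, f X K q ∂(ν.prod ν) = avg X K (fun n => -‖I n‖ ^ 2) := by
      simp only [f, avg_eq_sum]
      rw [integral_smul, integral_finsetSum _ fun a _ => hint _]
      simp only [hwi]
    have h5 := mom_avg_smul X K (-1) (fun n => ‖I n‖ ^ 2)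
    simp only [neg_mul, one_mul] at h5
    rw [h1, h5]
  filter_upwards [hF] with X hX
  filter_upwards [hX] with K hK
  rw [hfw] at hK
  simp only [integral_zero] at hK
  have h1 : avg X K ({n | ε < ‖∫ l, ((θ n l : Circle) : ℂ) ∂ν‖}.indicator fun _ => (1 : ℝ)) ≤
      avg X K (fun n => (ε ^ 2)⁻¹ * ‖I n‖ ^ 2) := by
    refine avg_mono fun n _ => ?_
    by_cases hn : n ∈ {n | ε < ‖∫ l, ((θ n l : Circle) : ℂ) ∂ν‖}
    · rw [Set.indicator_of_mem hn]
      have h2 : ε < ‖I n‖ := hn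
      have h3 : ε ^ 2 ≤ ‖I n‖ ^ 2 := pow_le_pow_left₀ hε.le h2.le 2
      rw [← div_eq_inv_mul, le_div_iff₀ (by positivity), one_mul]
      exact h3
    · rw [Set.indicator_of_notMem hn]
      positivity
  rw [mom_avg_smul] at h1
  refine h1.trans ?_
  have h2 : avg X K (fun n => ‖I n‖ ^ 2) ≤ δ * ε ^ 2 := by linarith
  calc (ε ^ 2)⁻¹ * avg X K (fun n => ‖I n‖ ^ 2) ≤ (ε ^ 2)⁻¹ * (δ * ε ^ 2) :=
        mul_le_mul_of_nonneg_left h2 (by positivity)
    _ = δ := by field_simp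

theorem mom_fin (τ : Measure (ℕ → Circle)) [IsFiniteMeasure τ] (hτ : ∀ l, τ {l} = 0)
    (θ : ℕ → (ℕ → Circle) → Circle) (hm : ∀ n, Measurable (θ n)) (P : Set (ℕ → Circle))
    (hP : ∀ᵐ l ∂τ, l ∈ P)
    (hvan : ∀ l ∈ P, ∀ l' ∈ P, l ≠ l' → ∀ ε : ℝ, 0 < ε → ∀ᶠ X in atTop, ∀ᶠ K in atTop,
      ‖avg X K (fun n => ((θ n l : Circle) : ℂ) * (starRingEnd ℂ) ((θ n l' : Circle) : ℂ))‖ ≤ ε)
    (ε : ℝ) (hε : 0 < ε) : Negl {n | ε < ‖∫ l, ((θ n l : Circle) : ℂ) ∂τ‖} := by
  by_cases h0 : τ = 0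
  · subst h0
    have h1 : {n | ε < ‖∫ l, ((θ n l : Circle) : ℂ) ∂(0 : Measure (ℕ → Circle))‖} = ∅ := by
      ext n
      simp only [integral_zero_measure, norm_zero, Set.mem_setOf_eq, Set.mem_empty_iff_false,
        iff_false, not_lt]
      exact hε.le
    rw [h1]
    intro δ hδ
    refine Eventually.of_forall fun X => Eventually.of_forall fun K => ?_
    rw [Set.indicator_empty]
    have h2 := avg_const X K (0 : ℝ)
    rw [h2]
    exact hδ.le
  · have hU0 : τ Set.univ ≠ 0 := fun h => h0 (Measure.measure_univ_eq_zero.1 h)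
    have hUt : τ Set.univ ≠ ⊤ := measure_ne_top τ _
    have hM : 0 < (τ Set.univ).toReal := ENNReal.toReal_pos hU0 hUt
    let ν : Measure (ℕ → Circle) := (τ Set.univ)⁻¹ • τ
    have hprob : IsProbabilityMeasure ν := by
      refine ⟨?_⟩
      simp only [ν, Measure.smul_apply, smul_eq_mul]
      exact ENNReal.inv_mul_cancel hU0 hUt
    have hν : ∀ l, ν {l} = 0 := by
      intro l
      simp only [ν, Measure.smul_apply, smul_eq_mul, hτ l, mul_zero]
    have hPν : ∀ᵐ l ∂ν, l ∈ P := Measure.ae_smul_measure hP _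
    have h1 := mom_prob ν hν θ hm P hPν hvan (ε / (τ Set.univ).toReal) (by positivity)
    have h2 : {n | ε / (τ Set.univ).toReal < ‖∫ l, ((θ n l : Circle) : ℂ) ∂ν‖} =
        {n | ε < ‖∫ l, ((θ n l : Circle) : ℂ) ∂τ‖} := by
      ext n
      simp only [Set.mem_setOf_eq, ν]
      rw [integral_smul_measure, norm_smul, ENNReal.toReal_inv, Real.norm_eq_abs,
        abs_of_pos (inv_pos.2 hM), div_lt_iff₀ hM]
      have h3 : (τ Set.univ).toReal⁻¹ * ‖∫ l, ((θ n l : Circle) : ℂ) ∂τ‖ * (τ Set.univ).toReal =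
          ‖∫ l, ((θ n l : Circle) : ℂ) ∂τ‖ := by
        field_simp
      rw [h3]
    rw [h2] at h1
    exact h1

theorem mom_pow (τ : Measure (ℕ → Circle)) [IsFiniteMeasure τ] (hτ : ∀ l, τ {l} = 0)
    (hpr : ∀ᵐ l ∂τ, ∀ p : ℕ, ¬ p.Prime → l p = 1) {D : ℕ} (c : Fin (D + 1) → ℝ) (e : ℕ → ℕ)
    (he : ∀ n, 0 < n → (e n : ℝ) = ∑ d : Fin (D + 1), (n : ℝ) ^ (d : ℕ) * c d)
    (hc : c 0 = 1 ∨ c 0 = -1) (ε : ℝ) (hε : 0 < ε) :
    Negl {n | ε < ‖∫ l, ((ext l n ^ (e n) : Circle) : ℂ) ∂τ‖} := by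
  refine mom_fin τ hτ (fun n l => ext l n ^ (e n)) (fun n => (measurable_ext n).pow_const _)
    {l | ∀ p : ℕ, ¬ p.Prime → l p = 1} hpr ?_ ε hε
  intro l hl l' hl' hne η hη
  choose t ht using fun p => ee_surj (l p)
  choose t' ht' using fun p => ee_surj (l' p)
  obtain ⟨p, hpp⟩ : ∃ p, l p ≠ l' p := by
    by_contra h
    push Not at h
    exact hne (funext h)
  have hp : p.Prime := by
    by_contra h
    exact hpp ((hl p h).trans (hl' p h).symm)
  have hd : ee (t p - t' p) ≠ 1 := by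
    rw [sub_eq_add_neg, ee_add, ee_neg, ht, ht']
    intro h
    exact hpp (mul_inv_eq_one.1 h)
  have hL : ee ((fun (d : Fin (D + 1)) (q : ℕ) => c d * (t q - t' q)) 0 p) ≠ 1 := by
    simp only
    rcases hc with hc | hc
    · rw [hc, one_mul]
      exact hd
    · rw [hc, neg_one_mul, ee_neg]
      intro h
      exact hd (inv_eq_one.1 h)
  have hv := vanc (fun (d : Fin (D + 1)) (q : ℕ) => c d * (t q - t' q)) 0 rfl p hp hL η hη
  filter_upwards [hv] with X hX
  filter_upwards [hX] with K hK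
  refine le_trans (le_of_eq ?_) hK
  congr 1
  refine mom_avg_congr X K fun n hn => ?_
  have h1 : ((ext l n ^ (e n) : Circle) : ℂ) * (starRingEnd ℂ) ((ext l' n ^ (e n) : Circle) : ℂ) =
      ((ext l n ^ (e n) * (ext l' n ^ (e n))⁻¹ : Circle) : ℂ) := by
    rw [Circle.coe_mul, Circle.coe_inv_eq_conj]
  rw [h1]
  congr 1
  have h2 : phc (fun (d : Fin (D + 1)) (q : ℕ) => c d * (t q - t' q)) 0 n =
      (e n : ℝ) * n.factorization.sum fun p k => (k : ℝ) * (t p - t' p) := by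
    unfold phc
    rw [mom_phase c (fun q => t q - t' q) n, ← he n hn]
    simp
  have h3 : ext l n = ee (n.factorization.sum fun p k => (k : ℝ) * t p) := by
    rw [← ext_ee]
    congr 1
    funext p
    exact (ht p).symm
  have h4 : ext l' n = ee (n.factorization.sum fun p k => (k : ℝ) * t' p) := by
    rw [← ext_ee]
    congr 1
    funext p
    exact (ht' p).symm
  have h5 : (n.factorization.sum fun p k => (k : ℝ) * (t p - t' p)) =
      (n.factorization.sum fun p k => (k : ℝ) * t p) +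
        -(n.factorization.sum fun p k => (k : ℝ) * t' p) := by
    unfold Finsupp.sum
    rw [← Finset.sum_neg_distrib, ← Finset.sum_add_distrib]
    refine Finset.sum_congr rfl fun p _ => ?_
    ring
  rw [h2, ee_nsmul, h5, ee_add, ee_neg, ← h3, ← h4, mul_pow, inv_pow]

theorem mom_lin (τ : Measure (ℕ → Circle)) [IsFiniteMeasure τ] (hτ : ∀ l, τ {l} = 0)
    (hpr : ∀ᵐ l ∂τ, ∀ p : ℕ, ¬ p.Prime → l p = 1) (ε : ℝ) (hε : 0 < ε) :
    Negl {n | ε < ‖∫ l, ((ext l n : Circle) : ℂ) ∂τ‖} := by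
  have h := mom_pow τ hτ hpr (D := 0) (fun _ => 1) (fun _ => 1) (fun n _ => by simp)
    (Or.inl rfl) ε hε
  simpa using h

theorem mom_mix (τ : Measure (ℕ → Circle)) [IsFiniteMeasure τ] (hτ : ∀ l, τ {l} = 0)
    (hpr : ∀ᵐ l ∂τ, ∀ p : ℕ, ¬ p.Prime → l p = 1) (y : ℕ) (hy : 0 < y) (ε : ℝ) (hε : 0 < ε) :
    Negl {n | ε < ‖∫ l, ((ext l n ^ (n ^ y - 1) : Circle) : ℂ) ∂τ‖} := by
  have h0y : (0 : Fin (y + 1)) ≠ Fin.last y := by
    intro h
    have := congrArg Fin.val h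
    simp at this
    omega
  refine mom_pow τ hτ hpr (D := y)
    (fun d => (if d = Fin.last y then (1 : ℝ) else 0) - (if d = 0 then (1 : ℝ) else 0))
    (fun n => n ^ y - 1) (fun n hn => ?_) (Or.inr ?_) ε hε
  · have h1 : 1 ≤ n ^ y := Nat.one_le_pow _ _ hn
    push_cast [Nat.cast_sub h1]
    simp only [mul_sub, mul_ite, mul_one, mul_zero, Finset.sum_sub_distrib]
    rw [Finset.sum_ite_eq' Finset.univ (Fin.last y) (fun d : Fin (y + 1) => (n : ℝ) ^ (d : ℕ)),
      Finset.sum_ite_eq' Finset.univ (0 : Fin (y + 1)) (fun d : Fin (y + 1) => (n : ℝ) ^ (d : ℕ))]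
    simp
  · simp [h0y]

end Pool.Agent.TC3
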