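import Pool.Agent.TC3.Tilt
import Pool.Agent.TC3.Mom
import Pool.Agent.TC3.Scal

/-!
# Three colours: the base
-/

set_option autoImplicit false

namespace Pool.Agent.TC3

open Pool.Agent.PPR
open MeasureTheory ProbabilityTheory Filter Topology

lemma measurable_ext (n : ℕ) : Measurable (fun l : ℕ → Circle => ext l n) := by
  unfold ext
  simp only [Finsupp.prod]
  refine Finset.measurable_fun_prod _ fun p _ => ?_
  exact (measurable_pi_apply p).pow_const _

lemma measurable_extC (n k : ℕ) :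
    Measurable (fun l : ℕ → Circle => ((ext l n ^ k : Circle) : ℂ)) :=
  continuous_coeC.measurable.comp ((measurable_ext n).pow_const k)

lemma ext_one_left (n : ℕ) : ext 1 n = 1 := by
  unfold ext
  simp [Finsupp.prod]

/-- splitting off the atom at `1` -/
lemma integral_off_one (σ : Measure (ℕ → Circle)) [IsProbabilityMeasure σ]
    (g : (ℕ → Circle) → ℂ) (hg : Measurable g) (hg1 : ∀ l, ‖g l‖ ≤ 1) (h1 : g 1 = 1) :
    ∫ l, g l ∂(σ.restrict {1}ᶜ) = ∫ l, g l ∂σ - ((σ.real {1} : ℝ) : ℂ) := by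
  have hi := integrable_bdd σ g hg hg1
  have h2 : ∫ l in ({1} : Set (ℕ → Circle)), g l ∂σ = ((σ.real {1} : ℝ) : ℂ) := by
    have h3 := setIntegral_finset (μ := σ) (f := g) ({1} : Finset (ℕ → Circle)) hi.integrableOn
    simpa [h1] using h3
  have h4 := integral_add_compl (measurableSet_singleton (1 : ℕ → Circle)) hi
  rw [h2] at h4
  rw [← h4]
  ring

lemma norm_off_one (σ : Measure (ℕ → Circle)) [IsProbabilityMeasure σ]
    (g : (ℕ → Circle) → ℂ) (hg1 : ∀ l, ‖g l‖ ≤ 1) :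
    ‖∫ l, g l ∂(σ.restrict {1}ᶜ)‖ ≤ 1 := by
  calc ‖∫ l, g l ∂(σ.restrict {1}ᶜ)‖ ≤ 1 * σ.real {1}ᶜ :=
        norm_setIntegral_le_of_norm_le_const (measure_lt_top _ _) (fun l _ => hg1 l)
    _ ≤ 1 := by rw [one_mul]; exact measureReal_le_one

theorem gen (U : Ultrafilter ℕ) (A : Set ℕ) (σ : ℕ → Measure (ℕ → Circle))
    (hσ : SpecFam U A σ) (Y Y2 N0 : ℕ) (hN0 : 0 < N0) (S : Finset ℕ) (hS : ∀ s ∈ S, 0 < s)
    {ι : Type} [Fintype ι] (u : ι → ℕ → Circle) (hu : ∀ i, IsPh (u i)) (ε : ℝ) (hε : 0 < ε) :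
    ∃ n, 2 ≤ n ∧ N0 ∣ n ∧ (∀ i, 1 - ε ≤ ((u i n : Circle) : ℂ).re) ∧
      (∀ y, 0 < y → y ≤ Y → (σ y).real {1} - ε ≤ corr U A 1 (n ^ y) / dens U A) ∧
      ∀ s ∈ S,
        (∀ y, 0 < y → y ≤ Y →
          (σ y).real {1} - ε ≤ corr U A 1 ((s * n) ^ (y * (s * n) ^ y)) / dens U A ∧
          ‖∫ l in {l | σ y {l} = 0}, ((ext l (s * n) ^ ((s * n) ^ y - 1) : Circle) : ℂ) ∂(σ y)‖
            ≤ ε) ∧
        (∀ y, 0 < y → y ≤ Y2 →
          ‖∫ l in {l | σ y {l} = 0}, ((ext l (s * n) : Circle) : ℂ) ∂(σ y)‖ ≤ ε) := by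
  classical
  -- the functions of positive type
  let J := {y : ℕ // y ∈ Finset.Icc 1 Y} ⊕ ({s : ℕ // s ∈ S} × {y : ℕ // y ∈ Finset.Icc 1 Y})
  let ψ : J → ℕ → ℝ := fun j n => match j with
    | Sum.inl y => corr U A 1 (n ^ (y : ℕ)) / dens U A - (σ y).real {1}
    | Sum.inr (s, y) => corr U A 1 ((s * n) ^ ((y : ℕ) * (s * n) ^ (y : ℕ))) / dens U A -
        (σ y).real {1}
  have hy0 : ∀ y : {y : ℕ // y ∈ Finset.Icc 1 Y}, 0 < (y : ℕ) := fun y =>
    (Finset.mem_Icc.1 y.2).1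
  have key1 : ∀ y : ℕ, 0 < y → ∀ n, 0 < n →
      ((corr U A 1 (n ^ y) / dens U A - (σ y).real {1} : ℝ) : ℂ) =
        ∫ l, ((ext l n : Circle) : ℂ) ∂((σ y).restrict {1}ᶜ) := by
    intro y hy n hn
    have := hσ.prob y hy
    rw [integral_off_one (σ y) (fun l => ((ext l n : Circle) : ℂ))
      (by simpa using measurable_extC n 1) (fun l => (Circle.norm_coe _).le) (by simp [ext_one_left]),
      hσ.lin y n hy hn]
    push_cast
    ring
  have key2 : ∀ y : ℕ, 0 < y → ∀ m, 0 < m →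
      ((corr U A 1 (m ^ (y * m ^ y)) / dens U A - (σ y).real {1} : ℝ) : ℂ) =
        ∫ l, ((ext l m ^ (m ^ y) : Circle) : ℂ) ∂((σ y).restrict {1}ᶜ) := by
    intro y hy m hm
    have := hσ.prob y hy
    rw [integral_off_one (σ y) (fun l => ((ext l m ^ (m ^ y) : Circle) : ℂ))
      (measurable_extC m _) (fun l => (Circle.norm_coe _).le) (by simp [ext_one_left]),
      hσ.co y m hy hm]
    push_cast
    ring
  have hψ : ∀ j, PT (fun n => ((ψ j n : ℝ) : ℂ)) := by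
    rintro (y | ⟨s, y⟩)
    · refine ⟨ℕ → Circle, inferInstance, (σ y).restrict {1}ᶜ, fun n l => ext l n, ?_, ?_, ?_, ?_⟩
      · have := hσ.prob y (hy0 y)
        infer_instance
      · exact fun n => measurable_ext n
      · exact fun l => isPh_ext l
      · intro n hn
        exact key1 y (hy0 y) n hn
    · refine ⟨ℕ → Circle, inferInstance, (σ y).restrict {1}ᶜ,
        fun n l => ext l (s * n) ^ ((s * n) ^ (y : ℕ)), ?_, ?_, ?_, ?_⟩
      · have := hσ.prob y (hy0 y)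
        infer_instance
      · exact fun n => (measurable_ext _).pow_const _
      · intro l
        obtain ⟨v, ⟨D, L, x, hx, hv⟩, hv2⟩ := scal l s y 1 (hS s s.2) (hy0 y) one_pos
        refine ⟨D, L, x, hx, fun n hn => ?_⟩
        rw [← hv n hn, hv2 n hn (one_dvd _), Nat.div_one]
      · intro n hn
        exact key2 y (hy0 y) (s * n) (Nat.mul_pos (hS s s.2) hn)
  have hψ1 : ∀ j n, 0 < n → |ψ j n| ≤ 1 := by
    rintro (y | ⟨s, y⟩) n hn
    · have := hσ.prob y (hy0 y)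
      have h1 := norm_off_one (σ y) (fun l => ((ext l n : Circle) : ℂ)) (fun l => (Circle.norm_coe _).le)
      rw [← key1 y (hy0 y) n hn, Complex.norm_real, Real.norm_eq_abs] at h1
      exact h1
    · have := hσ.prob y (hy0 y)
      have h1 := norm_off_one (σ y)
        (fun l => ((ext l (s * n) ^ ((s * n) ^ (y : ℕ)) : Circle) : ℂ)) (fun l => (Circle.norm_coe _).le)
      rw [← key2 y (hy0 y) (s * n) (Nat.mul_pos (hS s s.2) hn), Complex.norm_real,
        Real.norm_eq_abs] at h1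
      exact h1
  -- the small sets
  have hfin : ∀ y, 0 < y → IsFiniteMeasure ((σ y).restrict {l | σ y {l} = 0}) := by
    intro y hy
    have := hσ.prob y hy
    infer_instance
  have hnull : ∀ y, 0 < y → ∀ l, (σ y).restrict {l | σ y {l} = 0} {l} = 0 := by
    intro y hy l
    have := hσ.prob y hy
    rw [Measure.restrict_apply (measurableSet_singleton _)]
    by_cases h : σ y {l} = 0
    · exact measure_mono_null Set.inter_subset_left h
    · have : ({l} : Set (ℕ → Circle)) ∩ {l | σ y {l} = 0} = ∅ := by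
        rw [Set.eq_empty_iff_forall_notMem]
        rintro z ⟨hz1, hz2⟩
        rw [Set.mem_singleton_iff] at hz1
        rw [hz1] at hz2
        exact h hz2
      rw [this, measure_empty]
  have hpri : ∀ y, 0 < y → ∀ᵐ l ∂((σ y).restrict {l | σ y {l} = 0}),
      ∀ p : ℕ, ¬ p.Prime → l p = 1 := by
    intro y hy
    exact ae_restrict_of_ae (hσ.pri y hy)
  let B1 : ℕ → ℕ → Set ℕ := fun s y => {n | s * n ∈ {m | ε <
    ‖∫ l, ((ext l m ^ (m ^ y - 1) : Circle) : ℂ) ∂((σ y).restrict {l | σ y {l} = 0})‖}}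
  let B2 : ℕ → ℕ → Set ℕ := fun s y => {n | s * n ∈ {m | ε <
    ‖∫ l, ((ext l m : Circle) : ℂ) ∂((σ y).restrict {l | σ y {l} = 0})‖}}
  let B : Set ℕ := {n | ¬ N0 ∣ n} ∪ ((⋃ s ∈ S, ⋃ y ∈ Finset.Icc 1 Y, B1 s y) ∪
    (⋃ s ∈ S, ⋃ y ∈ Finset.Icc 1 Y2, B2 s y))
  have hB : Negl B := by
    refine (negl_codvd N0 hN0).union (Negl.union ?_ ?_)
    · refine Negl.biUnion S fun s hs => Negl.biUnion _ fun y hy => ?_
      have hy' : 0 < y := (Finset.mem_Icc.1 hy).1
      have := hfin y hy'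
      exact (mom_mix _ (hnull y hy') (hpri y hy') y hy' ε hε).dil s (hS s hs)
    · refine Negl.biUnion S fun s hs => Negl.biUnion _ fun y hy => ?_
      have hy' : 0 < y := (Finset.mem_Icc.1 hy).1
      have := hfin y hy'
      exact (mom_lin _ (hnull y hy') (hpri y hy') ε hε).dil s (hS s hs)
  obtain ⟨n, hn2, hnB, hnu, hnψ⟩ := tilt u hu ψ hψ hψ1 B hB ε hε
  have hnB1 : N0 ∣ n := by
    by_contra h
    exact hnB (Or.inl h)
  refine ⟨n, hn2, hnB1, hnu, ?_, ?_⟩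
  · intro y hy hyY
    have h1 := hnψ (Sum.inl ⟨y, Finset.mem_Icc.2 ⟨hy, hyY⟩⟩)
    simp only [ψ] at h1
    linarith
  · intro s hs
    refine ⟨fun y hy hyY => ⟨?_, ?_⟩, fun y hy hyY => ?_⟩
    · have h1 := hnψ (Sum.inr (⟨s, hs⟩, ⟨y, Finset.mem_Icc.2 ⟨hy, hyY⟩⟩))
      simp only [ψ] at h1
      linarith
    · by_contra h
      refine hnB (Or.inr (Or.inl ?_))
      simp only [Set.mem_iUnion]
      exact ⟨s, hs, y, Finset.mem_Icc.2 ⟨hy, hyY⟩, not_le.1 h⟩
    · by_contra h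
      refine hnB (Or.inr (Or.inr ?_))
      simp only [Set.mem_iUnion]
      exact ⟨s, hs, y, Finset.mem_Icc.2 ⟨hy, hyY⟩, not_le.1 h⟩

end Pool.Agent.TC3
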