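import Pool.Agent.TC3.Defs

/-!
# The limit law of a phase with constants
-/

set_option autoImplicit false

namespace Pool.Agent.TC3

open Pool.Agent.PPR
open MeasureTheory ProbabilityTheory Filter Topology

namespace Lc

open Pool.Agent.PPR.Lm

variable {D : ℕ}

/-- the contribution of the constants -/
noncomputable def zz (x : Fin (D + 1) → ℝ) (n : ℕ) (g : GQ D) : Circle :=
  ee (∑ d, ((TT n g d).1 : ℝ) * x d)

lemma zz_add (x : Fin (D + 1) → ℝ) (n : ℕ) (g h : GQ D) :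
    zz x n (g + h) = zz x n g * zz x n h := by
  unfold zz
  rw [← Lm.ee_add, ← Finset.sum_add_distrib]
  congr 1
  refine Finset.sum_congr rfl fun d _ => ?_
  rw [TT_add, ← add_mul]
  congr 1
  simp only [Pi.add_apply, Prod.fst_add]
  push_cast
  rfl

lemma zz_TT (x : Fin (D + 1) → ℝ) {n k : ℕ} (hn : n ≠ 0) (hk : k ≠ 0) (g : GQ D) :
    zz x n (TT k g) = zz x (n * k) g := by
  unfold zz
  rw [TT_mul hn hk]

lemma zz_iV (x : Fin (D + 1) → ℝ) (n : ℕ) (w : VV D) : zz x n (iV w) = 1 := by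
  unfold zz
  rw [TT_iV, Finset.sum_eq_zero, Lm.ee_zero]
  intro d _
  refine Fin.cases ?_ (fun i => ?_) d
  · simp [iV]
  · simp [iV]

lemma zz_wdeg (x : Fin (D + 1) → ℝ) (n : ℕ) (d : Fin (D + 1)) (w : ℕ →₀ ℚ) :
    zz x n (wdeg d w) = 1 := by
  unfold zz
  rw [TT_wdeg, Finset.sum_eq_zero, Lm.ee_zero]
  intro e _
  by_cases h : e = d
  · subst h
    simp [wdeg]
  · simp [wdeg, Pi.single_eq_of_ne h]

lemma zz_adeg_zero (x : Fin (D + 1) → ℝ) (hx : x 0 = 0) (n : ℕ) : zz x n (adeg 0 1) = 1 := by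
  unfold zz
  rw [TT_adeg, Finset.sum_eq_zero, Lm.ee_zero]
  intro e _
  by_cases h : e = 0
  · subst h
    rw [hx, mul_zero]
  · simp [wdeg, adeg, Pi.single_eq_of_ne h]

lemma zz_ones (x : Fin (D + 1) → ℝ) (n : ℕ) :
    zz x n ones = ee (∑ d : Fin (D + 1), (n : ℝ) ^ (d : ℕ) * x d) := by
  unfold zz
  congr 1
  refine Finset.sum_congr rfl fun d _ => ?_
  congr 1
  simp only [TT, ones, mul_one]
  push_cast
  rfl

/-- the points -/
noncomputable def yc (L : Fin (D + 1) → ℕ → ℝ) (x : Fin (D + 1) → ℝ) (n : ℕ) (g : GQ D) : Circle :=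
  yy L n g * zz x n g

lemma yc_add (L : Fin (D + 1) → ℕ → ℝ) (x : Fin (D + 1) → ℝ) (n : ℕ) (g h : GQ D) :
    yc L x n (g + h) = yc L x n g * yc L x n h := by
  unfold yc
  rw [yy_add, zz_add]
  exact mul_mul_mul_comm _ _ _ _

lemma yc_TT (L : Fin (D + 1) → ℕ → ℝ) (x : Fin (D + 1) → ℝ) {n k : ℕ} (hn : n ≠ 0) (hk : k ≠ 0)
    (g : GQ D) : yc L x n (TT k g) = yc L x (n * k) g := by
  unfold yc
  rw [yy_TT L hn hk, zz_TT x hn hk]

lemma yc_iV (L : Fin (D + 1) → ℕ → ℝ) (x : Fin (D + 1) → ℝ) (n : ℕ) (w : VV D) :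
    yc L x n (iV w) = ∏ i : Fin D, ee ((n : ℝ) ^ ((i : ℕ) + 1) * ph L i.succ (w i)) := by
  unfold yc
  rw [zz_iV, mul_one, yy_iV]

lemma yc_wdeg (L : Fin (D + 1) → ℕ → ℝ) (x : Fin (D + 1) → ℝ) (n : ℕ) (d : Fin (D + 1))
    (w : ℕ →₀ ℚ) : yc L x n (wdeg d w) = ee ((n : ℝ) ^ (d : ℕ) * ph L d w) := by
  unfold yc
  rw [zz_wdeg, mul_one, yy_wdeg]

lemma yc_adeg_zero (L : Fin (D + 1) → ℕ → ℝ) (x : Fin (D + 1) → ℝ) (hx : x 0 = 0) (n : ℕ) :
    yc L x n (adeg 0 1) = ee (ph L 0 (fac n)) := by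
  unfold yc
  rw [zz_adeg_zero x hx, mul_one, yy_adeg_zero]

lemma yc_ones (L : Fin (D + 1) → ℕ → ℝ) (x : Fin (D + 1) → ℝ) (n : ℕ) :
    yc L x n ones = ee (phc L x n) := by
  unfold yc phc
  rw [yy_ones, zz_ones, ← Lm.ee_add]

lemma integral_TT {U : Ultrafilter ℕ} {W : ℕ → Ultrafilter ℕ}
    {L : Fin (D + 1) → ℕ → ℝ} {x : Fin (D + 1) → ℝ} {PX : ℕ → Measure (GQ D → Circle)}
    {P : Measure (GQ D → Circle)} (hU : (U : Filter ℕ) ≤ atTop)
    (H : IterLim U W (yc L x) PX P) (k : ℕ) (hk : 0 < k) (g : GQ D) :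
    ∫ u, ((u (TT k g) : Circle) : ℂ) ∂P = ∫ u, ((u g : Circle) : ℂ) ∂P := by
  obtain ⟨C, hC, hb⟩ := avg_shift_bound k hk
  have h1 : ∀ X, ‖∫ u, ((u (TT k g) : Circle) : ℂ) ∂(PX X) - ∫ u, ((u g : Circle) : ℂ) ∂(PX X)‖ ≤
      C / ((X : ℝ) + 1) := by
    intro X
    have h2 := ((H.lX _ (Lm.continuous_coe (TT k g)) X).sub (H.lX _ (Lm.continuous_coe g) X)).norm
    refine le_of_tendsto h2 (Eventually.of_forall fun K => ?_)
    have h3 := hb X K (fun n => ((yc L x n g : Circle) : ℂ)) (fun n => by rw [Circle.norm_coe])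
    have h4 : avg X K (fun n => ((yc L x n (TT k g) : Circle) : ℂ)) =
        avg X K (fun n => ((yc L x (n * k) g : Circle) : ℂ)) :=
      avg_congr X K fun n hn => by rw [yc_TT L x hn.ne' hk.ne']
    rw [← h4] at h3
    exact h3
  have h2 := (H.lP _ (Lm.continuous_coe (TT k g))).sub (H.lP _ (Lm.continuous_coe g))
  have h3 : Tendsto (fun X : ℕ => C / ((X : ℝ) + 1)) (U : Filter ℕ) (𝓝 0) := by
    refine Tendsto.mono_left ?_ hU
    have h4 : Tendsto (fun X : ℕ => (X : ℝ) + 1) atTop atTop :=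
      tendsto_atTop_add_const_right _ _ tendsto_natCast_atTop_atTop
    exact h4.const_div_atTop C
  have h4 := tendsto_nhds_unique h2 (squeeze_zero_norm h1 h3)
  exact sub_eq_zero.1 h4

lemma integral_of_tendsto {U : Ultrafilter ℕ} {W : ℕ → Ultrafilter ℕ}
    {y : ℕ → (GQ D → Circle)} {PX : ℕ → Measure (GQ D → Circle)}
    {P : Measure (GQ D → Circle)} (hU : (U : Filter ℕ) ≤ atTop)
    (hW : ∀ X, (W X : Filter ℕ) ≤ atTop) (H : IterLim U W y PX P) (g : GQ D)
    (N : ℕ) (hN : 0 < N) (c : ℂ) (hc : ‖c‖ ≤ 1)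
    (h : ∀ x : ℕ, 0 < x → N ∣ x →
      Tendsto (fun K => avgK K (fun n => ((y n g : Circle) : ℂ)) x) atTop (𝓝 c)) :
    ∫ u, ((u g : Circle) : ℂ) ∂P = c := by
  have h1 : ∀ X : ℕ, ‖∫ u, ((u g : Circle) : ℂ) ∂(PX X) - c‖ ≤
      avgX X (fun x => if N ∣ x then (0 : ℝ) else 2) := by
    intro X
    have h2 := ((H.lX _ (Lm.continuous_coe g) X).sub_const c).norm
    have h3 : Tendsto (fun K => avgX X (fun x => if N ∣ x then
        ‖avgK K (fun n => ((y n g : Circle) : ℂ)) x - c‖ else 2)) (W X : Filter ℕ)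
        (𝓝 (avgX X (fun x => if N ∣ x then (0 : ℝ) else 2))) := by
      refine tendsto_avgX X _ _ fun x hx => ?_
      by_cases hNx : N ∣ x
      · simp only [if_pos hNx]
        have h4 := (((h x hx hNx).sub_const c).norm).mono_left (hW X)
        rwa [sub_self, norm_zero] at h4
      · simp only [if_neg hNx]
        exact tendsto_const_nhds
    refine le_of_tendsto_of_tendsto' h2 h3 fun K => ?_
    have h4 : avg X K (fun n => ((y n g : Circle) : ℂ)) - c =
        avgX X (fun x => avgK K (fun n => ((y n g : Circle) : ℂ)) x - c) := by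
      rw [avgX_sub, avgX_const]
      rfl
    change ‖avg X K (fun n => ((y n g : Circle) : ℂ)) - c‖ ≤ _
    rw [h4]
    refine norm_avgX_le_avgX X fun x hx => ?_
    by_cases hNx : N ∣ x
    · simp only [if_pos hNx]
      exact le_refl _
    · simp only [if_neg hNx]
      refine (norm_sub_le _ _).trans ?_
      have h5 := norm_avgK_le K (f := fun n => ((y n g : Circle) : ℂ)) (B := 1) hx
        (fun n _ => by rw [Circle.norm_coe])
      linarith
  have h2 := (H.lP _ (Lm.continuous_coe g)).sub_const c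
  have h3 : Tendsto (fun X => avgX X (fun x => if N ∣ x then (0 : ℝ) else 2)) (U : Filter ℕ)
      (𝓝 0) := by
    refine Tendsto.mono_left ?_ hU
    have h4 := (tendsto_codvd N hN).const_mul 2
    rw [mul_zero] at h4
    refine h4.congr fun X => ?_
    unfold avgX
    rw [smul_eq_mul, smul_eq_mul, mul_left_comm, Finset.mul_sum]
    congr 1
    refine Finset.sum_congr rfl fun e _ => ?_
    dsimp only
    split_ifs <;> norm_num
  exact sub_eq_zero.1 (tendsto_nhds_unique h2 (squeeze_zero_norm h1 h3))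

lemma fc_one {U : Ultrafilter ℕ} {W : ℕ → Ultrafilter ℕ}
    {L : Fin (D + 1) → ℕ → ℝ} {x : Fin (D + 1) → ℝ} {PX : ℕ → Measure (GQ D → Circle)}
    {P : Measure (GQ D → Circle)} (hU : (U : Filter ℕ) ≤ atTop)
    (hW : ∀ X, (W X : Filter ℕ) ≤ atTop) (H : IterLim U W (yc L x) PX P) (w : VV D)
    (hw : ∀ i, w i ∈ VL L i) : ∫ u, ((u (iV w) : Circle) : ℂ) ∂P = 1 := by
  obtain ⟨N, hN, h⟩ := exists_den Finset.univ (fun i : Fin D => ph L i.succ (w i))
    fun i _ => (mem_VL L i _).1 (hw i)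
  refine integral_of_tendsto hU hW H _ N hN 1 (by simp) fun a ha hNa => ?_
  have h1 : ∀ K, avgK K (fun n => ((yc L x n (iV w) : Circle) : ℂ)) a = 1 := by
    intro K
    rw [← avgK_const K (1 : ℂ) a]
    unfold avgK
    congr 1
    refine Finset.sum_congr rfl fun j _ => ?_
    have h0 : yc L x (a * (j + 1)) (iV w) = 1 := by
      rw [yc_iV]
      refine Finset.prod_eq_one fun i _ => ?_
      obtain ⟨m, hm⟩ := h i (Finset.mem_univ i) ((a * (j + 1)) ^ ((i : ℕ) + 1))
        ((hNa.trans (Dvd.intro _ rfl)).trans (dvd_pow_self _ (Nat.succ_ne_zero _)))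
      rw [Nat.cast_pow] at hm
      rw [hm, ee_int]
    exact congrArg (fun z : Circle => (z : ℂ)) h0
  simp only [h1]
  exact tendsto_const_nhds

lemma fc_zero {U : Ultrafilter ℕ} {W : ℕ → Ultrafilter ℕ}
    {L : Fin (D + 1) → ℕ → ℝ} {x : Fin (D + 1) → ℝ} {PX : ℕ → Measure (GQ D → Circle)}
    {P : Measure (GQ D → Circle)} (hU : (U : Filter ℕ) ≤ atTop)
    (hW : ∀ X, (W X : Filter ℕ) ≤ atTop) (H : IterLim U W (yc L x) PX P) (w : VV D)
    (hw : ¬ ∀ i, w i ∈ VL L i) : ∫ u, ((u (iV w) : Circle) : ℂ) ∂P = 0 := by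
  classical
  push Not at hw
  let S : Finset (Fin D) := Finset.univ.filter fun i => w i ∉ VL L i
  have hS : S.Nonempty := by
    obtain ⟨i, hi⟩ := hw
    exact ⟨i, Finset.mem_filter.2 ⟨Finset.mem_univ _, hi⟩⟩
  set i₀ := S.max' hS with hi₀
  have h1 : w i₀ ∉ VL L i₀ := (Finset.mem_filter.1 (S.max'_mem hS)).2
  have h2 : ∀ i, i₀ < i → w i ∈ VL L i := by
    intro i hi
    by_contra hc
    have := S.le_max' i (Finset.mem_filter.2 ⟨Finset.mem_univ _, hc⟩)
    exact absurd hi (not_lt.2 this)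
  obtain ⟨N, hN, h⟩ := exists_den (Finset.univ.filter fun i : Fin D => i₀ < i)
    (fun i : Fin D => ph L i.succ (w i))
    fun i hi => (mem_VL L i _).1 (h2 i (Finset.mem_filter.1 hi).2)
  refine integral_of_tendsto hU hW H _ N hN 0 (by simp) fun a ha hNa => ?_
  have h3 := weyl_circle (fun i : Fin D => ee ((a : ℝ) ^ ((i : ℕ) + 1) * ph L i.succ (w i))) i₀ ?_ ?_
  · refine h3.congr fun K => ?_
    unfold avgK
    congr 1
    refine Finset.sum_congr rfl fun j _ => ?_
    refine congrArg (fun z : Circle => (z : ℂ)) ?_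
    rw [yc_iV]
    refine Finset.prod_congr rfl fun i _ => ?_
    rw [← Lm.ee_nsmul]
    congr 1
    push_cast
    rw [mul_pow]
    ring
  · intro n hn he
    rw [← Lm.ee_nsmul] at he
    obtain ⟨m, hm⟩ := ee_eq_one he
    apply h1
    rw [mem_VL]
    refine ⟨m / (n * a ^ ((i₀ : ℕ) + 1)), ?_⟩
    have hn' : (n : ℝ) ≠ 0 := by exact_mod_cast hn.ne'
    have hx' : (a : ℝ) ≠ 0 := by exact_mod_cast ha.ne'
    push_cast
    rw [div_eq_iff (mul_ne_zero hn' (pow_ne_zero _ hx')), ← hm]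
    ring
  · intro i hi
    obtain ⟨m, hm⟩ := h i (Finset.mem_filter.2 ⟨Finset.mem_univ _, hi⟩) (a ^ ((i : ℕ) + 1))
      (hNa.trans (dvd_pow_self _ (Nat.succ_ne_zero _)))
    rw [Nat.cast_pow] at hm
    rw [hm, ee_int]

/-- closedness of the conditions on finitely many coordinates -/
lemma ae_eq_const {U : Ultrafilter ℕ} {W : ℕ → Ultrafilter ℕ}
    {y : ℕ → (GQ D → Circle)} {PX : ℕ → Measure (GQ D → Circle)}
    {P : Measure (GQ D → Circle)} (H : IterLim U W y PX P) (g : GQ D) (z : Circle)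
    (h : ∀ n, 0 < n → y n g = z) : ∀ᵐ u ∂P, u g = z :=
  H.cl {u | u g = z} (isClosed_eq (continuous_apply g) continuous_const) h

lemma homC {U : Ultrafilter ℕ} {W : ℕ → Ultrafilter ℕ}
    {L : Fin (D + 1) → ℕ → ℝ} {x : Fin (D + 1) → ℝ} {PX : ℕ → Measure (GQ D → Circle)}
    {P : Measure (GQ D → Circle)} (H : IterLim U W (yc L x) PX P) (g h : GQ D) :
    ∀ᵐ u ∂P, u (g + h) = u g * u h :=
  H.cl {u | u (g + h) = u g * u h} (isClosed_eq (by fun_prop) (by fun_prop))
    fun n _ => yc_add L x n g h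

lemma invC {U : Ultrafilter ℕ} {W : ℕ → Ultrafilter ℕ}
    {L : Fin (D + 1) → ℕ → ℝ} {x : Fin (D + 1) → ℝ} {PX : ℕ → Measure (GQ D → Circle)}
    {P : Measure (GQ D → Circle)} (hU : (U : Filter ℕ) ≤ atTop)
    (H : IterLim U W (yc L x) PX P) (k : ℕ) (hk : 0 < k) : P.map (TU k) = P := by
  have := H.pP
  have : IsProbabilityMeasure (P.map (TU k)) :=
    Measure.isProbabilityMeasure_map (measurable_TU k).aemeasurable
  refine measure_ext _ _ (fun v w => ?_) (fun v w => homC H v w) fun w => ?_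
  · refine (ae_map_iff (measurable_TU k).aemeasurable ?_).2 ?_
    · exact measurableSet_hom v w
    · filter_upwards [homC H (TT k v) (TT k w)] with u hu
      unfold TU
      rw [TT_add, hu]
  · rw [integral_map (measurable_TU k).aemeasurable (measurable_coe w).aestronglyMeasurable]
    exact integral_TT hU H k hk w

theorem exists_limLawC {D : ℕ} (L : Fin (D + 1) → ℕ → ℝ) (x : Fin (D + 1) → ℝ) (hx : x 0 = 0)
    (C : Set ℂ) (hC : IsClosed C) (h : ∃ᶠ X in atTop, ∃ᶠ K in atTop,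
      avg X K (fun n => ((ee (phc L x n) : Circle) : ℂ)) ∈ C) :
    ∃ (P : Measure (GQ D → Circle)) (V0 : Fin D → Submodule ℚ (ℕ →₀ ℚ)), LimLaw D P V0 ∧
      (∫ u, ((u ones : Circle) : ℂ) ∂P) ∈ C ∧
      ∀ p : ℕ, p.Prime → ∀ᵐ u ∂P, u (wdeg 0 (fac p)) = ee (L 0 p) := by
  classical
  let S : ℕ → Set ℕ := fun X =>
    {K | avg X K (fun n => ((ee (phc L x n) : Circle) : ℂ)) ∈ C}
  let T : Set ℕ := {X | ∃ᶠ K in atTop, K ∈ S X}
  have hT : ∃ᶠ X in atTop, X ∈ T := h
  have hTn : (atTop ⊓ 𝓟 T : Filter ℕ).NeBot := frequently_mem_iff_neBot.1 hT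
  obtain ⟨U, hU⟩ : ∃ U : Ultrafilter ℕ, (U : Filter ℕ) ≤ atTop ⊓ 𝓟 T :=
    ⟨Ultrafilter.of _, Ultrafilter.of_le _⟩
  have hW : ∀ X, ∃ W : Ultrafilter ℕ, (W : Filter ℕ) ≤ atTop ∧
      (X ∈ T → (W : Filter ℕ) ≤ 𝓟 (S X)) := by
    intro X
    by_cases hX : X ∈ T
    · have : (atTop ⊓ 𝓟 (S X) : Filter ℕ).NeBot := frequently_mem_iff_neBot.1 hX
      exact ⟨Ultrafilter.of (atTop ⊓ 𝓟 (S X)), (Ultrafilter.of_le _).trans inf_le_left,
        fun _ => (Ultrafilter.of_le _).trans inf_le_right⟩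
    · exact ⟨Ultrafilter.of atTop, Ultrafilter.of_le _, fun h => absurd h hX⟩
  choose W hW1 hW2 using hW
  obtain ⟨PX, P, hlim⟩ := exists_iter_limit (yc L x) U W
  have H : IterLim U W (yc L x) PX P :=
    ⟨hlim.1, hlim.2.1, fun f hf => (hlim.2.2 f hf).1, fun f hf => (hlim.2.2 f hf).2,
      fun S hS hy => iter_limit_closed (yc L x) U W PX P hlim S hS hy⟩
  have hU1 : (U : Filter ℕ) ≤ atTop := hU.trans inf_le_left
  have hUT : (U : Filter ℕ) ≤ 𝓟 T := hU.trans inf_le_right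
  have hP := H.pP
  have hQ : IsProbabilityMeasure (P.map (PPR.pi (D := D))) :=
    Measure.isProbabilityMeasure_map measurable_pi'.aemeasurable
  have hprime : ∀ p : ℕ, p.Prime → ∀ᵐ u ∂P, u (wdeg 0 (fac p)) = ee (L 0 p) := by
    intro p hp
    refine ae_eq_const H _ _ fun n _ => ?_
    rw [yc_wdeg, ph_fac, hp.factorization]
    simp
  refine ⟨P, VL L, ⟨hP, homC H, fun k hk => invC hU1 H k hk, ⟨hQ, ?_, ?_, ?_⟩, ?_, ?_⟩, ?_,
    hprime⟩
  · intro v w
    refine (ae_map_iff measurable_pi'.aemeasurable ?_).2 ?_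
    · exact measurableSet_hom v w
    · filter_upwards [homC H (iV v) (iV w)] with u hu
      unfold PPR.pi
      rw [iV_add, hu]
  · intro k hk
    rw [Measure.map_map (measurable_tau k) measurable_pi']
    have h1 : tau k ∘ PPR.pi (D := D) = PPR.pi ∘ TU k := by
      funext u
      exact (pi_TU k u).symm
    rw [h1, ← Measure.map_map measurable_pi' (measurable_TU k), invC hU1 H k hk]
  · intro w
    rw [integral_map measurable_pi'.aemeasurable (measurable_coe w).aestronglyMeasurable]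
    change ∫ u, ((u (iV w) : Circle) : ℂ) ∂P = _
    split_ifs with hw
    · exact fc_one hU1 hW1 H w hw
    · exact fc_zero hU1 hW1 H w hw
  · intro w
    refine ⟨ee (ph L 0 w), ae_eq_const H _ _ fun n _ => ?_⟩
    rw [yc_wdeg]
    simp
  · by_cases hp : ∀ p : ℕ, p.Prime → ee (L 0 p) = 1
    · right
      refine ae_eq_const H _ _ fun n hn => ?_
      rw [yc_adeg_zero L x hx, ph_fac, Finsupp.sum, Lm.ee_sum, Finset.prod_eq_one]
      intro p hpn
      have hpp : p.Prime := by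
        rw [Nat.support_factorization] at hpn
        exact Nat.prime_of_mem_primeFactors hpn
      rw [Lm.ee_nsmul, hp p hpp, one_pow]
    · left
      push Not at hp
      obtain ⟨p, hp1, hp2⟩ := hp
      exact ⟨p, hp1.pos, ee (L 0 p), hp2, hprime p hp1⟩
  · have h1 : Tendsto (fun X => (∫ u, ((u ones : Circle) : ℂ) ∂(PX X))) (U : Filter ℕ)
        (𝓝 (∫ u, ((u ones : Circle) : ℂ) ∂P)) := H.lP _ (Lm.continuous_coe ones)
    refine hC.mem_of_tendsto h1 ?_
    refine Filter.Eventually.mono (hUT (mem_principal_self T)) fun X hX => ?_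
    have h2 : Tendsto (fun K => (avg X K (fun n => ((yc L x n ones : Circle) : ℂ))))
        (W X : Filter ℕ) (𝓝 (∫ u, ((u ones : Circle) : ℂ) ∂(PX X))) :=
      H.lX _ (Lm.continuous_coe ones) X
    refine hC.mem_of_tendsto h2 ?_
    refine Filter.Eventually.mono (hW2 X hX (mem_principal_self _)) fun K hK => ?_
    simp only [yc_ones]
    exact hK

/-- the mean on the torsion set vanishes if the degree zero part is not trivial -/
lemma on_torsion_zero {P : Measure (GQ D → Circle)} {V0 : Fin D → Submodule ℚ (ℕ →₀ ℚ)}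
    (hP : LimLaw D P V0) (h : ∀ (i : Fin D) (k : ℕ), 0 < k → fac k ∈ V0 i)
    (k0 : ℕ) (hk0 : 0 < k0) (w0 : Circle) (hw0 : w0 ≠ 1) (hz0 : ∀ᵐ u ∂P, u (wdeg 0 (fac k0)) = w0) :
    ∫ u, (CoreB.E D).indicator (fun u => ((u ones : Circle) : ℂ)) u ∂P = 0 := by
  have := hP.prob
  have hE : MeasurableSet (CoreB.E D) := CoreB.measurableSet_E
  choose z hz using fun k : ℕ => hP.zc (fac k)
  set I := ∫ u, (CoreB.E D).indicator (fun u => ((u (adeg 0 1) : Circle) : ℂ)) u ∂P with hI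
  have hIz : ∀ k : ℕ, 0 < k → ∀ w : Circle, (∀ᵐ u ∂P, u (wdeg 0 (fac k)) = w) →
      I = (w : ℂ) * I := by
    intro k hk w hw
    have h1 : I = ∫ u, (w : ℂ) * (CoreB.E D).indicator
        (fun u => ((u (adeg 0 1) : Circle) : ℂ)) u ∂P := by
      rw [hI, CoreB.integral_TU hP k hk (CoreB.meas_ind hE (CoreB.meas_coord _))]
      refine integral_congr_ae ?_
      filter_upwards [CoreB.coord_TT0 hP k, hw, CoreB.E_inv hP h k hk] with u h1 h2 h3
      by_cases hu : u ∈ CoreB.E D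
      · rw [Set.indicator_of_mem (h3.2 hu), Set.indicator_of_mem hu]
        change ((u (TT k (adeg 0 1)) : Circle) : ℂ) = _
        rw [h1, h2, Circle.coe_mul, mul_comm]
      · rw [Set.indicator_of_notMem (fun hh => hu (h3.1 hh)), Set.indicator_of_notMem hu, mul_zero]
    rw [integral_const_mul, ← hI] at h1
    exact h1
  have hI00 : I = 0 := by
    have h2 := hIz k0 hk0 w0 hz0
    have h3 : ((w0 : ℂ) - 1) * I = 0 := by rw [sub_mul, one_mul, ← h2, sub_self]
    rcases mul_eq_zero.1 h3 with h4 | h4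
    · exact absurd (Circle.coe_eq_one.1 (sub_eq_zero.1 h4)) hw0
    · exact h4
  set A : ℕ → ℂ := fun N => ∫ u, ((u (adeg 0 1) : Circle) : ℂ) *
    (CoreB.E D).indicator (fun u => ((CoreB.V (CoreB.ex D N.factorial) u : Circle) : ℂ)) u ∂P with hA
  have hlim : Tendsto A atTop (𝓝 I) := by
    have hI' : I = ∫ u, ((u (adeg 0 1) : Circle) : ℂ) *
        (CoreB.E D).indicator (fun _ => (1 : ℂ)) u ∂P := by
      rw [hI]
      refine integral_congr_ae (Eventually.of_forall fun u => ?_)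
      by_cases hu : u ∈ CoreB.E D
      · simp only [Set.indicator_of_mem hu, mul_one]
      · simp only [Set.indicator_of_notMem hu, mul_zero]
    rw [hI']
    refine tendsto_integral_of_dominated_convergence (fun _ => (1 : ℝ)) (fun N => ?_)
      (integrable_const _) (fun N => Eventually.of_forall fun u => ?_)
      (Eventually.of_forall fun u => ?_)
    · exact ((CoreB.meas_coe.comp (CoreB.meas_coord _)).mul
        (CoreB.meas_ind hE (CoreB.meas_V _))).aestronglyMeasurable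
    · rw [norm_mul]
      exact CoreB.norm_indicator_le' _ _ u
    · refine Tendsto.const_mul _ ?_
      by_cases hu : u ∈ CoreB.E D
      · simp only [Set.indicator_of_mem hu]
        refine tendsto_const_nhds.congr' ?_
        have hu' : ∀ i : Fin D, ∃ n : ℕ, 0 < n ∧ u (adeg i.succ 1) ^ n = 1 := hu
        choose n hn hn1 using hu'
        filter_upwards [eventually_ge_atTop (∑ i, n i)] with N hN
        have h1 : CoreB.V (CoreB.ex D N.factorial) u = 1 := by
          refine Finset.prod_eq_one fun i _ => ?_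
          have h2 : n i ≤ N := (Finset.single_le_sum (fun j _ => Nat.zero_le (n j))
            (Finset.mem_univ i)).trans hN
          obtain ⟨m, hm⟩ := (Nat.dvd_factorial (hn i) h2).trans
            (dvd_pow_self N.factorial (Nat.succ_ne_zero (i : ℕ)))
          change u (adeg i.succ 1) ^ (N.factorial ^ ((i : ℕ) + 1)) = 1
          rw [hm, pow_mul, hn1, one_pow]
        rw [h1, Circle.coe_one]
      · simp only [Set.indicator_of_notMem hu]
        exact tendsto_const_nhds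
  set I0 := ∫ u, (CoreB.E D).indicator (fun u => ((u ones : Circle) : ℂ)) u ∂P with hI0
  have hI0N : ∀ N : ℕ, I0 = (z N.factorial : ℂ) * A N := by
    intro N
    rw [hI0, CoreB.integral_ones hP h N.factorial N.factorial_pos (z N.factorial)
      (hz N.factorial) _ hE (CoreB.E_inv hP h _ N.factorial_pos), hA, ← integral_const_mul]
    refine integral_congr_ae (Eventually.of_forall fun u => ?_)
    by_cases hu : u ∈ CoreB.E D
    · simp only [Set.indicator_of_mem hu, Circle.coe_mul]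
      ring
    · simp only [Set.indicator_of_notMem hu, mul_zero]
  have h1 : ∀ N : ℕ, ‖I0‖ = ‖A N‖ := by
    intro N
    rw [hI0N N, norm_mul, Circle.norm_coe, one_mul]
  have h2 : Tendsto (fun N => ‖A N‖) atTop (𝓝 0) := by
    have := hlim.norm
    rwa [hI00, norm_zero] at this
  have h3 : Tendsto (fun _ : ℕ => ‖I0‖) atTop (𝓝 0) := h2.congr fun N => (h1 N).symm
  exact norm_eq_zero.1 (tendsto_nhds_unique tendsto_const_nhds h3)

/-- the mean of a limit law vanishes if the degree zero part is not trivial -/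
theorem core_zero {P : Measure (GQ D → Circle)} {V0 : Fin D → Submodule ℚ (ℕ →₀ ℚ)}
    (hP : LimLaw D P V0) (k0 : ℕ) (hk0 : 0 < k0) (w0 : Circle) (hw0 : w0 ≠ 1)
    (hz0 : ∀ᵐ u ∂P, u (wdeg 0 (fac k0)) = w0) :
    ∫ u, ((u ones : Circle) : ℂ) ∂P = 0 := by
  have := hP.prob
  by_cases hc : ∃ (i : Fin D) (k : ℕ), 0 < k ∧ fac k ∉ V0 i
  · exact core_a hP hc
  · push Not at hc
    have h1 : ∫ u, ((u ones : Circle) : ℂ) ∂P =
        ∫ u, (CoreB.E D).indicator (fun u => ((u ones : Circle) : ℂ)) u ∂P +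
          ∫ u, (CoreB.E D)ᶜ.indicator (fun u => ((u ones : Circle) : ℂ)) u ∂P := by
      rw [← integral_add (CoreB.integrable_indicator CoreB.measurableSet_E (CoreB.meas_coord _))
        (CoreB.integrable_indicator CoreB.measurableSet_E.compl (CoreB.meas_coord _))]
      refine integral_congr_ae (Eventually.of_forall fun u => ?_)
      exact (Set.indicator_self_add_compl_apply (CoreB.E D)
        (fun u : GQ D → Circle => ((u ones : Circle) : ℂ)) u).symm
    rw [h1, CoreB.off_torsion hP hc, add_zero]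
    exact on_torsion_zero hP hc k0 hk0 w0 hw0 hz0

end Lc

theorem posc {D : ℕ} (L : Fin (D + 1) → ℕ → ℝ) (x : Fin (D + 1) → ℝ) (hx : x 0 = 0) (ε : ℝ)
    (hε : 0 < ε) : ∀ᶠ X in atTop, ∀ᶠ K in atTop,
      -ε ≤ avg X K (fun n => ((ee (phc L x n) : Circle) : ℂ).re) := by
  by_contra hcon
  rw [Filter.not_eventually] at hcon
  have h1 : ∃ᶠ X in atTop, ∃ᶠ K in atTop,
      avg X K (fun n => ((ee (phc L x n) : Circle) : ℂ)) ∈ {z : ℂ | z.re ≤ -ε} := by
    refine hcon.mono fun X hX => ?_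
    rw [Filter.not_eventually] at hX
    refine hX.mono fun K hK => ?_
    rw [Lm.avg_re] at hK
    exact (not_le.1 hK).le
  obtain ⟨P, V0, hP, hle, -⟩ := Lc.exists_limLawC L x hx {z : ℂ | z.re ≤ -ε}
    (isClosed_le Complex.continuous_re continuous_const) h1
  have h2 : 0 ≤ (∫ u, ((u ones : Circle) : ℂ) ∂P).re := by
    by_cases h : ∃ (i : Fin D) (k : ℕ), 0 < k ∧ fac k ∉ V0 i
    · rw [core_a hP h]; simp
    · push Not at h
      exact core_b hP h
  have h3 : (∫ u, ((u ones : Circle) : ℂ) ∂P).re ≤ -ε := hle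
  linarith

theorem vanc {D : ℕ} (L : Fin (D + 1) → ℕ → ℝ) (x : Fin (D + 1) → ℝ) (hx : x 0 = 0) (p : ℕ)
    (hp : p.Prime) (hL : ee (L 0 p) ≠ 1) (ε : ℝ) (hε : 0 < ε) :
    ∀ᶠ X in atTop, ∀ᶠ K in atTop, ‖avg X K (fun n => ((ee (phc L x n) : Circle) : ℂ))‖ ≤ ε := by
  by_contra hcon
  rw [Filter.not_eventually] at hcon
  have h1 : ∃ᶠ X in atTop, ∃ᶠ K in atTop,
      avg X K (fun n => ((ee (phc L x n) : Circle) : ℂ)) ∈ {z : ℂ | ε ≤ ‖z‖} := by
    refine hcon.mono fun X hX => ?_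
    rw [Filter.not_eventually] at hX
    exact hX.mono fun K hK => (not_le.1 hK).le
  obtain ⟨P, V0, hP, hle, hpr⟩ := Lc.exists_limLawC L x hx {z : ℂ | ε ≤ ‖z‖}
    (isClosed_le continuous_const continuous_norm) h1
  have h2 := Lc.core_zero hP p hp.pos _ hL (hpr p hp)
  have h3 : ε ≤ ‖∫ u, ((u ones : Circle) : ℂ) ∂P‖ := hle
  rw [h2, norm_zero] at h3
  linarith

end Pool.Agent.TC3
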