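import Pool.Agent.TC3.Defs

/-!
# Three colours: sets of density zero (row NEGL)
-/

set_option autoImplicit false

namespace Pool.Agent.TC3

open Pool.Agent.PPR
open MeasureTheory ProbabilityTheory Filter Topology

lemma avg_add_real (X K : ℕ) (f g : ℕ → ℝ) :
    avg X K (fun n => f n + g n) = avg X K f + avg X K g := by
  have h : avgK K (fun n => f n + g n) = fun x => avgK K f x + avgK K g x := by
    funext x
    simp only [avgK, smul_eq_mul, Finset.sum_add_distrib, mul_add]
  rw [avg, h, avgX_add]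
  rfl

theorem Negl.mono {B C : Set ℕ} (hC : Negl C) (h : ∀ n, 0 < n → n ∈ B → n ∈ C) : Negl B := by
  classical
  intro δ hδ
  filter_upwards [hC δ hδ] with X hX
  filter_upwards [hX] with K hK
  refine (avg_mono (fun n hn => ?_)).trans hK
  by_cases hB : n ∈ B
  · rw [Set.indicator_of_mem hB, Set.indicator_of_mem (h n hn hB)]
  · rw [Set.indicator_of_notMem hB]
    exact Set.indicator_nonneg (fun _ _ => zero_le_one) n

theorem Negl.union {B C : Set ℕ} (hB : Negl B) (hC : Negl C) : Negl (B ∪ C) := by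
  classical
  intro δ hδ
  filter_upwards [hB (δ / 2) (half_pos hδ), hC (δ / 2) (half_pos hδ)] with X h1 h2
  filter_upwards [h1, h2] with K h3 h4
  have h5 : avg X K ((B ∪ C).indicator fun _ => (1 : ℝ)) ≤
      avg X K (fun n => (B.indicator fun _ => (1 : ℝ)) n + (C.indicator fun _ => (1 : ℝ)) n) := by
    refine avg_mono (fun n _ => ?_)
    simp only [Set.indicator_apply, Set.mem_union]
    by_cases e1 : n ∈ B <;> by_cases e2 : n ∈ C <;> simp [e1, e2]
  rw [avg_add_real] at h5
  linarith

theorem negl_empty : Negl ∅ := by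
  intro δ hδ
  refine Eventually.of_forall (fun X => Eventually.of_forall (fun K => ?_))
  have h : ((∅ : Set ℕ).indicator fun _ => (1 : ℝ)) = fun _ => (0 : ℝ) := by
    funext n
    simp
  rw [h, avg_const]
  exact hδ.le

theorem Negl.biUnion {ι : Type} (s : Finset ι) {B : ι → Set ℕ} (hB : ∀ i ∈ s, Negl (B i)) :
    Negl (⋃ i ∈ s, B i) := by
  classical
  induction s using Finset.induction_on with
  | empty =>
    have h : (⋃ i ∈ (∅ : Finset ι), B i) = ∅ := by simp
    rw [h]
    exact negl_empty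
  | insert a s ha ih =>
    rw [Finset.set_biUnion_insert]
    exact (hB a (Finset.mem_insert_self a s)).union
      (ih (fun i hi => hB i (Finset.mem_insert_of_mem hi)))

theorem Negl.dil {B : Set ℕ} (hB : Negl B) (s : ℕ) (hs : 0 < s) : Negl {n | s * n ∈ B} := by
  classical
  intro δ hδ
  obtain ⟨C, hC, h1⟩ := avgX_shift s hs
  have h2 : Tendsto (fun X : ℕ => 1 * C / ((X : ℝ) + 1)) atTop (𝓝 0) := by
    have h4 := (tendsto_one_div_add_atTop_nhds_zero_nat (𝕜 := ℝ)).const_mul (1 * C)
    rw [mul_zero] at h4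
    refine h4.congr (fun X => ?_)
    ring
  have h3 : ∀ᶠ X : ℕ in atTop, 1 * C / ((X : ℝ) + 1) < δ / 2 :=
    h2.eventually (eventually_lt_nhds (half_pos hδ))
  filter_upwards [hB (δ / 2) (half_pos hδ), h3] with X h4 h5
  filter_upwards [h4] with K h6
  have h7 := h1 ℝ X (avgK K (B.indicator fun _ => (1 : ℝ))) 1 (fun n => by
    have hK : (0 : ℝ) < (K : ℝ) + 1 := by positivity
    rw [avgK, norm_smul, norm_inv, Real.norm_of_nonneg hK.le]
    calc ((K : ℝ) + 1)⁻¹ * ‖∑ j ∈ Finset.range (K + 1), (B.indicator fun _ => (1 : ℝ)) (n * (j + 1))‖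
        ≤ ((K : ℝ) + 1)⁻¹ * ∑ _j ∈ Finset.range (K + 1), (1 : ℝ) := by
          refine mul_le_mul_of_nonneg_left ((norm_sum_le _ _).trans
            (Finset.sum_le_sum fun j _ => ?_)) (inv_nonneg.2 hK.le)
          rw [Real.norm_eq_abs]
          by_cases hn : n * (j + 1) ∈ B
          · rw [Set.indicator_of_mem hn, abs_one]
          · rw [Set.indicator_of_notMem hn, abs_zero]
            exact zero_le_one
      _ = 1 := by
          rw [Finset.sum_const, nsmul_eq_mul, Finset.card_range, mul_one]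
          push_cast
          exact inv_mul_cancel₀ hK.ne')
  have h8 : (fun n => avgK K (B.indicator fun _ => (1 : ℝ)) (s * n)) =
      avgK K ({n | s * n ∈ B}.indicator fun _ => (1 : ℝ)) := by
    funext x
    simp only [avgK, Set.indicator_apply, Set.mem_ofPred_eq, mul_assoc]
  rw [h8] at h7
  have h9 : |avg X K ({n | s * n ∈ B}.indicator fun _ => (1 : ℝ)) -
      avg X K (B.indicator fun _ => (1 : ℝ))| ≤ 1 * C / ((X : ℝ) + 1) := h7
  have h10 := (abs_le.1 h9).2
  linarith

theorem negl_codvd (N : ℕ) (hN : 0 < N) : Negl {n | ¬ N ∣ n} := by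
  classical
  intro δ hδ
  have h1 : ∀ᶠ X in atTop, 1 - δ < avgX X (fun n => if N ∣ n then (1 : ℝ) else 0) :=
    (avgX_dvd N hN).eventually (eventually_gt_nhds (by linarith))
  filter_upwards [h1] with X hX
  refine Eventually.of_forall (fun K => ?_)
  have h2 : avg X K ({n | ¬ N ∣ n}.indicator fun _ => (1 : ℝ)) ≤
      avgX X (fun n => 1 + -(if N ∣ n then (1 : ℝ) else 0)) := by
    refine avgX_mono X (fun x _ => ?_)
    have hK : (0 : ℝ) < (K : ℝ) + 1 := by positivity
    by_cases hx : N ∣ x
    · rw [if_pos hx]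
      rw [avgK, Finset.sum_eq_zero]
      · simp
      · intro j _
        rw [Set.indicator_of_notMem]
        simp only [Set.mem_ofPred_eq, not_not]
        exact Dvd.dvd.mul_right hx _
    · rw [if_neg hx, neg_zero, add_zero, avgK, smul_eq_mul]
      calc ((K : ℝ) + 1)⁻¹ * ∑ j ∈ Finset.range (K + 1),
            ({n | ¬ N ∣ n}.indicator fun _ => (1 : ℝ)) (x * (j + 1))
          ≤ ((K : ℝ) + 1)⁻¹ * ∑ _j ∈ Finset.range (K + 1), (1 : ℝ) :=
            mul_le_mul_of_nonneg_left (Finset.sum_le_sum fun j _ =>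
              Set.indicator_le_self' (fun _ _ => zero_le_one) _) (inv_nonneg.2 hK.le)
        _ = 1 := by
            rw [Finset.sum_const, nsmul_eq_mul, Finset.card_range, mul_one]
            push_cast
            exact inv_mul_cancel₀ hK.ne'
  have h3 : avgX X (fun n => 1 + -(if N ∣ n then (1 : ℝ) else 0)) =
      1 - avgX X (fun n => if N ∣ n then (1 : ℝ) else 0) := by
    rw [avgX_add X (fun _ => (1 : ℝ)) (fun n => -(if N ∣ n then (1 : ℝ) else 0)), avgX_const]
    have h4 : avgX X (fun n => -(if N ∣ n then (1 : ℝ) else 0)) =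
        -avgX X (fun n => if N ∣ n then (1 : ℝ) else 0) := by
      simp only [avgX, smul_eq_mul, Finset.sum_neg_distrib, mul_neg]
    rw [h4]
    ring
  rw [h3] at h2
  linarith

theorem negl_one : Negl {n | n < 2} := by
  refine (negl_codvd 2 (by norm_num)).mono (fun n hn h => ?_)
  have h1 : n < 2 := h
  have h2 : n = 1 := by omega
  show ¬ 2 ∣ n
  rw [h2]
  decide

end Pool.Agent.TC3
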