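import Pool.Agent.TC3.LimC

/-!
# Three colours: functions of positive type
-/

set_option autoImplicit false

namespace Pool.Agent.TC3

open Pool.Agent.PPR
open MeasureTheory ProbabilityTheory Filter Topology

/-! ### Phases -/

/-- the completely additive function with given values at the primes -/
noncomputable def adf (θ : ℕ → ℝ) (n : ℕ) : ℝ := n.factorization.sum fun p k => (k : ℝ) * θ p

lemma adf_add (θ θ' : ℕ → ℝ) (n : ℕ) : adf (θ + θ') n = adf θ n + adf θ' n := by
  unfold adf Finsupp.sum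
  rw [← Finset.sum_add_distrib]
  refine Finset.sum_congr rfl fun p _ => ?_
  simp only [Pi.add_apply]; ring

lemma adf_neg (θ : ℕ → ℝ) (n : ℕ) : adf (-θ) n = -adf θ n := by
  unfold adf Finsupp.sum
  rw [← Finset.sum_neg_distrib]
  refine Finset.sum_congr rfl fun p _ => ?_
  simp only [Pi.neg_apply]; ring

lemma adf_zero (n : ℕ) : adf 0 n = 0 := by
  unfold adf Finsupp.sum
  refine Finset.sum_eq_zero fun p _ => ?_
  simp only [Pi.zero_apply, mul_zero]

/-- phases with coefficients indexed by the natural numbers -/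
noncomputable def phN (D : ℕ) (L : ℕ → ℕ → ℝ) (x : ℕ → ℝ) (n : ℕ) : ℝ :=
  ∑ d ∈ Finset.range (D + 1), (n : ℝ) ^ d * (adf (L d) n + x d)

lemma phc_eq {D : ℕ} (L : ℕ → ℕ → ℝ) (x : ℕ → ℝ) (n : ℕ) :
    phc (fun d : Fin (D + 1) => L d) (fun d : Fin (D + 1) => x d) n = phN D L x n := by
  unfold phc phase phN
  rw [← Finset.sum_add_distrib, Finset.sum_range]
  refine Finset.sum_congr rfl fun d _ => ?_
  unfold adf
  ring

lemma phN_le {D D' : ℕ} (h : D ≤ D') (L : ℕ → ℕ → ℝ) (x : ℕ → ℝ)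
    (hL : ∀ d, D < d → L d = 0 ∧ x d = 0) (n : ℕ) : phN D' L x n = phN D L x n := by
  unfold phN
  symm
  refine Finset.sum_subset (fun d hd => ?_) fun d _ hd => ?_
  · rw [Finset.mem_range] at hd ⊢; omega
  · rw [Finset.mem_range] at hd
    obtain ⟨h1, h2⟩ := hL d (by omega)
    rw [h1, h2, adf_zero, add_zero, mul_zero]

lemma IsPh.exists_phN {u : ℕ → Circle} (hu : IsPh u) :
    ∃ (D : ℕ) (L : ℕ → ℕ → ℝ) (x : ℕ → ℝ), x 0 = 0 ∧
      ∀ D', D ≤ D' → ∀ n, 0 < n → u n = ee (phN D' L x n) := by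
  obtain ⟨D, L, x, hx, h⟩ := hu
  let L' : ℕ → ℕ → ℝ := fun d => if hd : d < D + 1 then L ⟨d, hd⟩ else 0
  let x' : ℕ → ℝ := fun d => if hd : d < D + 1 then x ⟨d, hd⟩ else 0
  have h1 : (fun d : Fin (D + 1) => L' d) = L := by
    funext d
    simp only [L']
    rw [dif_pos d.2]
  have h2 : (fun d : Fin (D + 1) => x' d) = x := by
    funext d
    simp only [x']
    rw [dif_pos d.2]
  refine ⟨D, L', x', ?_, fun D' hD n hn => ?_⟩
  · have := congrFun h2 0
    rw [hx] at this
    exact this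
  · rw [phN_le hD, ← phc_eq, h1, h2]
    · exact h n hn
    · intro d hd
      constructor
      · simp only [L']; rw [dif_neg (by omega)]
      · simp only [x']; rw [dif_neg (by omega)]

lemma isPh_of_phN {u : ℕ → Circle} (D : ℕ) (L : ℕ → ℕ → ℝ) (x : ℕ → ℝ) (hx : x 0 = 0)
    (h : ∀ n, 0 < n → u n = ee (phN D L x n)) : IsPh u :=
  ⟨D, fun d => L d, fun d => x d, hx, fun n hn => by rw [h n hn, phc_eq]⟩

lemma phN_add (D : ℕ) (L L' : ℕ → ℕ → ℝ) (x x' : ℕ → ℝ) (n : ℕ) :
    phN D (L + L') (x + x') n = phN D L x n + phN D L' x' n := by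
  unfold phN
  rw [← Finset.sum_add_distrib]
  refine Finset.sum_congr rfl fun d _ => ?_
  rw [Pi.add_apply, Pi.add_apply, adf_add]; ring

lemma phN_neg (D : ℕ) (L : ℕ → ℕ → ℝ) (x : ℕ → ℝ) (n : ℕ) :
    phN D (-L) (-x) n = -phN D L x n := by
  unfold phN
  rw [← Finset.sum_neg_distrib]
  refine Finset.sum_congr rfl fun d _ => ?_
  rw [Pi.neg_apply, Pi.neg_apply, adf_neg]; ring

lemma IsPh.mul {u v : ℕ → Circle} (hu : IsPh u) (hv : IsPh v) : IsPh (fun n => u n * v n) := by
  obtain ⟨D, L, x, hx, h⟩ := hu.exists_phN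
  obtain ⟨D', L', x', hx', h'⟩ := hv.exists_phN
  refine isPh_of_phN (max D D') (L + L') (x + x') ?_ fun n hn => ?_
  · rw [Pi.add_apply, hx, hx', add_zero]
  · rw [phN_add, PPR.ee_add, h _ (le_max_left _ _) n hn, h' _ (le_max_right _ _) n hn]

lemma IsPh.inv {u : ℕ → Circle} (hu : IsPh u) : IsPh (fun n => (u n)⁻¹) := by
  obtain ⟨D, L, x, hx, h⟩ := hu.exists_phN
  refine isPh_of_phN D (-L) (-x) ?_ fun n hn => ?_
  · rw [Pi.neg_apply, hx, neg_zero]
  · rw [phN_neg, PPR.ee_neg, h D le_rfl n hn]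

lemma isPh_one : IsPh (fun _ => 1) := by
  refine isPh_of_phN 0 0 0 rfl fun n _ => ?_
  unfold phN
  rw [Finset.sum_eq_zero fun d _ => ?_, PPR.ee_zero]
  rw [Pi.zero_apply, Pi.zero_apply, adf_zero, add_zero, mul_zero]

/-! ### Functions of positive type -/

lemma meas_coeC : Measurable (fun z : Circle => (z : ℂ)) := continuous_coeC.measurable

lemma integrable_coeC {Ω : Type} [MeasurableSpace Ω] (ν : Measure Ω) [IsFiniteMeasure ν]
    {θ : Ω → Circle} (hθ : Measurable θ) : Integrable (fun ω => ((θ ω : Circle) : ℂ)) ν :=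
  Integrable.of_bound (meas_coeC.comp hθ).aestronglyMeasurable 1
    (Eventually.of_forall fun ω => (Circle.norm_coe (θ ω)).le)

theorem PT.congr {F G : ℕ → ℂ} (h : PT F) (hFG : ∀ n, 0 < n → G n = F n) : PT G := by
  obtain ⟨Ω, m, ν, Θ, h1, h2, h3, h4⟩ := h
  exact ⟨Ω, m, ν, Θ, h1, h2, h3, fun n hn => by rw [hFG n hn, h4 n hn]⟩

theorem PT.add {F G : ℕ → ℂ} (hF : PT F) (hG : PT G) : PT (fun n => F n + G n) := by
  obtain ⟨Ω, m, ν, Θ, h1, h2, h3, h4⟩ := hF
  obtain ⟨Ω', m', ν', Θ', h1', h2', h3', h4'⟩ := hG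
  refine ⟨Ω ⊕ Ω', inferInstance, ν.map Sum.inl + ν'.map Sum.inr, fun n => Sum.elim (Θ n) (Θ' n),
    inferInstance, fun n => ?_, ?_, fun n hn => ?_⟩
  · exact (h2 n).sumElim (h2' n)
  · rintro (ω | ω)
    · exact h3 ω
    · exact h3' ω
  · have hm : Measurable (Sum.elim (Θ n) (Θ' n)) := (h2 n).sumElim (h2' n)
    rw [integral_add_measure, integral_map measurable_inl.aemeasurable,
      integral_map measurable_inr.aemeasurable]
    · simp only [Sum.elim_inl, Sum.elim_inr]
      rw [h4 n hn, h4' n hn]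
    · exact (meas_coeC.comp hm).aestronglyMeasurable
    · exact (meas_coeC.comp hm).aestronglyMeasurable
    · exact integrable_coeC _ hm
    · exact integrable_coeC _ hm

theorem PT.mul {F G : ℕ → ℂ} (hF : PT F) (hG : PT G) : PT (fun n => F n * G n) := by
  obtain ⟨Ω, m, ν, Θ, h1, h2, h3, h4⟩ := hF
  obtain ⟨Ω', m', ν', Θ', h1', h2', h3', h4'⟩ := hG
  refine ⟨Ω × Ω', inferInstance, ν.prod ν', fun n ω => Θ n ω.1 * Θ' n ω.2,
    inferInstance, fun n => ?_, fun ω => (h3 ω.1).mul (h3' ω.2), fun n hn => ?_⟩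
  · exact continuous_mul.measurable.comp
      (((h2 n).comp measurable_fst).prodMk ((h2' n).comp measurable_snd))
  · simp only [Circle.coe_mul]
    have h5 := integral_prod_mul (μ := ν) (ν := ν') (fun ω => ((Θ n ω : Circle) : ℂ))
      (fun ω => ((Θ' n ω : Circle) : ℂ))
    rw [h5, h4 n hn, h4' n hn]

theorem PT.smul {F : ℕ → ℂ} (hF : PT F) (c : ℝ) (hc : 0 ≤ c) : PT (fun n => (c : ℂ) * F n) := by
  obtain ⟨Ω, m, ν, Θ, h1, h2, h3, h4⟩ := hF
  refine ⟨Ω, m, (c.toNNReal) • ν, Θ, inferInstance, h2, h3, fun n hn => ?_⟩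
  rw [integral_smul_nnreal_measure, NNReal.smul_def, Real.coe_toNNReal c hc,
    Complex.real_smul]
  exact congrArg (fun z : ℂ => (c : ℂ) * z) (h4 n hn)

theorem PT.conj {F : ℕ → ℂ} (hF : PT F) : PT (fun n => (starRingEnd ℂ) (F n)) := by
  obtain ⟨Ω, m, ν, Θ, h1, h2, h3, h4⟩ := hF
  refine ⟨Ω, m, ν, fun n ω => (Θ n ω)⁻¹, h1, fun n => continuous_inv.measurable.comp (h2 n),
    fun ω => (h3 ω).inv, fun n hn => ?_⟩
  simp only [Circle.coe_inv_eq_conj]
  rw [h4 n hn, integral_conj]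

theorem IsPh.pt {u : ℕ → Circle} (hu : IsPh u) : PT (fun n => ((u n : Circle) : ℂ)) := by
  refine ⟨Unit, inferInstance, Measure.dirac (), fun n _ => u n, inferInstance,
    fun n => measurable_const, fun _ => hu, fun n _ => ?_⟩
  rw [integral_const]
  simp

theorem PT.const (c : ℝ) (hc : 0 ≤ c) : PT (fun _ => (c : ℂ)) :=
  ((isPh_one.pt).smul c hc).congr fun n _ => by simp

theorem PT.pow {F : ℕ → ℂ} (hF : PT F) (k : ℕ) : PT (fun n => F n ^ k) := by
  induction k with
  | zero => exact (PT.const 1 zero_le_one).congr fun n _ => by simp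
  | succ k ih => exact (ih.mul hF).congr fun n _ => pow_succ _ _

theorem PT.sum {ι : Type} (s : Finset ι) {F : ι → ℕ → ℂ} (hF : ∀ i ∈ s, PT (F i)) :
    PT (fun n => ∑ i ∈ s, F i n) := by
  classical
  induction s using Finset.induction_on with
  | empty => exact (PT.const 0 le_rfl).congr fun n _ => by simp
  | insert a s ha ih =>
    refine ((hF a (Finset.mem_insert_self a s)).add
      (ih fun i hi => hF i (Finset.mem_insert_of_mem hi))).congr fun n _ => ?_
    rw [Finset.sum_insert ha]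

theorem PT.prod {ι : Type} (s : Finset ι) {F : ι → ℕ → ℂ} (hF : ∀ i ∈ s, PT (F i)) :
    PT (fun n => ∏ i ∈ s, F i n) := by
  classical
  induction s using Finset.induction_on with
  | empty => exact (PT.const 1 zero_le_one).congr fun n _ => by simp
  | insert a s ha ih =>
    refine ((hF a (Finset.mem_insert_self a s)).mul
      (ih fun i hi => hF i (Finset.mem_insert_of_mem hi))).congr fun n _ => ?_
    rw [Finset.prod_insert ha]

theorem PT.pos {F : ℕ → ℂ} (hF : PT F) (ε : ℝ) (hε : 0 < ε) :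
    ∀ᶠ X in atTop, ∀ᶠ K in atTop, -ε ≤ avg X K (fun n => (F n).re) := by
  obtain ⟨Ω, m, ν, Θ, h1, h2, h3, h4⟩ := hF
  let f : ℕ → ℕ → Ω → ℝ := fun X K ω => avg X K (fun n => ((Θ n ω : Circle) : ℂ).re)
  have hre : ∀ n, Measurable fun ω => ((Θ n ω : Circle) : ℂ).re := fun n =>
    Complex.measurable_re.comp (meas_coeC.comp (h2 n))
  have hb : ∀ n ω, |((Θ n ω : Circle) : ℂ).re| ≤ 1 := fun n ω => by
    refine (Complex.abs_re_le_norm _).trans ?_
    rw [Circle.norm_coe]
  have hfm : ∀ X K, Measurable (f X K) := by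
    intro X K
    simp only [f, avg_eq_sum, smul_eq_mul]
    exact measurable_const.mul (Finset.measurable_fun_sum _ fun a _ => hre _)
  have hfb : ∀ X K ω, |f X K ω| ≤ 1 := fun X K ω => abs_avg_le fun n => hb n ω
  have hint : ∀ n, Integrable (fun ω => ((Θ n ω : Circle) : ℂ).re) ν := fun n =>
    Integrable.of_bound (hre n).aestronglyMeasurable 1 (Eventually.of_forall fun ω => by
      rw [Real.norm_eq_abs]; exact hb n ω)
  have hfw : ∀ X K, ∫ ω, f X K ω ∂ν = avg X K (fun n => (F n).re) := by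
    intro X K
    have h5 : avg X K (fun n => (F n).re) =
        avg X K (fun n => ∫ ω, ((Θ n ω : Circle) : ℂ).re ∂ν) :=
      Lm.avg_congr X K fun n hn => by
        rw [h4 n hn]
        exact (integral_re (𝕜 := ℂ) (integrable_coeC ν (h2 n))).symm
    rw [h5]
    simp only [f, avg_eq_sum]
    rw [integral_smul, integral_finsetSum _ fun a _ => hint _]
  by_cases h0 : ν = 0
  · refine Eventually.of_forall fun X => Eventually.of_forall fun K => ?_
    rw [← hfw, h0, integral_zero_measure]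
    linarith
  · have hne : NeZero ν := ⟨h0⟩
    have hp : 0 < ν.real Set.univ := measureReal_univ_pos
    let c : ℝ := (ν.real Set.univ)⁻¹
    have hc : 0 < c := inv_pos.2 hp
    have hN : IsProbabilityMeasure ((ν Set.univ)⁻¹ • ν) := isProbabilityMeasureSMul
    have hh : ∀ᵐ ω ∂((ν Set.univ)⁻¹ • ν), ∀ δ : ℝ, 0 < δ → ∀ᶠ X in atTop, ∀ᶠ K in atTop,
        (0 : ℝ) - δ ≤ f X K ω := by
      refine Eventually.of_forall fun ω δ hδ => ?_
      obtain ⟨D, L, x, hx, h⟩ := h3 ω
      filter_upwards [posc L x hx δ hδ] with X hX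
      filter_upwards [hX] with K hK
      rw [zero_sub]
      refine hK.trans (le_of_eq ?_)
      exact Lm.avg_congr X K fun n hn =>
        congrArg (fun z : Circle => ((z : Circle) : ℂ).re) (h n hn).symm
    have hF := nested_fatou ((ν Set.univ)⁻¹ • ν) f hfm (fun _ => 0) measurable_const 1 hfb
      (fun _ => by simp) hh (c * ε) (by positivity)
    filter_upwards [hF] with X hX
    filter_upwards [hX] with K hK
    rw [integral_zero, zero_sub, integral_smul_measure, hfw, ENNReal.toReal_inv,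
      smul_eq_mul] at hK
    have h6 : -(c * ε) ≤ c * avg X K (fun n => (F n).re) := hK
    nlinarith

end Pool.Agent.TC3
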