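import Pool.Agent.TC3.PTa
import Pool.Agent.TC3.Negl

/-!
# Three colours: the tilting lemma
-/

set_option autoImplicit false

namespace Pool.Agent.TC3

open Pool.Agent.PPR
open MeasureTheory ProbabilityTheory Filter Topology

namespace Tlt

lemma avg_add (X K : ℕ) (f g : ℕ → ℝ) :
    avg X K (fun n => f n + g n) = avg X K f + avg X K g := by
  simp only [avg_eq_sum, Finset.sum_add_distrib, smul_add]

lemma avg_sub (X K : ℕ) (f g : ℕ → ℝ) :
    avg X K (fun n => f n - g n) = avg X K f - avg X K g := by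
  simp only [avg_eq_sum, Finset.sum_sub_distrib, smul_sub]

lemma avg_mul (X K : ℕ) (c : ℝ) (f : ℕ → ℝ) : avg X K (fun n => c * f n) = c * avg X K f := by
  simp only [avg_eq_sum, smul_eq_mul, ← Finset.mul_sum]
  ring

lemma avg_sum {ι : Type} (X K : ℕ) (s : Finset ι) (f : ι → ℕ → ℝ) :
    avg X K (fun n => ∑ i ∈ s, f i n) = ∑ i ∈ s, avg X K (f i) := by
  classical
  induction s using Finset.induction_on with
  | empty =>
    simp only [Finset.sum_empty]
    exact avg_const X K 0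
  | insert a s ha ih => simp only [Finset.sum_insert ha, avg_add, ih]

/-- the difference of the products is of positive type -/
lemma pt_prod_sub {κ : Type} (s : Finset κ) (a : κ → ℕ → ℝ) (c : κ → ℝ) (hc : ∀ k, 0 ≤ c k)
    (h1 : ∀ k, PT (fun n => ((a k n : ℝ) : ℂ))) (h2 : ∀ k, PT (fun n => ((a k n - c k : ℝ) : ℂ))) :
    PT (fun n => ((∏ k ∈ s, a k n - ∏ k ∈ s, c k : ℝ) : ℂ)) := by
  classical
  induction s using Finset.induction_on with
  | empty => exact (PT.const 0 le_rfl).congr fun n _ => by simp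
  | insert k s hk ih =>
    refine (((h1 k).mul ih).add ((h2 k).smul (∏ k ∈ s, c k)
      (Finset.prod_nonneg fun i _ => hc i))).congr fun n _ => ?_
    rw [Finset.prod_insert hk, Finset.prod_insert hk]
    push_cast
    ring

theorem tilt_gen {κ : Type} [Fintype κ] (a : κ → ℕ → ℝ) (c : κ → ℝ) (hc : ∀ k, 0 < c k)
    (h1 : ∀ k, PT (fun n => ((a k n : ℝ) : ℂ))) (h2 : ∀ k, PT (fun n => ((a k n - c k : ℝ) : ℂ)))
    (h0 : ∀ k n, 0 < n → 0 ≤ a k n) (M : ℝ) (hM : ∀ k n, 0 < n → a k n ≤ M)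
    (η : ℝ) (hη0 : 0 ≤ η) (hη : η * Fintype.card κ < 1) (B : Set ℕ) (hB : Negl B) :
    ∃ n, 0 < n ∧ n ∉ B ∧ ∀ k, η * c k < a k n := by
  classical
  by_contra hcon
  push Not at hcon
  let P : ℕ → ℝ := fun n => ∏ k, a k n
  let Q : κ → ℕ → ℝ := fun k n => ∏ j ∈ Finset.univ.erase k, a j n
  have hQ0 : ∀ k n, 0 < n → 0 ≤ Q k n := fun k n hn => Finset.prod_nonneg fun j _ => h0 j n hn
  have hP0 : ∀ n, 0 < n → 0 ≤ P n := fun n hn => Finset.prod_nonneg fun j _ => h0 j n hn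
  have hPQ : ∀ k n, P n = a k n * Q k n := fun k n =>
    (Finset.mul_prod_erase Finset.univ (fun j => a j n) (Finset.mem_univ k)).symm
  have hPM : ∀ n, 0 < n → P n ≤ |M| ^ Fintype.card κ := by
    intro n hn
    calc P n ≤ ∏ _k : κ, |M| := Finset.prod_le_prod (fun k _ => h0 k n hn)
          (fun k _ => (hM k n hn).trans (le_abs_self M))
      _ = |M| ^ Fintype.card κ := by rw [Finset.prod_const, Finset.card_univ]
  have hc0 : 0 < ∏ k, c k := Finset.prod_pos fun k _ => hc k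
  have hMc : 0 ≤ |M| ^ Fintype.card κ := by positivity
  -- pointwise bound
  have hpt : ∀ n, 0 < n → P n ≤ ∑ k, η * (c k * Q k n) +
      |M| ^ Fintype.card κ * B.indicator (fun _ => (1 : ℝ)) n := by
    intro n hn
    have hs : 0 ≤ ∑ k, η * (c k * Q k n) := Finset.sum_nonneg fun k _ =>
      mul_nonneg hη0 (mul_nonneg (hc k).le (hQ0 k n hn))
    by_cases hnB : n ∈ B
    · rw [Set.indicator_of_mem hnB, mul_one]
      exact (hPM n hn).trans (by linarith)
    · rw [Set.indicator_of_notMem hnB, mul_zero, add_zero]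
      obtain ⟨k, hk⟩ := hcon n hn hnB
      have h3 : P n ≤ η * (c k * Q k n) := by
        rw [hPQ k n, ← mul_assoc]
        exact mul_le_mul_of_nonneg_right hk (hQ0 k n hn)
      exact h3.trans (Finset.single_le_sum (f := fun k => η * (c k * Q k n)) (fun k _ =>
        mul_nonneg hη0 (mul_nonneg (hc k).le (hQ0 k n hn))) (Finset.mem_univ k))
  -- positive type
  have hPTQ : ∀ k, PT (fun n => ((P n - c k * Q k n : ℝ) : ℂ)) := by
    intro k
    have h3 : PT (fun n => ((Q k n : ℝ) : ℂ)) :=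
      (PT.prod (Finset.univ.erase k) (F := fun j n => ((a j n : ℝ) : ℂ)) fun j _ => h1 j).congr
        fun n _ => by simp only [Q]; push_cast; rfl
    refine ((h2 k).mul h3).congr fun n _ => ?_
    rw [hPQ k n]
    push_cast
    ring
  have hPTP : PT (fun n => ((P n - ∏ k, c k : ℝ) : ℂ)) :=
    pt_prod_sub Finset.univ a c (fun k => (hc k).le) h1 h2
  -- the error
  have hgap : 0 < 1 - η * Fintype.card κ := by linarith
  obtain ⟨δ, hδ0, hδ⟩ : ∃ δ : ℝ, 0 < δ ∧
      (η * Fintype.card κ + |M| ^ Fintype.card κ) * δ < (1 - η * Fintype.card κ) *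
        ((∏ k, c k) - δ) := by
    have hη' : 0 ≤ η * (Fintype.card κ : ℝ) := mul_nonneg hη0 (Nat.cast_nonneg _)
    refine ⟨(1 - η * Fintype.card κ) * (∏ k, c k) / (2 * (1 + |M| ^ Fintype.card κ)),
      by positivity, ?_⟩
    have h3 : (1 + |M| ^ Fintype.card κ) * ((1 - η * Fintype.card κ) * (∏ k, c k) /
        (2 * (1 + |M| ^ Fintype.card κ))) = (1 - η * Fintype.card κ) * (∏ k, c k) / 2 := by
      field_simp
    have h4 : 0 < (1 - η * Fintype.card κ) * (∏ k, c k) := mul_pos hgap hc0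
    nlinarith
  have e1 : ∀ᶠ X in atTop, ∀ᶠ K in atTop, ∀ k, -δ ≤ avg X K (fun n => (P n - c k * Q k n)) := by
    have h3 : ∀ k, ∀ᶠ X in atTop, ∀ᶠ K in atTop, -δ ≤ avg X K (fun n => (P n - c k * Q k n)) := by
      intro k
      have := (hPTQ k).pos δ hδ0
      simpa only [Complex.ofReal_re] using this
    have h4 := (eventually_all.2 h3)
    filter_upwards [h4] with X hX
    exact eventually_all.2 hX
  have e2 : ∀ᶠ X in atTop, ∀ᶠ K in atTop, -δ ≤ avg X K (fun n => (P n - ∏ k, c k)) := by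
    have := hPTP.pos δ hδ0
    simpa only [Complex.ofReal_re] using this
  obtain ⟨X, hX1, hX2, hX3⟩ := (e1.and (e2.and (hB δ hδ0))).exists
  obtain ⟨K, hK1, hK2, hK3⟩ := (hX1.and (hX2.and hX3)).exists
  have h3 : avg X K P ≤ ∑ k, η * (c k * avg X K (Q k)) + |M| ^ Fintype.card κ * δ := by
    refine (avg_mono hpt).trans ?_
    rw [avg_add, avg_sum, avg_mul]
    refine add_le_add (le_of_eq ?_) (mul_le_mul_of_nonneg_left hK3 hMc)
    refine Finset.sum_congr rfl fun k _ => ?_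
    rw [avg_mul, avg_mul]
  have h4 : ∀ k, c k * avg X K (Q k) ≤ avg X K P + δ := by
    intro k
    have := hK1 k
    rw [avg_sub, avg_mul] at this
    linarith
  have h5 : ∑ k, η * (c k * avg X K (Q k)) ≤ η * Fintype.card κ * (avg X K P + δ) := by
    calc ∑ k, η * (c k * avg X K (Q k)) ≤ ∑ _k : κ, η * (avg X K P + δ) :=
          Finset.sum_le_sum fun k _ => mul_le_mul_of_nonneg_left (h4 k) hη0
      _ = η * Fintype.card κ * (avg X K P + δ) := by
          rw [Finset.sum_const, Finset.card_univ, nsmul_eq_mul]; ring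
  rw [avg_sub, avg_const] at hK2
  have h6 : (1 - η * Fintype.card κ) * ((∏ k, c k) - δ) ≤
      (1 - η * Fintype.card κ) * avg X K P := mul_le_mul_of_nonneg_left (by linarith) hgap.le
  nlinarith

/-- the Fejer kernel of a phase -/
noncomputable def fej (N : ℕ) (u : ℕ → Circle) (n : ℕ) : ℝ :=
  ((N : ℝ) ^ 2)⁻¹ * Complex.normSq (∑ j ∈ Finset.range N, ((u n : Circle) : ℂ) ^ j)

lemma fej_nonneg (N : ℕ) (u : ℕ → Circle) (n : ℕ) : 0 ≤ fej N u n :=
  mul_nonneg (by positivity) (Complex.normSq_nonneg _)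

lemma fej_le_one (N : ℕ) (hN : 0 < N) (u : ℕ → Circle) (n : ℕ) : fej N u n ≤ 1 := by
  unfold fej
  have hN' : (0 : ℝ) < N := by exact_mod_cast hN
  rw [Complex.normSq_eq_norm_sq, inv_mul_le_iff₀ (by positivity), mul_one]
  have h1 : ‖∑ j ∈ Finset.range N, ((u n : Circle) : ℂ) ^ j‖ ≤ N := by
    refine (norm_sum_le _ _).trans ?_
    have h2 : ∀ j ∈ Finset.range N, ‖((u n : Circle) : ℂ) ^ j‖ = 1 := fun j _ => by
      rw [norm_pow, Circle.norm_coe, one_pow]
    rw [Finset.sum_congr rfl h2]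
    simp
  exact pow_le_pow_left₀ (norm_nonneg _) h1 2

lemma fej_coe (N : ℕ) (u : ℕ → Circle) (n : ℕ) : ((fej N u n : ℝ) : ℂ) =
    ((((N : ℝ) ^ 2)⁻¹ : ℝ) : ℂ) * ∑ j ∈ Finset.range N, ∑ k ∈ Finset.range N,
      ((u n : Circle) : ℂ) ^ j * (starRingEnd ℂ) ((u n : Circle) : ℂ) ^ k := by
  unfold fej
  rw [← Finset.sum_mul_sum]
  push_cast
  congr 1
  rw [← Complex.mul_conj]
  congr 1
  rw [map_sum]
  exact Finset.sum_congr rfl fun k _ => by rw [map_pow]

lemma fej_pt (N : ℕ) {u : ℕ → Circle} (hu : IsPh u) : PT (fun n => ((fej N u n : ℝ) : ℂ)) := by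
  refine ((PT.sum (Finset.range N) (F := fun j n => ∑ k ∈ Finset.range N,
    ((u n : Circle) : ℂ) ^ j * (starRingEnd ℂ) ((u n : Circle) : ℂ) ^ k) fun j _ =>
      PT.sum (Finset.range N) fun k _ => (hu.pt.pow j).mul (hu.pt.conj.pow k)).smul
        (((N : ℝ) ^ 2)⁻¹) (by positivity)).congr fun n _ => fej_coe N u n

lemma fej_sub_pt (N : ℕ) (hN : 0 < N) {u : ℕ → Circle} (hu : IsPh u) :
    PT (fun n => ((fej N u n - (N : ℝ)⁻¹ : ℝ) : ℂ)) := by
  have hN' : (N : ℂ) ≠ 0 := by exact_mod_cast hN.ne'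
  refine ((PT.sum (Finset.range N) (F := fun j n => ∑ k ∈ Finset.range N,
    (if j = k then (0 : ℂ) else
      ((u n : Circle) : ℂ) ^ j * (starRingEnd ℂ) ((u n : Circle) : ℂ) ^ k)) fun j _ =>
      PT.sum (Finset.range N) fun k _ => ?_).smul
        (((N : ℝ) ^ 2)⁻¹) (by positivity)).congr fun n _ => ?_
  · by_cases h : j = k
    · simp only [if_pos h]
      exact_mod_cast PT.const 0 le_rfl
    · simp only [if_neg h]
      exact (hu.pt.pow j).mul (hu.pt.conj.pow k)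
  · have h1 : ∀ j ∈ Finset.range N, ∑ k ∈ Finset.range N,
        ((u n : Circle) : ℂ) ^ j * (starRingEnd ℂ) ((u n : Circle) : ℂ) ^ k =
        ∑ k ∈ Finset.range N, (if j = k then (0 : ℂ) else
          ((u n : Circle) : ℂ) ^ j * (starRingEnd ℂ) ((u n : Circle) : ℂ) ^ k) + 1 := by
      intro j hj
      have h2 : (1 : ℂ) = ∑ k ∈ Finset.range N, (if j = k then (1 : ℂ) else 0) := by
        rw [Finset.sum_ite_eq, if_pos hj]
      conv_rhs => rw [h2]
      rw [← Finset.sum_add_distrib]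
      refine Finset.sum_congr rfl fun k _ => ?_
      by_cases h : j = k
      · subst h
        rw [if_pos rfl, if_pos rfl, zero_add, ← mul_pow, Complex.mul_conj, Complex.normSq_eq_norm_sq,
          Circle.norm_coe]
        simp
      · rw [if_neg h, if_neg h, add_zero]
    rw [Complex.ofReal_sub, fej_coe, Finset.sum_congr rfl h1, Finset.sum_add_distrib,
      Finset.sum_const, Finset.card_range, nsmul_eq_mul, mul_one, mul_add]
    have h3 : ((((N : ℝ) ^ 2)⁻¹ : ℝ) : ℂ) * (N : ℂ) = (((N : ℝ)⁻¹ : ℝ) : ℂ) := by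
      push_cast
      field_simp
    rw [h3]
    ring

/-- the Fejer kernel is small away from one -/
lemma fej_small (N : ℕ) (hN : 0 < N) (u : ℕ → Circle) (n : ℕ) (ε : ℝ) (hε : 0 < ε)
    (h : ((u n : Circle) : ℂ).re < 1 - ε) : fej N u n ≤ 2 / (ε * (N : ℝ) ^ 2) := by
  set z : ℂ := ((u n : Circle) : ℂ) with hz
  have hzn : ‖z‖ = 1 := Circle.norm_coe _
  have hN' : (0 : ℝ) < N := by exact_mod_cast hN
  have h1 : Complex.normSq (1 - z) = 2 - 2 * z.re := by
    have h2 : Complex.normSq z = 1 := by rw [Complex.normSq_eq_norm_sq, hzn, one_pow]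
    rw [Complex.normSq_sub, h2]
    simp
    ring
  have h2 : (∑ j ∈ Finset.range N, z ^ j) * (z - 1) = z ^ N - 1 := geom_sum_mul z N
  have h3 : Complex.normSq (∑ j ∈ Finset.range N, z ^ j) * Complex.normSq (z - 1) ≤ 4 := by
    rw [← Complex.normSq_mul, h2, Complex.normSq_eq_norm_sq]
    have h4 : ‖z ^ N - 1‖ ≤ 2 := by
      refine (norm_sub_le _ _).trans ?_
      rw [norm_pow, hzn, one_pow, norm_one]
      norm_num
    calc ‖z ^ N - 1‖ ^ 2 ≤ 2 ^ 2 := pow_le_pow_left₀ (norm_nonneg _) h4 2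
      _ = 4 := by norm_num
  have h4 : Complex.normSq (z - 1) = 2 - 2 * z.re := by
    rw [← h1, ← Complex.normSq_neg, neg_sub]
  rw [h4] at h3
  have h5 : 2 * ε < 2 - 2 * z.re := by linarith
  have h6 : Complex.normSq (∑ j ∈ Finset.range N, z ^ j) * (2 * ε) ≤ 4 :=
    (mul_le_mul_of_nonneg_left h5.le (Complex.normSq_nonneg _)).trans h3
  unfold fej
  rw [← hz, le_div_iff₀ (by positivity)]
  have h7 : ((N : ℝ) ^ 2)⁻¹ * Complex.normSq (∑ j ∈ Finset.range N, z ^ j) * (ε * (N : ℝ) ^ 2) =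
      Complex.normSq (∑ j ∈ Finset.range N, z ^ j) * ε := by
    field_simp
  rw [h7]
  linarith

lemma pow_sub_pt (N : ℕ) (ψ : ℕ → ℝ) (hψ : PT (fun n => ((ψ n : ℝ) : ℂ))) :
    PT (fun n => (((1 + ψ n) ^ N - 1 : ℝ) : ℂ)) := by
  have h1 : PT (fun n => ((1 + ψ n : ℝ) : ℂ)) :=
    ((PT.const 1 zero_le_one).add hψ).congr fun n _ => by push_cast; rfl
  induction N with
  | zero => exact (PT.const 0 le_rfl).congr fun n _ => by simp
  | succ N ih =>
    refine ((ih.mul h1).add hψ).congr fun n _ => ?_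
    push_cast
    ring

lemma pow_pt (N : ℕ) (ψ : ℕ → ℝ) (hψ : PT (fun n => ((ψ n : ℝ) : ℂ))) :
    PT (fun n => (((1 + ψ n) ^ N : ℝ) : ℂ)) := by
  refine ((pow_sub_pt N ψ hψ).add (PT.const 1 zero_le_one)).congr fun n _ => ?_
  push_cast
  ring

end Tlt

open Tlt

theorem tilt {I J : Type} [Fintype I] [Fintype J] (u : I → ℕ → Circle) (hu : ∀ i, IsPh (u i))
    (ψ : J → ℕ → ℝ) (hψ : ∀ j, PT (fun n => ((ψ j n : ℝ) : ℂ)))
    (hψ1 : ∀ j n, 0 < n → |ψ j n| ≤ 1) (B : Set ℕ) (hB : Negl B) (ε : ℝ) (hε : 0 < ε) :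
    ∃ n, 2 ≤ n ∧ n ∉ B ∧ (∀ i, 1 - ε ≤ ((u i n : Circle) : ℂ).re) ∧ ∀ j, -ε ≤ ψ j n := by
  wlog hε1 : ε < 1 generalizing ε with H
  · obtain ⟨n, h1, h2, h3, h4⟩ := H (1 / 2) (by norm_num) (by norm_num)
    push Not at hε1
    exact ⟨n, h1, h2, fun i => le_trans (by linarith) (h3 i), fun j => le_trans (by linarith) (h4 j)⟩
  set η : ℝ := ((Fintype.card (I ⊕ J) : ℝ) + 1)⁻¹ with hη
  have hη0 : 0 < η := by positivity
  have hη1 : η * Fintype.card (I ⊕ J) < 1 := by
    rw [hη, inv_mul_lt_iff₀ (by positivity)]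
    linarith
  -- the exponent
  obtain ⟨N, hN0, hN1, hN2⟩ : ∃ N : ℕ, 0 < N ∧ 2 / (ε * (N : ℝ) ^ 2) ≤ η * (N : ℝ)⁻¹ ∧
      (1 - ε) ^ N ≤ η := by
    have e1 : ∀ᶠ N : ℕ in atTop, (1 - ε) ^ N < η :=
      (tendsto_pow_atTop_nhds_zero_of_lt_one (by linarith) (by linarith)).eventually_lt_const hη0
    have e2 : ∀ᶠ N : ℕ in atTop, 2 / (ε * η) ≤ (N : ℝ) :=
      tendsto_natCast_atTop_atTop.eventually_ge_atTop _
    obtain ⟨N, h1, h2, h3⟩ := (e1.and (e2.and (eventually_gt_atTop 0))).exists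
    refine ⟨N, h3, ?_, h1.le⟩
    have hN' : (0 : ℝ) < N := by exact_mod_cast h3
    rw [div_le_iff₀ (by positivity)]
    have h4 : η * (N : ℝ)⁻¹ * (ε * (N : ℝ) ^ 2) = η * ε * N := by
      field_simp
    rw [h4]
    rw [div_le_iff₀ (by positivity)] at h2
    linarith
  let a : I ⊕ J → ℕ → ℝ := Sum.elim (fun i => fej N (u i)) (fun j n => (1 + ψ j n) ^ N)
  let c : I ⊕ J → ℝ := Sum.elim (fun _ => (N : ℝ)⁻¹) (fun _ => 1)
  have hN' : (0 : ℝ) < N := by exact_mod_cast hN0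
  obtain ⟨n, hn0, hnB, hn⟩ := tilt_gen a c
    (by rintro (i | j)
        · exact inv_pos.2 hN'
        · exact one_pos)
    (by rintro (i | j)
        · exact fej_pt N (hu i)
        · exact pow_pt N (ψ j) (hψ j))
    (by rintro (i | j)
        · exact fej_sub_pt N hN0 (hu i)
        · exact pow_sub_pt N (ψ j) (hψ j))
    (by rintro (i | j) n hn
        · exact fej_nonneg N (u i) n
        · refine pow_nonneg ?_ N
          have := (abs_le.1 (hψ1 j n hn)).1
          linarith) (2 ^ N)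
    (by rintro (i | j) n hn
        · exact (fej_le_one N hN0 (u i) n).trans (one_le_pow₀ (by norm_num))
        · refine pow_le_pow_left₀ ?_ ?_ N
          · have := (abs_le.1 (hψ1 j n hn)).1
            linarith
          · have := (abs_le.1 (hψ1 j n hn)).2
            linarith) η hη0.le hη1 (B ∪ {n | n < 2}) (hB.union negl_one)
  rw [Set.mem_union, not_or] at hnB
  refine ⟨n, ?_, hnB.1, fun i => ?_, fun j => ?_⟩
  · exact not_lt.1 hnB.2
  · by_contra hlt
    push Not at hlt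
    have h1 := fej_small N hN0 (u i) n ε hε hlt
    have h2 : η * (N : ℝ)⁻¹ < fej N (u i) n := hn (Sum.inl i)
    linarith
  · by_contra hlt
    push Not at hlt
    have h1 : η * 1 < (1 + ψ j n) ^ N := hn (Sum.inr j)
    have h2 : (1 + ψ j n) ^ N ≤ (1 - ε) ^ N := by
      refine pow_le_pow_left₀ ?_ (by linarith) N
      have := (abs_le.1 (hψ1 j n hn0)).1
      linarith
    linarith

end Pool.Agent.TC3
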